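import Mathlib

/- Characteristic zero lifts of a finite field and of its algebraic closure. -/

set_option autoImplicit false

namespace Pool.Agent.MP_4fffd4_nt

open Polynomial

/-- Lifting data: `A` lifts the finite field `F`, `O` lifts `K`, `φ` lifts `x ↦ x ^ q`. -/
structure LiftData (p : ℕ) (F K A O : Type*) [Field F] [Fintype F] [Field K] [Algebra F K]
    [CommRing A] [CommRing O] where
  ι : A →+* O
  ρ : A →+* F
  π : O →+* K
  φ : O →+* O
  πι : ∀ a, π (ι a) = algebraMap F K (ρ a)
  φι : ∀ a, φ (ι a) = ι a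
  πφ : ∀ x, π (φ x) = π x ^ Fintype.card F
  ρ_surj : Function.Surjective ρ
  π_surj : Function.Surjective π
  ker_ρ : ∀ a, ρ a = 0 ↔ (p : A) ∣ a
  ker_π : ∀ x, π x = 0 ↔ (p : O) ∣ x
  p_ne : (p : O) ≠ 0
  unit_A : ∀ a, ρ a ≠ 0 → IsUnit a
  unit_O : ∀ x, π x ≠ 0 → IsUnit x
  hensel : ∀ G : O[X], G.Monic → ∀ x : O, π (G.eval x) = 0 → π (G.derivative.eval x) ≠ 0 →
    ∃ y : O, G.eval y = 0 ∧ π y = π x

theorem nonempty_liftData (p : ℕ) [Fact p.Prime] (F K : Type*) [Field F] [Fintype F] [CharP F p]
    [Field K] [Algebra F K] [IsAlgClosed K] :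
    Nonempty (LiftData p F K (WittVector p F) (WittVector p K)) := by
  haveI : CharP K p := charP_of_injective_algebraMap (algebraMap F K).injective p
  haveI : ExpChar F p := ExpChar.prime Fact.out
  haveI : ExpChar K p := ExpChar.prime Fact.out
  haveI : PerfectRing F p := PerfectField.toPerfectRing p
  haveI : PerfectRing K p := PerfectField.toPerfectRing p
  have kerK : ∀ x : WittVector p K, WittVector.constantCoeff x = 0 ↔ (p : WittVector p K) ∣ x := by
    intro x
    rw [← Ideal.mem_span_singleton, WittVector.mem_span_p_iff_coeff_zero_eq_zero]; rfl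
  refine ⟨{
    ι := WittVector.map (algebraMap F K)
    ρ := WittVector.constantCoeff
    π := WittVector.constantCoeff
    φ := WittVector.map (FiniteField.frobeniusAlgHom F K).toRingHom
    πι := fun a => by simp [WittVector.map_coeff]
    φι := fun a => by
      ext n
      simp only [WittVector.map_coeff]
      exact (FiniteField.frobeniusAlgHom F K).commutes _
    πφ := fun x => by simp [WittVector.map_coeff]
    ρ_surj := WittVector.constantCoeff_surjective p
    π_surj := WittVector.constantCoeff_surjective p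
    ker_ρ := fun a => by
      rw [← Ideal.mem_span_singleton, WittVector.mem_span_p_iff_coeff_zero_eq_zero]; rfl
    ker_π := kerK
    p_ne := WittVector.p_nonzero p K
    unit_A := fun a ha => WittVector.isUnit_of_coeff_zero_ne_zero a ha
    unit_O := fun a ha => WittVector.isUnit_of_coeff_zero_ne_zero a ha
    hensel := ?_ }⟩
  intro G hG x h1 h2
  obtain ⟨y, hy, hy'⟩ := HenselianRing.is_henselian (I := Ideal.span {(p : WittVector p K)}) G hG x
    (Ideal.mem_span_singleton.2 ((kerK _).1 h1))
    ((WittVector.isUnit_of_coeff_zero_ne_zero _ h2).map _)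
  refine ⟨y, hy, ?_⟩
  rw [← sub_eq_zero, ← map_sub, kerK]
  exact Ideal.mem_span_singleton.1 hy'

end Pool.Agent.MP_4fffd4_nt
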