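import Mathlib

/- Sign of a permutation from the number of its orbits, and a reciprocity lemma for
products of values of a polynomial at the roots of another one. -/

set_option autoImplicit false

namespace Pool.Agent.MP_4fffd4_nt

open Polynomial Finset

theorem card_image_eq_of_ker {ι α β : Type*} [DecidableEq α] [DecidableEq β] (s : Finset ι)
    (f : ι → α) (g : ι → β) (h : ∀ x ∈ s, ∀ y ∈ s, f x = f y ↔ g x = g y) :
    (s.image f).card = (s.image g).card := by
  classical
  induction s using Finset.induction with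
  | empty => simp
  | insert a s has IH =>
    have IH' := IH (fun x hx y hy => h x (mem_insert_of_mem hx) y (mem_insert_of_mem hy))
    rw [image_insert, image_insert]
    by_cases hf : f a ∈ s.image f
    · have hg : g a ∈ s.image g := by
        obtain ⟨x, hx, e⟩ := mem_image.1 hf
        exact mem_image.2 ⟨x, hx, (h x (mem_insert_of_mem hx) a (mem_insert_self _ _)).1 e⟩
      rw [insert_eq_of_mem hf, insert_eq_of_mem hg, IH']
    · have hg : g a ∉ s.image g := by
        intro hg
        obtain ⟨x, hx, e⟩ := mem_image.1 hg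
        exact hf (mem_image.2 ⟨x, hx, (h x (mem_insert_of_mem hx) a (mem_insert_self _ _)).2 e⟩)
      rw [card_insert_of_notMem hf, card_insert_of_notMem hg, IH']

theorem sign_eq_of_orbits {ι γ : Type*} [Fintype ι] [DecidableEq ι] [DecidableEq γ]
    (σ : Equiv.Perm ι) (c : ι → γ) (hc : ∀ x y, c x = c y ↔ σ.SameCycle x y) :
    ((Equiv.Perm.sign σ : ℤˣ) : ℤ) = (-1) ^ (Fintype.card ι + (univ.image c).card) := by
  classical
  have h1 : (σ.support.image c).card = (σ.support.image σ.cycleOf).card := by
    apply card_image_eq_of_ker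
    intro x hx y hy
    rw [hc]
    constructor
    · intro h; exact h.cycleOf_eq
    · intro h
      have hy' : y ∈ (σ.cycleOf y).support := by
        rw [Equiv.Perm.mem_support_cycleOf_iff]; exact ⟨Equiv.Perm.SameCycle.refl _ _, hy⟩
      rw [← h, Equiv.Perm.mem_support_cycleOf_iff] at hy'
      exact hy'.1
  have h2 : σ.support.image σ.cycleOf = σ.cycleFactorsFinset := by
    ext g
    rw [mem_image]
    constructor
    · rintro ⟨x, hx, rfl⟩
      exact Equiv.Perm.cycleOf_mem_cycleFactorsFinset_iff.2 hx
    · intro hg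
      obtain ⟨x, hx⟩ := (Equiv.Perm.mem_cycleFactorsFinset_iff.1 hg).1.nonempty_support
      exact ⟨x, Equiv.Perm.mem_cycleFactorsFinset_support_le hg hx,
        (Equiv.Perm.cycle_is_cycleOf hx hg).symm⟩
  have h3 : (σ.supportᶜ.image c).card = σ.supportᶜ.card := by
    apply card_image_of_injOn
    intro x hx y _ h
    have hx' : σ x = x := by simpa using hx
    exact ((hc x y).1 h).eq_of_left hx'
  have h4 : Disjoint (σ.support.image c) (σ.supportᶜ.image c) := by
    rw [disjoint_left]
    intro z hz hz'
    obtain ⟨x, hx, rfl⟩ := mem_image.1 hz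
    obtain ⟨y, hy, e⟩ := mem_image.1 hz'
    have hy' : σ y = y := by simpa using hy
    have := ((hc y x).1 e).eq_of_left hy'
    subst this
    simp [hy'] at hx
  have h5 : (univ.image c).card = σ.cycleFactorsFinset.card + σ.supportᶜ.card := by
    rw [← h2, ← h1, ← h3, ← card_union_of_disjoint h4, ← image_union, union_compl]
  have h6 : Fintype.card ι = σ.support.card + σ.supportᶜ.card := by
    rw [card_add_card_compl]
  rw [Equiv.Perm.sign_of_cycleType, Equiv.Perm.sum_cycleType, h5, h6]
  have h7 : Multiset.card σ.cycleType = σ.cycleFactorsFinset.card := by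
    simp [Equiv.Perm.cycleType_def]
  rw [h7]
  push_cast
  rw [show σ.support.card + σ.supportᶜ.card + (σ.cycleFactorsFinset.card + σ.supportᶜ.card)
    = σ.support.card + σ.cycleFactorsFinset.card + 2 * σ.supportᶜ.card by ring]
  rw [pow_add _ _ (2 * _), pow_mul]
  simp

section Recip

variable {R : Type*} [CommRing R]

theorem resultant_prod_X_sub_C {ι : Type*} [Fintype ι] (a : ι → R) (g : R[X]) (m : ℕ)
    (hg : g.natDegree ≤ m) :
    resultant (∏ i, (X - C (a i))) g (Fintype.card ι) m = ∏ i, g.eval (a i) := by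
  nontriviality R
  have h1 : (∏ i, (X - C (a i))).natDegree = Fintype.card ι := by
    rw [natDegree_prod_of_monic _ _ (fun i _ => monic_X_sub_C _)]
    simp
  rw [← h1, resultant_prod_left _ _ _ _ (by simp) hg]
  refine Finset.prod_congr rfl fun i _ => ?_
  rw [natDegree_X_sub_C, resultant_X_sub_C_left _ _ _ hg]

/-- Two split monic polynomials of the same degree, congruent modulo a monic `V`, give the
same product of values of `V` at their roots. -/
theorem prod_eval_eq_of_dvd {ι : Type*} [Fintype ι] (a₁ a₂ : ι → R) (V : R[X]) (hV : V.Monic)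
    (h : V ∣ (∏ i, (X - C (a₁ i))) - ∏ i, (X - C (a₂ i))) :
    ∏ i, V.eval (a₁ i) = ∏ i, V.eval (a₂ i) := by
  nontriviality R
  obtain ⟨Y, hY⟩ := h
  have hd : ∀ a : ι → R, (∏ i, (X - C (a i))).natDegree = Fintype.card ι := by
    intro a
    rw [natDegree_prod_of_monic _ _ (fun i _ => monic_X_sub_C _)]
    simp
  rw [← resultant_prod_X_sub_C a₁ V V.natDegree le_rfl,
    ← resultant_prod_X_sub_C a₂ V V.natDegree le_rfl]
  by_cases hY0 : Y = 0
  · rw [hY0, mul_zero, sub_eq_zero] at hY
    rw [hY]
  have e : (∏ i, (X - C (a₁ i))) = (∏ i, (X - C (a₂ i))) + V * Y := by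
    rw [← hY]; ring
  rw [e, resultant_add_mul_left _ _ _ _ _ _ le_rfl]
  have : (V * Y).natDegree ≤ Fintype.card ι := by
    rw [← hY]
    exact (natDegree_sub_le _ _).trans (by rw [hd, hd, max_self])
  rw [hV.natDegree_mul' hY0] at this
  omega

theorem prod_eval_swap {ι κ : Type*} [Fintype ι] [Fintype κ] (a : ι → R) (t : κ → R) :
    ∏ i, (∏ j, (X - C (t j))).eval (a i) =
      (-1) ^ (Fintype.card ι * Fintype.card κ) * ∏ j, (∏ i, (X - C (a i))).eval (t j) := by
  simp only [eval_prod, eval_sub, eval_X, eval_C]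
  rw [Finset.prod_comm (s := (univ : Finset κ))]
  have : ∀ i, ∏ j, (a i - t j) = (-1) ^ Fintype.card κ * ∏ j, (t j - a i) := by
    intro i
    rw [← Finset.card_univ, ← Finset.prod_const, ← Finset.prod_mul_distrib]
    exact Finset.prod_congr rfl fun j _ => by ring
  simp only [this]
  rw [Finset.prod_mul_distrib, Finset.prod_const, Finset.card_univ, ← pow_mul, mul_comm (Fintype.card κ)]

end Recip

end Pool.Agent.MP_4fffd4_nt
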