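import Mathlib
import Pool.Agent.MP_4fffd4_nt.Perm
import Pool.Agent.MP_4fffd4_nt.Lift

/- The parity theorem of Pellet, Stickelberger and Swan, in the form needed here. -/

set_option autoImplicit false

namespace Pool.Agent.MP_4fffd4_nt

open Polynomial Finset

/-- The Liouville function of `F[X]`. -/
noncomputable def liou {F : Type*} [Field F] (g : F[X]) : ℤ :=
  (-1) ^ Multiset.card (UniqueFactorizationMonoid.factors g)

theorem liou_mul {F : Type*} [Field F] {f g : F[X]} (hf : f ≠ 0) (hg : g ≠ 0) :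
    liou (f * g) = liou f * liou g := by
  unfold liou
  rw [Multiset.card_eq_card_of_rel (UniqueFactorizationMonoid.factors_mul hf hg),
    Multiset.card_add, pow_add]

theorem liou_cases {F : Type*} [Field F] (g : F[X]) : liou g = 1 ∨ liou g = -1 :=
  neg_one_pow_eq_or ℤ _

section Field

variable {F K : Type*} [Field F] [Fintype F] [Field K] [Algebra F K] [IsAlgClosed K]

theorem exists_roots {m : F[X]} (hm : m.Monic) (hs : m.Separable) {n : ℕ} (hn : m.natDegree = n) :
    ∃ a : Fin n → K, Function.Injective a ∧ m.map (algebraMap F K) = ∏ i, (X - C (a i)) := by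
  classical
  set g := m.map (algebraMap F K) with hg
  have hsp : g.Splits := IsAlgClosed.splits g
  have hnd : g.roots.Nodup := nodup_roots hs.map
  have hc : g.roots.toFinset.card = n := by
    rw [Multiset.toFinset_card_of_nodup hnd, ← hsp.natDegree_eq_card_roots, hg, natDegree_map, hn]
  let e := g.roots.toFinset.equivFinOfCardEq hc
  refine ⟨fun i => (e.symm i : K), fun i j h => e.symm.injective (Subtype.ext h), ?_⟩
  have h1 : g = (g.roots.map fun a => X - C a).prod :=
    hsp.eq_prod_roots_of_monic (hm.map _)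
  refine h1.trans ?_
  rw [Equiv.prod_comp e.symm (fun x : g.roots.toFinset => X - C (x : K)),
    Finset.prod_coe_sort g.roots.toFinset (fun x => X - C x), Finset.prod_eq_multiset_prod,
    Multiset.toFinset_val, Multiset.dedup_eq_self.2 hnd]

omit [IsAlgClosed K] in
theorem conj_pow {x y : K} (hx : IsIntegral F x) (hy : IsIntegral F y)
    (h : minpoly F x = minpoly F y) : ∃ i : ℕ, y = x ^ (Fintype.card F ^ i) := by
  let L := IntermediateField.adjoin F ({x, y} : Set K)
  have : FiniteDimensional F L := IntermediateField.finiteDimensional_adjoin (by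
    rintro z (rfl | rfl) <;> assumption)
  have : Finite L := Module.finite_of_finite F
  let x' : L := ⟨x, IntermediateField.subset_adjoin _ _ (by simp)⟩
  let y' : L := ⟨y, IntermediateField.subset_adjoin _ _ (by simp)⟩
  have e1 : minpoly F x' = minpoly F x := IntermediateField.minpoly_eq x'
  have e2 : minpoly F y' = minpoly F y := IntermediateField.minpoly_eq y'
  have hc : IsConjRoot F y' x' := by
    unfold IsConjRoot; rw [e1, e2, h]
  obtain ⟨g, hg⟩ := hc.exists_algEquiv
  obtain ⟨i, rfl⟩ := (FiniteField.bijective_frobeniusAlgEquivOfAlgebraic_pow F L).2 g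
  refine ⟨i, ?_⟩
  simp only [AlgEquiv.coe_pow, FiniteField.coe_frobeniusAlgEquivOfAlgebraic_iterate] at hg
  have := congrArg (fun z : L => (z : K)) hg
  simpa [x', y'] using this.symm

omit [IsAlgClosed K] in
theorem sign_frob {m : F[X]} (hm : m.Monic) (hs : m.Separable) {n : ℕ} (a : Fin n → K)
    (ha : Function.Injective a) (hma : m.map (algebraMap F K) = ∏ i, (X - C (a i)))
    (σ : Equiv.Perm (Fin n)) (hσ : ∀ i, a (σ i) = a i ^ Fintype.card F) :
    ((Equiv.Perm.sign σ : ℤˣ) : ℤ) = (-1) ^ n * liou m := by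
  classical
  have hroot : ∀ i, aeval (a i) m = 0 := by
    intro i
    rw [← eval_map_algebraMap, hma, eval_prod]
    exact Finset.prod_eq_zero (mem_univ i) (by simp)
  have hint : ∀ i, IsIntegral F (a i) := fun i => ⟨m, hm, hroot i⟩
  have hpow : ∀ (k : ℕ) i, a ((σ ^ k) i) = a i ^ (Fintype.card F ^ k) := by
    intro k
    induction k with
    | zero => simp
    | succ k IH => intro i; rw [pow_succ', Equiv.Perm.mul_apply, hσ, IH, ← pow_mul, pow_succ]
  have hmin : ∀ i, minpoly F (a (σ i)) = minpoly F (a i) := by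
    intro i
    rw [hσ]
    exact minpoly.algHom_eq (FiniteField.frobeniusAlgHom F K)
      (FiniteField.frobeniusAlgHom F K).toRingHom.injective (a i)
  have hmin' : ∀ (k : ℕ) i, minpoly F (a ((σ ^ k) i)) = minpoly F (a i) := by
    intro k
    induction k with
    | zero => simp
    | succ k IH => intro i; rw [pow_succ', Equiv.Perm.mul_apply, hmin, IH]
  have hc : ∀ i j, minpoly F (a i) = minpoly F (a j) ↔ σ.SameCycle i j := by
    intro i j
    constructor
    · intro h
      obtain ⟨k, hk⟩ := conj_pow (hint i) (hint j) h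
      refine ⟨k, ?_⟩
      rw [zpow_natCast]
      exact ha (by rw [hpow, hk])
    · intro h
      obtain ⟨k, -, rfl⟩ := h.exists_pow_eq'
      exact (hmin' k i).symm
  rw [sign_eq_of_orbits σ (fun i => minpoly F (a i)) hc, Fintype.card_fin, pow_add]
  congr 1
  unfold liou
  congr 1
  have h0 : m ≠ 0 := hm.ne_zero
  have h1 : Multiset.card (UniqueFactorizationMonoid.factors m) =
      Multiset.card (UniqueFactorizationMonoid.normalizedFactors m) := by
    simp [UniqueFactorizationMonoid.normalizedFactors]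
  have h2 : (UniqueFactorizationMonoid.normalizedFactors m).Nodup :=
    (UniqueFactorizationMonoid.squarefree_iff_nodup_normalizedFactors h0).1 hs.squarefree
  rw [h1, ← Multiset.toFinset_card_of_nodup h2]
  congr 1
  ext g
  rw [Multiset.mem_toFinset, Polynomial.mem_normalizedFactors_iff h0, mem_image]
  constructor
  · rintro ⟨i, -, rfl⟩
    exact ⟨minpoly.irreducible (hint i), minpoly.monic (hint i), minpoly.dvd F _ (hroot i)⟩
  · rintro ⟨hi, hmo, hd⟩
    have hd' : g.map (algebraMap F K) ∣ ∏ i, (X - C (a i)) := hma ▸ Polynomial.map_dvd _ hd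
    have hsp : (g.map (algebraMap F K)).Splits := by
      refine Splits.of_dvd ?_ ?_ hd'
      · exact Splits.prod fun i _ => Splits.X_sub_C _
      · exact (monic_prod_of_monic _ _ fun i _ => monic_X_sub_C _).ne_zero
    obtain ⟨z, hz⟩ := hsp.exists_eval_eq_zero (by
      rw [degree_map]; exact (degree_pos_of_irreducible hi).ne')
    have hz' : (∏ i, (X - C (a i))).eval z = 0 := eval_eq_zero_of_dvd_of_eval_eq_zero hd' hz
    rw [eval_prod, Finset.prod_eq_zero_iff] at hz'
    obtain ⟨i, -, hi'⟩ := hz'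
    have hzi : z = a i := by simpa [sub_eq_zero] using hi'
    refine ⟨i, mem_univ _, (minpoly.eq_of_irreducible_of_monic hi ?_ hmo).symm⟩
    rw [← eval_map_algebraMap, ← hzi, hz]

end Field

section Lifted

variable {p : ℕ} {F K A O : Type*} [Field F] [Fintype F] [Field K] [Algebra F K] [IsAlgClosed K]
  [CommRing A] [CommRing O] [IsDomain O] (L : LiftData p F K A O)

omit [IsAlgClosed K] [IsDomain O] in
theorem LiftData.π_eval (G : A[X]) (x : O) :
    L.π ((G.map L.ι).eval x) = aeval (L.π x) (G.map L.ρ) := by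
  rw [eval_map, hom_eval₂, aeval_def, eval₂_map]
  congr 1
  ext a
  exact L.πι a

omit [IsAlgClosed K] [IsDomain O] in
theorem LiftData.φ_eval (G : A[X]) (x : O) :
    L.φ ((G.map L.ι).eval x) = (G.map L.ι).eval (L.φ x) := by
  rw [eval_map, hom_eval₂, eval_map]
  congr 1
  ext a
  exact L.φι a

omit [IsAlgClosed K] in
theorem LiftData.lift_roots_of {M : A[X]} (hM : M.Monic) (hs : (M.map L.ρ).Separable) {n : ℕ}
    (hn : M.natDegree = n) (a : Fin n → K) (ha : Function.Injective a)
    (hma : (M.map L.ρ).map (algebraMap F K) = ∏ i, (X - C (a i))) :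
    ∃ (α : Fin n → O) (σ : Equiv.Perm (Fin n)), (∀ i, L.π (α i) = a i) ∧
      M.map L.ι = ∏ i, (X - C (α i)) ∧ ∀ i, L.φ (α i) = α (σ i) := by
  classical
  have hroot : ∀ i, aeval (a i) (M.map L.ρ) = 0 := by
    intro i
    rw [← eval_map_algebraMap, hma, eval_prod]
    exact Finset.prod_eq_zero (mem_univ i) (by simp)
  have hex : ∀ i, ∃ y : O, (M.map L.ι).eval y = 0 ∧ L.π y = a i := by
    intro i
    obtain ⟨x, hx⟩ := L.π_surj (a i)
    obtain ⟨y, hy, hy'⟩ := L.hensel (M.map L.ι) (hM.map _) x (by rw [L.π_eval, hx, hroot]) (by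
      rw [derivative_map, L.π_eval, hx, ← derivative_map]
      exact hs.aeval_derivative_ne_zero (hroot i))
    exact ⟨y, hy, hy'.trans hx⟩
  choose α hα hαa using hex
  have hαi : Function.Injective α := fun i j h => ha (by rw [← hαa, ← hαa, h])
  have hprod : M.map L.ι = ∏ i, (X - C (α i)) := by
    have hM' : (M.map L.ι).Monic := hM.map _
    have hle : (univ.val.map α) ≤ (M.map L.ι).roots := by
      rw [Multiset.le_iff_subset (Multiset.Nodup.map hαi univ.nodup)]
      intro x hx
      obtain ⟨i, -, rfl⟩ := Multiset.mem_map.1 hx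
      exact (mem_roots hM'.ne_zero).2 (hα i)
    have hdvd := (Multiset.prod_X_sub_C_dvd_iff_le_roots hM'.ne_zero _).2 hle
    rw [Multiset.map_map] at hdvd
    refine eq_of_monic_of_dvd_of_natDegree_le
      (monic_prod_of_monic _ _ fun i _ => monic_X_sub_C _) hM' hdvd ?_
    rw [hM.natDegree_map, hn, natDegree_prod_of_monic _ _ (fun i _ => monic_X_sub_C _)]
    simp
  have hex2 : ∀ i, ∃ j, L.φ (α i) = α j := by
    intro i
    have h1 : (M.map L.ι).eval (L.φ (α i)) = 0 := by rw [← L.φ_eval, hα, map_zero]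
    rw [hprod, eval_prod, Finset.prod_eq_zero_iff] at h1
    obtain ⟨j, -, hj⟩ := h1
    exact ⟨j, by simpa [sub_eq_zero] using hj⟩
  choose s hs' using hex2
  have hsi : Function.Injective s := by
    intro i j h
    have h1 : a i ^ Fintype.card F = a j ^ Fintype.card F := by
      rw [← hαa, ← hαa, ← L.πφ, ← L.πφ, hs', hs', h]
    exact ha ((FiniteField.frobeniusAlgHom F K).toRingHom.injective h1)
  exact ⟨α, Equiv.ofBijective s (Finite.injective_iff_bijective.1 hsi), hαa, hprod, hs'⟩

theorem LiftData.lift_roots {M : A[X]} (hM : M.Monic) (hs : (M.map L.ρ).Separable) {n : ℕ}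
    (hn : M.natDegree = n) :
    ∃ (α : Fin n → O) (σ : Equiv.Perm (Fin n)), Function.Injective (fun i => L.π (α i)) ∧
      M.map L.ι = ∏ i, (X - C (α i)) ∧
      (M.map L.ρ).map (algebraMap F K) = ∏ i, (X - C (L.π (α i))) ∧
      ∀ i, L.φ (α i) = α (σ i) := by
  obtain ⟨a, ha, hma⟩ := exists_roots (K := K) (hM.map L.ρ) hs (n := n)
    (by rw [hM.natDegree_map, hn])
  obtain ⟨α, σ, hαa, hprod, hσ⟩ := L.lift_roots_of hM hs hn a ha hma
  refine ⟨α, σ, ?_, hprod, ?_, hσ⟩
  · simpa only [hαa] using ha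
  · simpa only [hαa] using hma

/-- The sign in the square of the Vandermonde determinant. -/
def sgn (n : ℕ) : ℤ := ∏ i : Fin n, ∏ _j ∈ Ioi i, (-1)

theorem sgn_sq (n : ℕ) : sgn n * sgn n = 1 := by
  unfold sgn
  rw [← Finset.prod_mul_distrib]
  refine Finset.prod_eq_one fun i _ => ?_
  rw [← Finset.prod_mul_distrib]
  simp

theorem prod_deriv_eq {R : Type*} [CommRing R] {n : ℕ} (α : Fin n → R) :
    ∏ i, (derivative (∏ j, (X - C (α j)))).eval (α i) =
      (sgn n : R) * (Matrix.vandermonde α).det ^ 2 := by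
  have h1 : ∀ i, (derivative (∏ j, (X - C (α j)))).eval (α i) = ∏ j ∈ {i}ᶜ, (α i - α j) := by
    intro i
    have := Lagrange.eval_nodal_derivative_eval_node_eq (s := univ) (v := α) (mem_univ i)
    rw [Lagrange.nodal_eq, Lagrange.eval_nodal] at this
    rw [this]
    congr 1
    ext j
    simp
  simp only [h1]
  rw [← Finset.prod_prod_Ioi_mul_eq_prod_prod_off_diag (fun j i => α i - α j),
    Matrix.det_vandermonde, sgn]
  push_cast
  rw [← Finset.prod_pow, ← Finset.prod_mul_distrib]
  refine Finset.prod_congr rfl fun i _ => ?_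
  rw [← Finset.prod_pow, ← Finset.prod_mul_distrib]
  exact Finset.prod_congr rfl fun j _ => by ring

theorem LiftData.stick {M : A[X]} (hM : M.Monic) (hs : (M.map L.ρ).Separable) {n : ℕ}
    (hn : M.natDegree = n) :
    ∃ (α : Fin n → O) (δ : O), M.map L.ι = ∏ i, (X - C (α i)) ∧ L.π δ ≠ 0 ∧
      L.φ δ = (((-1) ^ n * liou (M.map L.ρ) : ℤ) : O) * δ ∧
      ∏ i, (derivative (M.map L.ι)).eval (α i) = (sgn n : O) * δ ^ 2 := by
  obtain ⟨α, σ, hinj, hprod, hprod', hσ⟩ := L.lift_roots hM hs hn
  refine ⟨α, (Matrix.vandermonde α).det, hprod, ?_, ?_, by rw [hprod, prod_deriv_eq]⟩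
  · rw [Matrix.det_vandermonde, map_prod]
    refine Finset.prod_ne_zero_iff.2 fun i _ => ?_
    rw [map_prod]
    refine Finset.prod_ne_zero_iff.2 fun j hj => ?_
    rw [map_sub, sub_ne_zero]
    exact fun h => (Finset.mem_Ioi.1 hj).ne' (hinj h)
  · rw [← sign_frob (hM.map _) hs (fun i => L.π (α i)) hinj hprod' σ
      (fun i => by rw [← hσ, L.πφ]), ← Matrix.det_permute, RingHom.map_det]
    congr 1
    ext i j
    simp [Matrix.vandermonde_apply, hσ]

end Lifted

end Pool.Agent.MP_4fffd4_nt
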