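import Mathlib
import Pool.Agent.MP_4fffd4_nt.Cmp

/- Lifting lemmas and elementary facts on the family `1 + B (D + S ^ N)`. -/

set_option autoImplicit false

namespace Pool.Agent.MP_4fffd4_nt

open Polynomial Finset

section Ring

variable {R : Type*} [CommRing R]

theorem W_factor (B D Q Y : R[X]) (h : 1 + B * D = B * (Q ^ 2 + Q ^ 3) + Q ^ 4 * Y) :
    B ^ 2 * derivative D - derivative B =
      Q * (B ^ 2 * derivative Q * (2 + 3 * Q) +
        Q ^ 2 * (Q * (B * derivative Y - derivative B * Y) + 4 * (derivative Q * Y * B))) := by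
  have h' := congrArg derivative h
  simp only [derivative_add, derivative_one, derivative_mul, derivative_pow, map_natCast] at h'
  push_cast at h'
  linear_combination B * h' - derivative B * h

theorem monic_W [Nontrivial R] {B D : R[X]} (hB : B.Monic) (hD : D.Monic)
    (hd : (D.natDegree : R) = 1) : (B ^ 2 * derivative D - derivative B).Monic := by
  have h0 : D.natDegree ≠ 0 := by
    intro h; rw [h] at hd; simp at hd
  have hD' : (derivative D).Monic := by
    refine monic_of_natDegree_le_of_coeff_eq_one (D.natDegree - 1)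
      (natDegree_derivative_le D) ?_
    rw [coeff_derivative, Nat.sub_add_cancel (Nat.pos_of_ne_zero h0), hD.coeff_natDegree, one_mul]
    obtain ⟨k, hk⟩ := Nat.exists_eq_succ_of_ne_zero h0
    rw [hk] at hd ⊢
    simpa using hd
  refine Monic.sub_of_left ((hB.pow 2).mul hD') ?_
  refine (degree_derivative_lt hB.ne_zero).trans_le ?_
  rw [sq, mul_assoc, (hB.mul hD').degree_mul]
  exact le_add_of_nonneg_right (zero_le_degree_iff.2 (hB.mul hD').ne_zero)

theorem fam_monic [Nontrivial R] {B D S : R[X]} {N : ℕ} (hB : B.Monic) (hS : S.Monic)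
    (h : D.natDegree < N * S.natDegree) :
    (1 + B * (D + S ^ N)).Monic ∧ (1 + B * (D + S ^ N)).natDegree = B.natDegree + N * S.natDegree := by
  have h1 : (S ^ N).natDegree = N * S.natDegree := hS.natDegree_pow N
  have h2 : (D + S ^ N).Monic :=
    (hS.pow N).add_of_right (degree_lt_degree (by omega))
  have h3 : (D + S ^ N).natDegree = N * S.natDegree := by
    rw [natDegree_add_eq_right_of_natDegree_lt (by omega), h1]
  have h4 : (B * (D + S ^ N)).natDegree = B.natDegree + N * S.natDegree := by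
    rw [hB.natDegree_mul h2, h3]
  refine ⟨(hB.mul h2).add_of_right (degree_lt_degree (by rw [h4, natDegree_one]; omega)), ?_⟩
  rw [natDegree_add_eq_right_of_natDegree_lt (by rw [h4, natDegree_one]; omega), h4]

theorem fam_separable {N : ℕ} (hN : (N : R) = 0) (B D S : R[X])
    (h : IsCoprime (1 + B * (D + S ^ N)) (B ^ 2 * derivative D - derivative B)) :
    (1 + B * (D + S ^ N)).Separable := by
  have e : B ^ 2 * derivative D - derivative B = B * derivative (1 + B * (D + S ^ N)) +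
      (1 + B * (D + S ^ N)) * (-derivative B) := by
    simp only [derivative_add, derivative_one, derivative_mul, derivative_pow, hN, map_zero]
    ring
  rw [e] at h
  exact h.of_add_mul_left_right.of_mul_right_right

theorem dvd_of_map_eq_zero {S : Type*} [CommRing S] (ν : R →+* S) {p : ℕ}
    (hν : ∀ x, ν x = 0 → (p : R) ∣ x) {G : R[X]} (hG : G.map ν = 0) : (p : R[X]) ∣ G := by
  rw [← map_natCast (C : R →+* R[X]), C_dvd_iff_dvd_coeff]
  intro i
  apply hν
  rw [← coeff_map, hG, coeff_zero]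

end Ring

variable {p : ℕ} {F K A O : Type*} [Field F] [Fintype F] [Field K] [Algebra F K]
  [CommRing A] [CommRing O] (L : LiftData p F K A O)

theorem LiftData.lift_monic {g : F[X]} (hg : g.Monic) :
    ∃ G : A[X], G.Monic ∧ G.map L.ρ = g ∧ G.natDegree = g.natDegree := by
  obtain ⟨G, h1, h2, h3⟩ := lifts_and_natDegree_eq_and_monic
    (Polynomial.map_surjective L.ρ L.ρ_surj g) hg
  exact ⟨G, h3, h1, h2⟩

theorem LiftData.exists_lifts {β c P : F[X]} (hβ : β.Monic) (hc : c.Monic) (hP : P.Monic)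
    (hPi : Irreducible P) (hPβ : ¬ P ∣ β) (hcong : P ^ 4 ∣ 1 + β * c - β * (P ^ 2 + P ^ 3))
    (hdeg : 4 * P.natDegree < c.natDegree) :
    ∃ B D Q Y : A[X], B.Monic ∧ D.Monic ∧ Q.Monic ∧ B.map L.ρ = β ∧ D.map L.ρ = c ∧
      Q.map L.ρ = P ∧ 1 + B * D = B * (Q ^ 2 + Q ^ 3) + Q ^ 4 * Y := by
  have : Nontrivial A := L.ρ.domain_nontrivial
  obtain ⟨B, hB, hBβ, hBd⟩ := L.lift_monic hβ
  obtain ⟨D₀, hD₀, hD₀c, hD₀d⟩ := L.lift_monic hc
  obtain ⟨Q, hQ, hQP, hQd⟩ := L.lift_monic hP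
  obtain ⟨r, hr⟩ := hcong
  obtain ⟨Y₀, rfl⟩ := Polynomial.map_surjective L.ρ L.ρ_surj r
  have h1 : (1 + B * D₀ - B * (Q ^ 2 + Q ^ 3) - Q ^ 4 * Y₀).map L.ρ = 0 := by
    simp only [Polynomial.map_sub, Polynomial.map_add, Polynomial.map_mul, Polynomial.map_pow,
      Polynomial.map_one, hBβ, hD₀c, hQP]
    rw [hr, sub_self]
  obtain ⟨E, hE⟩ := dvd_of_map_eq_zero L.ρ (fun x hx => (L.ker_ρ x).1 hx) h1
  have hcop : IsCoprime (Q ^ 4) B := by
    rw [← isUnit_resultant_iff_isCoprime (hQ.pow 4)]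
    apply L.unit_A
    rw [← resultant_map_map, Polynomial.map_pow, hQP, hBβ, hBd, (hQ.natDegree_pow 4), hQd,
      ← hP.natDegree_pow 4]
    exact resultant_ne_zero _ _ ((hPi.coprime_iff_not_dvd.2 hPβ).pow_left)
  obtain ⟨V, U, hUV⟩ := hcop
  have hQ4 : (Q ^ 4).Monic := hQ.pow 4
  set Δ := (U * E) %ₘ Q ^ 4 with hΔ
  have hΔ' : Δ + Q ^ 4 * ((U * E) /ₘ Q ^ 4) = U * E := modByMonic_add_div _ _
  have hΔd : ((p : A[X]) * Δ).degree < D₀.degree := by
    have a1 : Δ.degree < (Q ^ 4).degree := degree_modByMonic_lt _ hQ4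
    have a2 : (Q ^ 4).degree ≤ D₀.degree := by
      rw [degree_eq_natDegree hQ4.ne_zero, degree_eq_natDegree hD₀.ne_zero, hQ.natDegree_pow,
        hQd, hD₀d]
      exact_mod_cast hdeg.le
    rw [← nsmul_eq_mul]
    exact ((degree_smul_le _ _).trans_lt a1).trans_le a2
  refine ⟨B, D₀ - p * Δ, Q, Y₀ + p * (V * E + B * ((U * E) /ₘ Q ^ 4)), hB,
    hD₀.sub_of_left hΔd, hQ, hBβ, ?_, hQP, ?_⟩
  · have hp : ((p : A[X]).map L.ρ) = 0 := by
      rw [Polynomial.map_natCast, ← map_natCast (C : F →+* F[X]), ← map_natCast L.ρ,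
        (L.ker_ρ _).2 dvd_rfl, map_zero]
    rw [Polynomial.map_sub, Polynomial.map_mul, hp, zero_mul, sub_zero, hD₀c]
  · linear_combination hE - (p : A[X]) * B * hΔ' - (p : A[X]) * E * hUV

theorem LiftData.pow_congr {κ : ℕ} {R : Type*} [CommRing R] (μ : O →+* R) (ν : R →+* K)
    (hνμ : ∀ x, ν (μ x) = L.π x) (hν : ∀ x, ν x = 0 → (p : R) ∣ x) (hμ : ((p ^ κ : ℕ) : R) = 0)
    (S₁ S₂ : A[X]) (V : R[X]) (v : F[X]) (hV : V.map ν = v.map (algebraMap F K))
    (hd : v ∣ S₁.map L.ρ - S₂.map L.ρ) :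
    V ∣ (S₁.map (μ.comp L.ι)) ^ p ^ κ - (S₂.map (μ.comp L.ι)) ^ p ^ κ := by
  obtain ⟨y, hy⟩ := hd
  obtain ⟨Y, rfl⟩ := Polynomial.map_surjective L.ρ L.ρ_surj y
  have hm : ∀ G : A[X], (G.map (μ.comp L.ι)).map ν = (G.map L.ρ).map (algebraMap F K) := by
    intro G
    rw [Polynomial.map_map, Polynomial.map_map]
    congr 1
    ext a
    simp [hνμ, L.πι]
  have h1 : (S₁.map (μ.comp L.ι) - (S₂.map (μ.comp L.ι) + V * Y.map (μ.comp L.ι))).map ν = 0 := by
    rw [Polynomial.map_sub, Polynomial.map_add, Polynomial.map_mul, hm, hm, hm, hV,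
      ← Polynomial.map_mul, ← hy, ← Polynomial.map_add, ← Polynomial.map_sub]
    simp
  have h2 := dvd_sub_pow_of_dvd_sub (dvd_of_map_eq_zero ν hν h1) κ
  have h3 : ((p : R[X]) ^ (κ + 1)) = 0 := by
    rw [pow_succ, ← Nat.cast_pow, ← map_natCast (C : R →+* R[X]), hμ, map_zero, zero_mul]
  rw [h3, zero_dvd_iff, sub_eq_zero] at h2
  rw [h2]
  refine Dvd.dvd.trans ?_ (sub_dvd_pow_sub_pow _ _ _)
  rw [add_sub_cancel_left]
  exact dvd_mul_right _ _

end Pool.Agent.MP_4fffd4_nt
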