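import Mathlib
import Pool.Agent.MP_4fffd4_nt.Stick

/- Residues modulo an irreducible polynomial with prescribed norm or trace. -/

set_option autoImplicit false

namespace Pool.Agent.MP_4fffd4_nt

open Polynomial Finset

variable {F K : Type*} [Field F] [Fintype F] [Field K] [Algebra F K]

theorem mem_range_of_pow_card {z : K} (hz : z ^ Fintype.card F = z) :
    ∃ a : F, algebraMap F K a = z := by
  classical
  have h1 : 1 < Fintype.card F := Fintype.one_lt_card
  have hm : (X ^ Fintype.card F - X : F[X]).Monic := by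
    apply Monic.sub_of_left (monic_X_pow _)
    rw [degree_X_pow, degree_X]
    exact_mod_cast h1
  have h2 := prod_multiset_X_sub_C_of_monic_of_roots_card_eq hm (by
    rw [FiniteField.roots_X_pow_card_sub_X, FiniteField.X_pow_card_sub_X_natDegree_eq F h1]
    simp)
  rw [FiniteField.roots_X_pow_card_sub_X] at h2
  have h3 : aeval z (∏ a : F, (X - C a)) = 0 := by
    rw [Finset.prod_eq_multiset_prod, h2]
    simp [hz]
  rw [map_prod, Finset.prod_eq_zero_iff] at h3
  obtain ⟨a, -, ha⟩ := h3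
  exact ⟨a, Eq.symm (by simpa [sub_eq_zero] using ha)⟩

variable [IsAlgClosed K]

theorem exists_embeddings {P : F[X]} [Fact (Irreducible P)] {d : ℕ} (t : Fin d → K)
    (ht : Function.Injective t) (hP : P.map (algebraMap F K) = ∏ j, (X - C (t j))) :
    ∃ e : Fin d → (AdjoinRoot P →ₐ[F] K), Function.Bijective e ∧
      ∀ j y, e j (AdjoinRoot.mk P y) = aeval (t j) y := by
  have hroot : ∀ j, P.eval₂ (Algebra.ofId F K) (t j) = 0 := by
    intro j
    have : (P.map (algebraMap F K)).eval (t j) = 0 := by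
      rw [hP, eval_prod]
      exact Finset.prod_eq_zero (mem_univ j) (by simp)
    rwa [eval_map] at this
  refine ⟨fun j => AdjoinRoot.liftAlgHom P (Algebra.ofId F K) (t j) (hroot j), ⟨?_, ?_⟩, ?_⟩
  · intro i j h
    apply ht
    have := congrArg (fun σ : AdjoinRoot P →ₐ[F] K => σ (AdjoinRoot.root P)) h
    simpa using this
  · intro σ
    have h1 : (P.map (algebraMap F K)).eval (σ (AdjoinRoot.root P)) = 0 := by
      rw [eval_map_algebraMap, aeval_algHom_apply, AdjoinRoot.aeval_eq, AdjoinRoot.mk_self,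
        map_zero]
    rw [hP, eval_prod, Finset.prod_eq_zero_iff] at h1
    obtain ⟨j, -, hj⟩ := h1
    refine ⟨j, AdjoinRoot.algHom_ext ?_⟩
    rw [AdjoinRoot.liftAlgHom_root]
    exact (by simpa [sub_eq_zero] using hj : σ (AdjoinRoot.root P) = t j).symm
  · intro j y
    rw [AdjoinRoot.liftAlgHom_mk]
    rfl

theorem odd_residue (h2 : ringChar F ≠ 2) {P : F[X]} (hP : Irreducible P) {d : ℕ} (t : Fin d → K)
    (ht : Function.Injective t) (hPt : P.map (algebraMap F K) = ∏ j, (X - C (t j))) :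
    ∃ (y : F[X]) (η : K), ¬ P ∣ y ∧ η ^ Fintype.card F = -η ∧ η ^ 2 = ∏ j, aeval (t j) y := by
  have : Fact (Irreducible P) := ⟨hP⟩
  have : FiniteDimensional F (AdjoinRoot P) := (AdjoinRoot.powerBasis hP.ne_zero).finite
  have : Finite (AdjoinRoot P) := Module.finite_of_finite F
  obtain ⟨e, he, hey⟩ := exists_embeddings t ht hPt
  obtain ⟨ν, hν⟩ := FiniteField.exists_nonsquare h2
  obtain ⟨u, hu⟩ := FiniteField.norm_surjective F (AdjoinRoot P) ν
  obtain ⟨y, rfl⟩ := AdjoinRoot.mk_surjective u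
  obtain ⟨η, hη⟩ := IsAlgClosed.exists_pow_nat_eq (algebraMap F K ν) two_pos
  refine ⟨y, η, ?_, ?_, ?_⟩
  · intro h
    rw [AdjoinRoot.mk_eq_zero.2 h, Algebra.norm_zero] at hu
    exact hν (hu ▸ IsSquare.zero)
  · have h1 : (η ^ Fintype.card F) ^ 2 = η ^ 2 := by
      rw [← pow_mul, mul_comm, pow_mul, hη, ← map_pow, FiniteField.pow_card]
    rcases sq_eq_sq_iff_eq_or_eq_neg.1 h1 with h | h
    · obtain ⟨a, rfl⟩ := mem_range_of_pow_card h
      rw [← map_pow] at hη
      exact absurd ⟨a, by rw [← (algebraMap F K).injective hη, sq]⟩ hν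
    · exact h
  · rw [hη, ← hu, Algebra.norm_eq_prod_embeddings]
    exact (Fintype.prod_bijective e he _ _ fun j => (hey j y).symm).symm

theorem even_residue [CharP F 2] {P : F[X]} (hP : Irreducible P) (hX : ¬ P ∣ X)
    (hX1 : ¬ P ∣ X - 1) {d : ℕ} (t : Fin d → K)
    (ht : Function.Injective t) (hPt : P.map (algebraMap F K) = ∏ j, (X - C (t j))) :
    ∃ (y₁ y₂ : F[X]) (z : K), ¬ P ∣ y₁ ∧ ¬ P ∣ y₂ ∧ z ^ Fintype.card F = z + 1 ∧
      z ^ 2 + z = ∑ j, ((aeval (t j) y₁)⁻¹ + (aeval (t j) y₂)⁻¹) := by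
  have : Fact (Irreducible P) := ⟨hP⟩
  have : FiniteDimensional F (AdjoinRoot P) := (AdjoinRoot.powerBasis hP.ne_zero).finite
  have : Finite (AdjoinRoot P) := Module.finite_of_finite F
  have : CharP K 2 := charP_of_injective_algebraMap (algebraMap F K).injective 2
  have h2K : (2 : K) = 0 := by exact_mod_cast CharP.cast_eq_zero K 2
  have h2F : (2 : F) = 0 := by exact_mod_cast CharP.cast_eq_zero F 2
  obtain ⟨e, he, hey⟩ := exists_embeddings t ht hPt
  obtain ⟨ν, hν⟩ : ∃ ν : F, ∀ a : F, a ^ 2 + a ≠ ν := by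
    by_contra h
    push Not at h
    have hs : Function.Surjective fun a : F => a ^ 2 + a := h
    have := Finite.injective_iff_surjective.2 hs (a₁ := 0) (a₂ := 1) (by
      linear_combination -h2F)
    exact zero_ne_one this
  obtain ⟨z, hz⟩ : ∃ z : K, z ^ 2 + z = algebraMap F K ν := by
    obtain ⟨z, hz⟩ := IsAlgClosed.exists_root (X ^ 2 + X - C (algebraMap F K ν)) (by
      have : (X ^ 2 + X - C (algebraMap F K ν)).degree = 2 := by compute_degree!
      rw [this]; decide)
    exact ⟨z, by simpa [sub_eq_zero] using hz⟩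
  obtain ⟨u, hu⟩ := Algebra.trace_surjective F (AdjoinRoot P) ν
  obtain ⟨w, hw0, hwu⟩ : ∃ w : AdjoinRoot P, w ≠ 0 ∧ w ≠ u := by
    by_cases h : u = 1
    · refine ⟨AdjoinRoot.mk P X, fun h' => hX (AdjoinRoot.mk_eq_zero.1 h'), fun h' => hX1 ?_⟩
      rw [← AdjoinRoot.mk_eq_zero, map_sub, h', h, map_one, sub_self]
    · exact ⟨1, one_ne_zero, fun h' => h h'.symm⟩
  obtain ⟨y₁, hy₁⟩ := AdjoinRoot.mk_surjective (u - w)⁻¹
  obtain ⟨y₂, hy₂⟩ := AdjoinRoot.mk_surjective w⁻¹
  refine ⟨y₁, y₂, z, ?_, ?_, ?_, ?_⟩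
  · intro h
    rw [AdjoinRoot.mk_eq_zero.2 h, eq_comm, inv_eq_zero, sub_eq_zero] at hy₁
    exact hwu hy₁.symm
  · intro h
    rw [AdjoinRoot.mk_eq_zero.2 h, eq_comm, inv_eq_zero] at hy₂
    exact hw0 hy₂
  · have h1 : (z ^ Fintype.card F) ^ 2 + z ^ Fintype.card F = z ^ 2 + z := by
      have := congrArg (FiniteField.frobeniusAlgHom F K) hz
      rw [map_add, map_pow, AlgHom.commutes, ← hz] at this
      exact this
    have h3 : (z ^ Fintype.card F - z) * (z ^ Fintype.card F - (z + 1)) = 0 := by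
      linear_combination h1 + (z ^ 2 + z - z * z ^ Fintype.card F - z ^ Fintype.card F) * h2K
    rcases mul_eq_zero.1 h3 with h | h
    · obtain ⟨a, rfl⟩ := mem_range_of_pow_card (sub_eq_zero.1 h)
      rw [← map_pow, ← map_add] at hz
      exact absurd ((algebraMap F K).injective hz) (hν a)
    · exact sub_eq_zero.1 h
  · rw [hz, ← hu, trace_eq_sum_embeddings K]
    refine (Fintype.sum_bijective e he _ _ fun j => ?_).symm
    rw [← hey, ← hey, hy₁, hy₂, map_inv₀, map_inv₀, inv_inv, inv_inv, map_sub, sub_add_cancel]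

end Pool.Agent.MP_4fffd4_nt
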