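import Mathlib
import Pool.Agent.MP_4fffd4_nt.Prep
import Pool.Agent.MP_4fffd4_nt.Residue

/- Periodicity and sign change of the Liouville function along `1 + β (c + s ^ N)`. -/

set_option autoImplicit false

namespace Pool.Agent.MP_4fffd4_nt

open Polynomial Finset

variable {p : ℕ} [Fact p.Prime] {F K A O : Type*} [Field F] [Fintype F] [CharP F p] [Field K]
  [Algebra F K] [CharP K p] [IsAlgClosed K] [CommRing A] [CommRing O] [IsDomain O]
  (L : LiftData p F K A O)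

omit [Fact p.Prime] [CharP F p] [CharP K p] [IsAlgClosed K] [IsDomain O] in
theorem LiftData.quot_data {κ : ℕ} (hκ : 1 ≤ κ) :
    ∃ ν : O ⧸ Ideal.span {(p : O) ^ κ} →+* K,
      (∀ x, ν (Ideal.Quotient.mk _ x) = L.π x) ∧
      (∀ x, ν x = 0 → (p : O ⧸ Ideal.span {(p : O) ^ κ}) ∣ x) ∧
      ((p ^ κ : ℕ) : O ⧸ Ideal.span {(p : O) ^ κ}) = 0 := by
  refine ⟨Ideal.Quotient.lift _ L.π fun a ha => ?_, fun x => rfl, fun x hx => ?_, ?_⟩
  · exact (L.ker_π a).2 ((dvd_pow_self _ (by omega)).trans (Ideal.mem_span_singleton.1 ha))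
  · obtain ⟨x, rfl⟩ := Ideal.Quotient.mk_surjective x
    simpa using map_dvd (Ideal.Quotient.mk (Ideal.span {(p : O) ^ κ})) ((L.ker_π x).1 hx)
  · rw [← map_natCast (Ideal.Quotient.mk (Ideal.span {(p : O) ^ κ})), Ideal.Quotient.eq_zero_iff_mem,
      Nat.cast_pow]
    exact Ideal.mem_span_singleton_self _

omit [Fact p.Prime] [CharP K p] in
theorem LiftData.cmp' {κ : ℕ} (hκ : 1 ≤ κ) {B D : A[X]} (hB : B.Monic) (hD : D.Monic)
    {β c s₁ s₂ v : F[X]} (hBβ : B.map L.ρ = β) (hDc : D.map L.ρ = c)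
    (hmod : c.natDegree % p ^ κ = 1) (hs₁ : s₁.Monic) (hs₂ : s₂.Monic)
    (hdeg : s₁.natDegree = s₂.natDegree) (hlt : c.natDegree < p ^ κ * s₁.natDegree)
    (hc₁ : IsCoprime (1 + β * (c + s₁ ^ p ^ κ)) (β ^ 2 * derivative c - derivative β))
    (hc₂ : IsCoprime (1 + β * (c + s₂ ^ p ^ κ)) (β ^ 2 * derivative c - derivative β))
    {R : Type*} [CommRing R] (μ : O →+* R) (ν : R →+* K)
    (hνμ : ∀ x, ν (μ x) = L.π x) (hν : ∀ x, ν x = 0 → (p : R) ∣ x) (hμ : ((p ^ κ : ℕ) : R) = 0)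
    (U V : R[X]) (hU : U.Monic)
    (hW : (B ^ 2 * derivative D - derivative B).map (μ.comp L.ι) = U * V)
    (hV : V.map ν = v.map (algebraMap F K)) (hd : v ∣ s₁ - s₂) :
    ∃ (n : ℕ) (S₁ S₂ : A[X]) (α₁ α₂ : Fin n → O) (δ₁ δ₂ : O),
      S₁.map L.ρ = s₁ ∧ S₂.map L.ρ = s₂ ∧
      (1 + B * (D + S₁ ^ p ^ κ)).map L.ι = ∏ i, (X - C (α₁ i)) ∧
      (1 + B * (D + S₂ ^ p ^ κ)).map L.ι = ∏ i, (X - C (α₂ i)) ∧
      L.π δ₁ ≠ 0 ∧ L.π δ₂ ≠ 0 ∧
      L.φ δ₁ = (((-1) ^ n * liou (1 + β * (c + s₁ ^ p ^ κ)) : ℤ) : O) * δ₁ ∧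
      L.φ δ₂ = (((-1) ^ n * liou (1 + β * (c + s₂ ^ p ^ κ)) : ℤ) : O) * δ₂ ∧
      μ δ₁ ^ 2 * ∏ j, U.eval (μ (α₂ j)) = μ δ₂ ^ 2 * ∏ j, U.eval (μ (α₁ j)) := by
  have : Nontrivial A := L.ρ.domain_nontrivial
  have : Nontrivial R := ν.domain_nontrivial
  obtain ⟨S₁, hS₁, e₁, d₁⟩ := L.lift_monic hs₁
  obtain ⟨S₂, hS₂, e₂, d₂⟩ := L.lift_monic hs₂
  have hDd : D.natDegree = c.natDegree := by rw [← hDc, hD.natDegree_map]
  obtain ⟨m₁, n₁⟩ := fam_monic (N := p ^ κ) (D := D) hB hS₁ (by rw [hDd, d₁]; exact hlt)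
  obtain ⟨m₂, n₂⟩ := fam_monic (N := p ^ κ) (D := D) hB hS₂ (by rw [hDd, d₂, ← hdeg]; exact hlt)
  have hNF : ((p ^ κ : ℕ) : F) = 0 := by
    rw [Nat.cast_pow, CharP.cast_eq_zero, zero_pow (by omega)]
  have r₁ : (1 + B * (D + S₁ ^ p ^ κ)).map L.ρ = 1 + β * (c + s₁ ^ p ^ κ) := by
    simp only [Polynomial.map_add, Polynomial.map_one, Polynomial.map_mul, Polynomial.map_pow,
      hBβ, hDc, e₁]
  have r₂ : (1 + B * (D + S₂ ^ p ^ κ)).map L.ρ = 1 + β * (c + s₂ ^ p ^ κ) := by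
    simp only [Polynomial.map_add, Polynomial.map_one, Polynomial.map_mul, Polynomial.map_pow,
      hBβ, hDc, e₂]
  have hVm : V.Monic := by
    refine hU.of_mul_monic_left ?_
    rw [← hW]
    have := monic_W (hB.map (μ.comp L.ι)) (hD.map (μ.comp L.ι)) (by
      rw [hD.natDegree_map, hDd, ← Nat.div_add_mod c.natDegree (p ^ κ), hmod, Nat.cast_add,
        Nat.cast_mul, hμ]
      simp)
    simpa only [Polynomial.map_sub, Polynomial.map_mul, Polynomial.map_pow, derivative_map]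
      using this
  obtain ⟨α₁, α₂, δ₁, δ₂, h⟩ := L.cmp B D S₁ S₂ hB m₁ m₂ n₁ (by rw [n₂, d₁, d₂, hdeg])
    (by rw [r₁]; exact fam_separable hNF _ _ _ hc₁) (by rw [r₂]; exact fam_separable hNF _ _ _ hc₂)
    μ hμ U V hVm hW (L.pow_congr μ ν hνμ hν hμ S₁ S₂ V v hV (by rw [e₁, e₂]; exact hd))
  rw [r₁, r₂] at h
  exact ⟨_, S₁, S₂, α₁, α₂, δ₁, δ₂, e₁, e₂, h⟩

theorem eps_cases {F : Type*} [Field F] (n : ℕ) (g : F[X]) :
    (-1 : ℤ) ^ n * liou g = 1 ∨ (-1 : ℤ) ^ n * liou g = -1 := by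
  rcases neg_one_pow_eq_or ℤ n with h | h <;> rcases liou_cases g with h' | h' <;> simp [h, h']

omit [Fact p.Prime] [CharP F p] [CharP K p] [IsAlgClosed K] [IsDomain O] in
theorem LiftData.map_map {R : Type*} [CommRing R] (μ : O →+* R) (ν : R →+* K)
    (hνμ : ∀ x, ν (μ x) = L.π x) (G : A[X]) :
    (G.map (μ.comp L.ι)).map ν = (G.map L.ρ).map (algebraMap F K) := by
  rw [Polynomial.map_map, Polynomial.map_map]
  congr 1
  ext a
  simp [hνμ, L.πι]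

include L in
theorem LiftData.periodic {κ : ℕ} (hκ : 1 ≤ κ) (h2 : p = 2 → κ = 3) {β c s₁ s₂ : F[X]}
    (hβ : β.Monic) (hc : c.Monic)
    (hmod : c.natDegree % p ^ κ = 1) (hs₁ : s₁.Monic) (hs₂ : s₂.Monic)
    (hdeg : s₁.natDegree = s₂.natDegree) (hlt : c.natDegree < p ^ κ * s₁.natDegree)
    (hc₁ : IsCoprime (1 + β * (c + s₁ ^ p ^ κ)) (β ^ 2 * derivative c - derivative β))
    (hc₂ : IsCoprime (1 + β * (c + s₂ ^ p ^ κ)) (β ^ 2 * derivative c - derivative β))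
    (hd : β ^ 2 * derivative c - derivative β ∣ s₁ - s₂) :
    liou (1 + β * (c + s₁ ^ p ^ κ)) = liou (1 + β * (c + s₂ ^ p ^ κ)) := by
  obtain ⟨B, hB, hBβ, -⟩ := L.lift_monic hβ
  obtain ⟨D, hD, hDc, -⟩ := L.lift_monic hc
  obtain ⟨ν, hνμ, hν, hμ⟩ := L.quot_data hκ
  obtain ⟨n, S₁, S₂, α₁, α₂, δ₁, δ₂, -, -, -, -, u₁, -, f₁, f₂, h⟩ :=
    L.cmp' hκ hB hD hBβ hDc hmod hs₁ hs₂ hdeg hlt hc₁ hc₂ _ ν hνμ hν hμ 1 _ monic_one
      (one_mul _).symm (by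
        rw [L.map_map _ ν hνμ]
        simp only [Polynomial.map_sub, Polynomial.map_mul, Polynomial.map_pow, ← derivative_map,
          hBβ, hDc]) hd
  simp only [eval_one, Finset.prod_const_one, mul_one] at h
  rw [← map_pow, ← map_pow, Ideal.Quotient.eq, Ideal.mem_span_singleton] at h
  have := L.sign_detect hκ h2 δ₁ δ₂ u₁ h (eps_cases n _) (eps_cases n _)
    (by rw [f₁, sub_self]; exact dvd_zero _) (by rw [f₂, sub_self]; exact dvd_zero _)
  exact mul_left_cancel₀ (pow_ne_zero n (by norm_num)) this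

omit [Fact p.Prime] [CharP K p] [IsAlgClosed K] [Fintype F] [CharP F p] in
theorem aeval_eq_of_dvd {P f g : F[X]} {t : K} (ht : aeval t P = 0) (h : P ∣ f - g) :
    aeval t f = aeval t g := by
  obtain ⟨r, hr⟩ := h
  rw [← sub_eq_zero, ← map_sub, hr, map_mul, ht, zero_mul]

omit [Fact p.Prime] [CharP K p] [IsAlgClosed K] [Fintype F] [CharP F p] in
theorem aeval_ne_zero_of_not_dvd {P f : F[X]} (hP : Irreducible P) {t : K} (ht : aeval t P = 0)
    (h : ¬ P ∣ f) : aeval t f ≠ 0 := by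
  obtain ⟨a, b, hab⟩ := hP.coprime_iff_not_dvd.2 h
  intro h0
  have := congrArg (aeval t) hab
  simp [ht, h0] at this

include L in
theorem LiftData.flip_odd {κ : ℕ} (hκ : 1 ≤ κ) (h2 : p ≠ 2) {β c P : F[X]}
    (hβ : β.Monic) (hc : c.Monic) (hP : P.Monic) (hPi : Irreducible P) (hPβ : ¬ P ∣ β)
    (hcong : P ^ 4 ∣ 1 + β * c - β * (P ^ 2 + P ^ 3)) (hdegP : 4 * P.natDegree < c.natDegree)
    (hmod : c.natDegree % p ^ κ = 1) :
    ∃ v y₁ y₂ : F[X], β ^ 2 * derivative c - derivative β = P * v ∧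
      ¬ P ∣ v ∧ ¬ P ∣ y₁ ∧ ¬ P ∣ y₂ ∧ ∀ s₁ s₂ : F[X], s₁.Monic → s₂.Monic →
      s₁.natDegree = s₂.natDegree → c.natDegree < p ^ κ * s₁.natDegree →
      IsCoprime (1 + β * (c + s₁ ^ p ^ κ)) (β ^ 2 * derivative c - derivative β) →
      IsCoprime (1 + β * (c + s₂ ^ p ^ κ)) (β ^ 2 * derivative c - derivative β) →
      v ∣ s₁ - s₂ → P ∣ s₁ - y₁ → P ∣ s₂ - y₂ →
      liou (1 + β * (c + s₁ ^ p ^ κ)) = -liou (1 + β * (c + s₂ ^ p ^ κ)) := by
  obtain ⟨B, D, Q, Y, hB, hD, hQ, hBβ, hDc, hQP, hY⟩ :=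
    L.exists_lifts hβ hc hP hPi hPβ hcong hdegP
  have hsep : P.Separable := PerfectField.separable_of_irreducible hPi
  obtain ⟨t, ht, hPt⟩ := exists_roots (K := K) hP hsep rfl
  obtain ⟨y, η, hy, hη₁, hη₂⟩ := odd_residue (by rw [ringChar.eq F p]; exact h2) hPi t ht hPt
  set V₁ := B ^ 2 * derivative Q * (2 + 3 * Q) +
        Q ^ 2 * (Q * (B * derivative Y - derivative B * Y) + 4 * (derivative Q * Y * B)) with hV₁
  have hW : B ^ 2 * derivative D - derivative B = Q * V₁ := W_factor B D Q Y hY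
  have hroot : ∀ j, aeval (t j) P = 0 := by
    intro j
    rw [← eval_map_algebraMap, hPt, eval_prod]
    exact Finset.prod_eq_zero (mem_univ j) (by simp)
  refine ⟨V₁.map L.ρ, 1, y, ?_, ?_, hPi.not_dvd_one, hy, ?_⟩
  · have := congrArg (Polynomial.map L.ρ) hW
    simpa only [Polynomial.map_sub, Polynomial.map_mul, Polynomial.map_pow, ← derivative_map,
          hBβ, hDc, hQP] using this
  · intro h
    have e : V₁.map L.ρ = 2 * (β ^ 2 * derivative P) + P * (3 * β ^ 2 * derivative P +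
        P * (Q * (B * derivative Y - derivative B * Y) + 4 * (derivative Q * Y * B)).map L.ρ) := by
      rw [hV₁]
      generalize Q * (B * derivative Y - derivative B * Y) + 4 * (derivative Q * Y * B) = G
      simp only [Polynomial.map_add, Polynomial.map_mul, Polynomial.map_pow, ← derivative_map,
          hBβ, hQP, Polynomial.map_ofNat]
      ring
    rw [e, dvd_add_left (dvd_mul_right _ _)] at h
    have h2F : (2 : F) ≠ 0 := Ring.two_ne_zero (by rw [ringChar.eq F p]; exact h2)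
    have hu : IsUnit (2 : F[X]) := by
      simpa [map_ofNat] using isUnit_C.2 (IsUnit.mk0 _ h2F)
    rw [hu.dvd_mul_left] at h
    rcases hPi.prime.dvd_or_dvd h with h | h
    · exact hPβ (hPi.prime.dvd_of_dvd_pow h)
    · exact hPi.not_isUnit (IsCoprime.isUnit_of_dvd hsep h)
  intro s₁ s₂ hs₁ hs₂ hdeg hlt hc₁ hc₂ hv hy₁ hy₂
  obtain ⟨ν, hνμ, hν, hμ⟩ := L.quot_data hκ
  obtain ⟨n, S₁, S₂, α₁, α₂, δ₁, δ₂, e₁, e₂, g₁, g₂, u₁, u₂, f₁, f₂, h⟩ :=
    L.cmp' hκ hB hD hBβ hDc hmod hs₁ hs₂ hdeg hlt hc₁ hc₂ _ ν hνμ hν hμ _ _ (hQ.map _)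
      (by rw [hW, Polynomial.map_mul]) (L.map_map _ ν hνμ V₁) hv
  have tr : ∀ (S : A[X]) (α : Fin n → O),
      (1 + B * (D + S ^ p ^ κ)).map L.ι = ∏ i, (X - C (α i)) →
      ν (∏ j, (Q.map ((Ideal.Quotient.mk _).comp L.ι)).eval (Ideal.Quotient.mk _ (α j))) =
        (-1) ^ (n * P.natDegree) * ((∏ j, aeval (t j) β) *
          (∏ j, aeval (t j) (S.map L.ρ)) ^ p ^ κ) := by
    intro S α g
    have g' : ((1 + B * (D + S ^ p ^ κ)).map L.ρ).map (algebraMap F K) =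
        ∏ i, (X - C (L.π (α i))) := by
      rw [← L.map_map (RingHom.id O) L.π (fun _ => rfl), RingHom.id_comp, g, Polynomial.map_prod]
      simp
    have := prod_eval_swap (fun i => L.π (α i)) t
    rw [← hPt, ← g', Fintype.card_fin, Fintype.card_fin] at this
    rw [map_prod]
    have e : ∀ j, ν ((Q.map ((Ideal.Quotient.mk _).comp L.ι)).eval (Ideal.Quotient.mk _ (α j))) =
        (P.map (algebraMap F K)).eval (L.π (α j)) := by
      intro j
      rw [← hQP, ← L.map_map _ ν hνμ, ← hνμ, eval_map ν, eval₂_hom]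
    simp only [e]
    rw [this, ← Finset.prod_pow, ← Finset.prod_mul_distrib]
    congr 1
    refine Finset.prod_congr rfl fun j _ => ?_
    rw [eval_map_algebraMap]
    simp only [Polynomial.map_add, Polynomial.map_one, Polynomial.map_mul, Polynomial.map_pow,
      hBβ, hDc]
    rw [← map_pow, ← map_mul]
    refine aeval_eq_of_dvd (hroot j) ?_
    have : 1 + β * (c + (S.map L.ρ) ^ p ^ κ) - β * (S.map L.ρ) ^ p ^ κ =
        (1 + β * c - β * (P ^ 2 + P ^ 3)) + P * (β * (P + P ^ 2)) := by ring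
    rw [this]
    exact dvd_add ((dvd_pow_self P (by norm_num)).trans hcong) (dvd_mul_right _ _)
  have h' := congrArg ν h
  rw [map_mul, map_mul, tr S₁ α₁ g₁, tr S₂ α₂ g₂, map_pow, map_pow, hνμ, hνμ, e₁, e₂] at h'
  have a₁ : ∏ j, aeval (t j) s₁ = 1 :=
    Finset.prod_eq_one fun j _ => by rw [aeval_eq_of_dvd (hroot j) hy₁, map_one]
  have a₂ : ∏ j, aeval (t j) s₂ = η ^ 2 := by
    rw [hη₂]; exact Finset.prod_congr rfl fun j _ => aeval_eq_of_dvd (hroot j) hy₂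
  have a₃ : (∏ j, aeval (t j) β) ≠ 0 :=
    Finset.prod_ne_zero_iff.2 fun j _ => aeval_ne_zero_of_not_dvd hPi (hroot j) hPβ
  have a₄ : ((-1 : K) ^ (n * P.natDegree)) ≠ 0 := pow_ne_zero _ (by norm_num)
  rw [a₁, a₂] at h'
  have h'' : L.π δ₂ ^ 2 = (L.π δ₁ * η ^ p ^ κ) ^ 2 := by
    apply mul_left_cancel₀ (mul_ne_zero a₄ a₃)
    rw [← pow_mul, mul_comm 2, pow_mul, one_pow] at h'
    linear_combination -h'
  obtain ⟨η', rfl⟩ := L.π_surj η
  have hodd : Odd (p ^ κ) := ((Fact.out : p.Prime).odd_of_ne_two h2).pow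
  have := L.sign_detect (κ := 1) le_rfl (fun h => absurd h h2) δ₂ (δ₁ * η' ^ p ^ κ) u₂
    (by rw [pow_one, ← L.ker_π]; simp [h''])
    (eps_cases n (1 + β * (c + s₂ ^ p ^ κ)))
    (ε₂ := -((-1) ^ n * liou (1 + β * (c + s₁ ^ p ^ κ))))
    (by rcases eps_cases n (1 + β * (c + s₁ ^ p ^ κ)) with h | h <;> simp [h])
    (by rw [f₂, sub_self]; exact dvd_zero _)
    (by
      rw [(L.two_unit h2).mul_left_dvd, ← L.ker_π, map_mul L.φ, map_pow L.φ, f₁]
      simp only [map_sub, map_mul, map_pow, L.πφ, hη₁, hodd.neg_pow, map_intCast, Int.cast_neg,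
        map_neg]
      ring)
  apply mul_left_cancel₀ (pow_ne_zero n (by norm_num : (-1 : ℤ) ≠ 0))
  linear_combination this

end Pool.Agent.MP_4fffd4_nt
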