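import Mathlib
import Pool.Agent.MP_4fffd4_nt.FlipTwo
import Pool.Agent.MP_4fffd4_nt.Hensel

/- The Liouville function of `s ^ 2 + X * w ^ 2` in characteristic two as an additive
character sum over the simple roots of `w`. -/

set_option autoImplicit false

namespace Pool.Agent.MP_4fffd4_nt

open Polynomial Finset

/-- A character of `K` extending `(-1) ^ trace` on `F`. -/
structure IsChar (F : Type*) [Fintype F] {K : Type*} [Field K] (e : K → ℝ) : Prop where
  add : ∀ a b, e (a + b) = e a * e b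
  sign : ∀ a, e a = 1 ∨ e a = -1
  pos : ∀ z, z ^ Fintype.card F = z → e (z ^ 2 + z) = 1
  neg : ∀ z, z ^ Fintype.card F = z + 1 → e (z ^ 2 + z) = -1

theorem exists_isChar (F K : Type*) [Field F] [Fintype F] [CharP F 2] [Field K] [CharP K 2] :
    ∃ e : K → ℝ, IsChar F e := by
  letI := ZMod.algebra K 2
  obtain ⟨n, -, hn⟩ := FiniteField.card F 2
  obtain ⟨l, hl⟩ := Module.Projective.exists_dual_eq_one (ZMod 2) (one_ne_zero (α := K))
  have h2K : (2 : K) = 0 := by exact_mod_cast CharP.cast_eq_zero K 2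
  let T : K → K := fun c => ∑ i ∈ range n, c ^ 2 ^ i
  have hT : ∀ z, T (z ^ 2 + z) = z ^ Fintype.card F + z := by
    intro z
    rw [hn]
    simp only [T]
    generalize (n : ℕ) = m
    induction m with
    | zero => simp only [range_zero, sum_empty, pow_zero, pow_one]; linear_combination -z * h2K
    | succ m IH =>
      rw [Finset.sum_range_succ, IH, add_pow_char_pow, ← pow_mul, pow_succ' 2 m]
      linear_combination z ^ 2 ^ m * h2K
  have h01 : ∀ x : ZMod 2, x = 0 ∨ x = 1 := by decide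
  refine ⟨fun c => if l (T c) = 0 then 1 else -1, fun a b => ?_, fun a => ?_, fun z hz => ?_,
    fun z hz => ?_⟩
  · have : T (a + b) = T a + T b := by
      simp only [T, add_pow_char_pow, Finset.sum_add_distrib]
    rw [this, map_add]
    rcases h01 (l (T a)) with h | h <;> rcases h01 (l (T b)) with h' | h' <;> rw [h, h'] <;>
      simp [show (1 : ZMod 2) + 1 = 0 by decide]
  · split_ifs <;> simp
  · rw [hT, hz, ← two_mul, h2K, zero_mul, map_zero, if_pos rfl]
  · rw [hT, hz, add_right_comm, ← two_mul, h2K, zero_mul, zero_add, hl, if_neg one_ne_zero]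

namespace IsChar

variable {F K : Type*} [Fintype F] [Field K] {e : K → ℝ} (he : IsChar F e)
include he

theorem mul_self (a : K) : e a * e a = 1 := by rcases he.sign a with h | h <;> simp [h]

theorem zero : e 0 = 1 := by
  have := he.add 0 0
  rw [add_zero, he.mul_self] at this
  exact this

theorem abs_le (a : K) : |e a| ≤ 1 := by rcases he.sign a with h | h <;> simp [h]

end IsChar

/-- The local phase. -/
noncomputable def ph {F K : Type*} [Field F] [Field K] [Algebra F K] (s w : F[X]) (t : K) : K :=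
  (aeval t (derivative s) ^ 2 + t * aeval t (derivative w) ^ 2) ^ 3 /
    (aeval t (derivative w) ^ 4 * aeval t s ^ 2)

theorem map_ph {F K K' : Type*} [Field F] [Field K] [Algebra F K] [Field K'] [Algebra F K']
    (σ : K →ₐ[F] K') (s w : F[X]) (t : K) : σ (ph s w t) = ph s w (σ t) := by
  simp only [ph, map_div₀, map_pow, map_add, map_mul, aeval_algHom_apply]

theorem dvd_prod_sub_prod {R ι : Type*} [CommRing R] (c : R) (s : Finset ι) (a b : ι → R)
    (h : ∀ j, c ∣ a j - b j) : c ∣ ∏ j ∈ s, a j - ∏ j ∈ s, b j := by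
  classical
  induction s using Finset.induction with
  | empty => simp
  | insert i s hi IH =>
    rw [Finset.prod_insert hi, Finset.prod_insert hi]
    have : a i * ∏ j ∈ s, a j - b i * ∏ j ∈ s, b j =
        a i * (∏ j ∈ s, a j - ∏ j ∈ s, b j) + (a i - b i) * ∏ j ∈ s, b j := by ring
    rw [this]
    exact dvd_add (IH.mul_left _) ((h i).mul_right _)

theorem aeval_ne_zero_of_isCoprime {F K : Type*} [Field F] [Field K] [Algebra F K] {a b : F[X]}
    (h : IsCoprime a b) {t : K} (ht : aeval t b = 0) : aeval t a ≠ 0 := by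
  obtain ⟨x, y, hxy⟩ := h
  intro h0
  have := congrArg (aeval t) hxy
  simp [ht, h0] at this

theorem odd_monic {F : Type*} [Field F] {s w : F[X]} (hw : w.Monic)
    (hd : s.natDegree ≤ w.natDegree) :
    (s ^ 2 + X * w ^ 2).Monic ∧ (s ^ 2 + X * w ^ 2).natDegree = 2 * w.natDegree + 1 := by
  have h1 : (X * w ^ 2).natDegree = 2 * w.natDegree + 1 := by
    rw [monic_X.natDegree_mul (hw.pow 2), natDegree_X, hw.natDegree_pow, add_comm]
  have h2 : (s ^ 2).natDegree < (X * w ^ 2).natDegree := by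
    rw [h1, natDegree_pow]; omega
  exact ⟨(monic_X.mul (hw.pow 2)).add_of_right (degree_lt_degree h2),
    by rw [natDegree_add_eq_right_of_natDegree_lt h2, h1]⟩

theorem derivative_odd {F : Type*} [Field F] [CharP F 2] (s w : F[X]) :
    derivative (s ^ 2 + X * w ^ 2) = w ^ 2 := by
  have h2F : (2 : F[X]) = 0 := by exact_mod_cast CharP.cast_eq_zero F[X] 2
  simp only [derivative_add, derivative_mul, derivative_X, derivative_sq, map_ofNat]
  linear_combination (s * derivative s + X * w * derivative w) * h2F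

variable {F K A O : Type*} [Field F] [Fintype F] [CharP F 2] [Field K]
  [Algebra F K] [CharP K 2] [IsAlgClosed K] [CommRing A] [CommRing O] [IsDomain O]
  (L : LiftData 2 F K A O)

theorem LiftData.side {R : Type*} [CommRing R] (μ : O →+* R) (ν : R →+* K)
    (hνμ : ∀ x, ν (μ x) = L.π x) (hν : ∀ x, ν x = 0 → ((2 : ℕ) : R) ∣ x) (h8 : (8 : R) = 0)
    (h2 : ∀ x : R, 2 * x = 0 → ν x = 0) {u v s : F[X]} (hu : u.Monic) (hv : v.Monic)
    (hsep : v.Separable) (huv : IsCoprime u v) (hd : s.natDegree ≤ (u * v).natDegree)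
    (hc : IsCoprime s (u * v)) {d : ℕ} (τ : Fin d → O) (σ : Equiv.Perm (Fin d))
    (hσ : ∀ j, L.φ (τ j) = τ (σ j)) (ht : Function.Injective fun j => L.π (τ j))
    (hvt : v.map (algebraMap F K) = ∏ j, (X - C (L.π (τ j)))) {G U Z : A[X]} (hG : G.Monic)
    (hGs : G.map L.ρ = s ^ 2 + X * (u * v) ^ 2) (hU : U.Monic) (hUu : U.map L.ρ = u ^ 2)
    (hZ : ((2 : ℕ) : A[X]) ^ (2 + 1) ∣ derivative G - U * Z) {n : ℕ}
    (hn : n = 2 * (u * v).natDegree + 1) :
    ∃ (α : Fin n → O) (δ x y : O), G.map L.ι = ∏ i, (X - C (α i)) ∧ L.π δ ≠ 0 ∧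
      L.φ δ = (((-1) ^ n * liou (s ^ 2 + X * (u * v) ^ 2) : ℤ) : O) * δ ∧ L.π x ≠ 0 ∧
      (4 : O) ∣ L.φ x - x ∧ L.π y = ∑ j, ph s (u * v) (L.π (τ j)) ∧
      (sgn n : R) * μ δ ^ 2 = (∏ i, (U.map (μ.comp L.ι)).eval (μ (α i))) * (n : R) ^ n *
        (μ x ^ 2 * (1 + 4 * μ y)) := by
  have : Nontrivial A := L.ρ.domain_nontrivial
  have : Nontrivial R := ν.domain_nontrivial
  have h2K : (2 : K) = 0 := by exact_mod_cast CharP.cast_eq_zero K 2
  have h2F : (2 : F[X]) = 0 := by exact_mod_cast CharP.cast_eq_zero F[X] 2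
  set w := u * v with hw
  have hGd : G.natDegree = n := by
    rw [← hG.natDegree_map L.ρ, hGs, (odd_monic (hu.mul hv) hd).2, hn]
  have hGsep : (G.map L.ρ).Separable := by
    rw [hGs, Polynomial.separable_def, derivative_odd]
    exact (hc.pow (m := 2) (n := 2)).add_mul_right_left X
  obtain ⟨α, δ, e₁, u₁, f₁, d₁⟩ := L.stick hG hGsep hGd
  rw [hGs] at f₁
  set t : Fin d → K := fun j => L.π (τ j) with htdef
  have hvr : ∀ j, aeval (t j) v = 0 := by
    intro j
    rw [← eval_map_algebraMap, hvt, eval_prod]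
    exact Finset.prod_eq_zero (mem_univ j) (by simp [htdef])
  have hwr : ∀ j, aeval (t j) w = 0 := fun j => by rw [hw, map_mul, hvr, mul_zero]
  have hw' : ∀ j, aeval (t j) (derivative w) ≠ 0 := by
    intro j
    rw [hw, derivative_mul, map_add, map_mul, map_mul, hvr, mul_zero, zero_add]
    exact mul_ne_zero (aeval_ne_zero_of_isCoprime huv (hvr j))
      (hsep.aeval_derivative_ne_zero (hvr j))
  have hs' : ∀ j, aeval (t j) s ≠ 0 := fun j => aeval_ne_zero_of_isCoprime hc (hwr j)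
  choose r hr using fun j => L.π_surj ((aeval (t j) (derivative s) ^ 2 +
    t j * aeval (t j) (derivative w) ^ 2) / aeval (t j) (derivative w) ^ 2)
  choose y hy using fun j => L.π_surj (ph s w (t j))
  set a : Fin d → O := fun j => (G.map L.ι).eval (τ j) -
    ((derivative G).map L.ι).eval (τ j) * r j with ha
  have hG' : ∀ j, L.π (((derivative G).map L.ι).eval (τ j)) = 0 := by
    intro j
    rw [L.π_eval, ← derivative_map, hGs, derivative_odd, map_pow]
    exact (congrArg (· ^ 2) (hwr j)).trans (by simp)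
  have htσ : ∀ j, t (σ j) = FiniteField.frobeniusAlgHom F K (t j) := by
    intro j
    simp only [htdef, ← hσ, L.πφ]
    rfl
  refine ⟨α, δ, ∏ j, a j, ∑ j, y j, e₁, u₁, f₁, ?_, ?_, by simp only [map_sum, hy, htdef], ?_⟩
  · rw [map_prod]
    refine Finset.prod_ne_zero_iff.2 fun j _ => ?_
    simp only [ha, map_sub, map_mul, hG', zero_mul, sub_zero]
    rw [L.π_eval, hGs, map_add, map_mul, map_pow, map_pow]
    have := hwr j
    simp only [htdef] at this
    rw [this]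
    simpa using hs' j
  · rw [map_prod, ← Equiv.prod_comp σ a]
    refine dvd_prod_sub_prod _ _ _ _ fun j => ?_
    obtain ⟨b, hb⟩ := (L.ker_π _).1 (hG' (σ j))
    obtain ⟨c, hc'⟩ := (L.ker_π (L.φ (r j) - r (σ j))).1 (by
      rw [map_sub, L.πφ, hr, hr, htσ, sub_eq_zero]
      change FiniteField.frobeniusAlgHom F K _ = _
      simp only [map_div₀, map_pow, map_add, map_mul, aeval_algHom_apply])
    refine ⟨-(b * c), ?_⟩
    simp only [ha, map_sub, map_mul, L.φ_eval, hσ]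
    push_cast at hb hc'
    rw [hb]
    linear_combination (-2 * b) * hc'
  set G₀ := G.map (μ.comp L.ι) with hG₀
  set U₀ := U.map (μ.comp L.ι) with hU₀
  set Z₀ := Z.map (μ.comp L.ι) with hZ₀
  have g₁ : G₀ = ∏ i, (X - C (μ (α i))) := by
    rw [hG₀, ← Polynomial.map_map, e₁, Polynomial.map_prod]
    simp
  have g₂ : derivative G₀ = U₀ * Z₀ := by
    have := Polynomial.map_dvd (μ.comp L.ι) hZ
    rw [Polynomial.map_pow, Polynomial.map_natCast, ← map_natCast (C : R →+* R[X]), ← map_pow,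
      show ((2 : ℕ) : R) ^ (2 + 1) = 0 by rw [← h8]; norm_num, map_zero, zero_dvd_iff,
      Polynomial.map_sub, Polynomial.map_mul, sub_eq_zero, ← derivative_map] at this
    exact this
  have hnn : (n : R) * n = 1 := by
    obtain ⟨c, hc⟩ := Nat.even_mul_succ_self w.natDegree
    have hc' := congrArg (Nat.cast : ℕ → R) hc
    rw [hn]
    push_cast at hc' ⊢
    linear_combination 4 * hc' + (c : R) * h8
  have hnK : (n : K) = 1 := by
    rw [hn]; push_cast; linear_combination (w.natDegree : K) * h2K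
  have g₃ : (C (n : R) * Z₀).Monic := by
    refine (hU.map (μ.comp L.ι)).of_mul_monic_left ?_
    rw [← hU₀, mul_left_comm, ← g₂]
    have hG₀d : G₀.natDegree = n := by rw [hG₀, hG.natDegree_map, hGd]
    refine monic_of_natDegree_le_of_coeff_eq_one (2 * w.natDegree) ?_ ?_
    · refine (natDegree_C_mul_le _ _).trans ((natDegree_derivative_le _).trans ?_)
      omega
    · rw [coeff_C_mul, coeff_derivative, ← hn, ← hG₀d, (hG.map _).coeff_natDegree, hG₀d, one_mul]
      refine Eq.trans ?_ hnn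
      rw [hn]
      push_cast
      ring
  have g₄ : G₀.map ν = (s.map (algebraMap F K)) ^ 2 + X * (w.map (algebraMap F K)) ^ 2 := by
    rw [hG₀, L.map_map μ ν hνμ, hGs]
    simp only [Polynomial.map_add, Polynomial.map_mul, Polynomial.map_pow, map_X]
  have g₅ : (C (n : R) * Z₀).map ν = ∏ j ∈ univ, (X - C (t j)) ^ 2 := by
    have h1 := congrArg (Polynomial.map ν) g₂
    rw [← derivative_map, g₄, derivative_odd, Polynomial.map_mul ν, hU₀, L.map_map μ ν hνμ, hUu,
      hw, Polynomial.map_mul, mul_pow, Polynomial.map_pow] at h1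
    rw [Polynomial.map_mul, map_C, map_natCast, hnK, map_one, one_mul, Finset.prod_pow, ← hvt]
    exact (mul_left_cancel₀ (pow_ne_zero 2 (hu.map _).ne_zero) h1).symm
  obtain ⟨Q, hQ, g₆⟩ := hensel_quad ν (fun z => by
    obtain ⟨x, rfl⟩ := L.π_surj z
    exact ⟨μ x, hνμ x⟩) hν (by exact_mod_cast h2K) h8 t ht univ g₃ g₅
  have g₇ : derivative G₀ = U₀ * C (n : R) * ∏ j, Q j := by
    rw [← g₆, g₂, mul_assoc, ← mul_assoc (C _), ← map_mul, hnn, map_one, one_mul]
  have g₈ : ∀ j, ∏ i, (Q j).eval (μ (α i)) = μ (a j) ^ 2 * (1 + 4 * μ (y j)) := by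
    intro j
    have hτ : ν (μ (τ j)) = t j := hνμ _
    rw [local_norm ν hν h2K h8 h2 (fun i => μ (α i)) g₁ (μ (τ j)) (μ (r j)) (μ (y j))
      (hQ j (mem_univ j)).1 (hτ ▸ (hQ j (mem_univ j)).2)
      (g₇ ▸ (Finset.dvd_prod_of_mem Q (mem_univ j)).mul_left _) g₄]
    · congr 2
      simp only [ha, map_sub, map_mul, hG₀, ← Polynomial.map_map, derivative_map, eval_map μ,
        eval₂_hom]
    all_goals simp only [hτ, hνμ, derivative_map, eval_map_algebraMap]
    exacts [hwr j, hs' j, hw' j, hr j, hy j]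
  have d₂ := congrArg μ d₁
  rw [map_prod, map_mul, map_pow, map_intCast] at d₂
  rw [← d₂]
  have d₃ : ∀ i, μ ((derivative (G.map L.ι)).eval (α i)) =
      U₀.eval (μ (α i)) * n * ∏ j, (Q j).eval (μ (α i)) := by
    intro i
    rw [← eval_prod, ← eval_C (a := (n : R)) (x := μ (α i)), ← eval_mul, ← eval_mul, ← g₇, hG₀,
      ← Polynomial.map_map, derivative_map (G.map L.ι) μ, eval_map μ, eval₂_hom]
  simp only [d₃]
  rw [Finset.prod_mul_distrib, Finset.prod_mul_distrib, Finset.prod_comm, Finset.prod_const,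
    card_univ, Fintype.card_fin]
  simp only [g₈]
  rw [Finset.prod_mul_distrib, prod_one_add_four h8, map_prod, map_sum, Finset.prod_pow]

include L in
theorem LiftData.cmp_two {e : K → ℝ} (he : IsChar F e) {u v s₁ s₂ : F[X]} (hu : u.Monic)
    (hv : v.Monic) (hsep : v.Separable) (huv : IsCoprime u v)
    (hd₁ : s₁.natDegree ≤ (u * v).natDegree) (hd₂ : s₂.natDegree ≤ (u * v).natDegree)
    (hc₁ : IsCoprime s₁ (u * v)) (hc₂ : IsCoprime s₂ (u * v)) (hdvd : u ^ 2 ∣ s₁ - s₂)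
    {d : ℕ} (t : Fin d → K) (ht : Function.Injective t)
    (hvt : v.map (algebraMap F K) = ∏ j, (X - C (t j))) :
    (liou (s₁ ^ 2 + X * (u * v) ^ 2) : ℝ) * liou (s₂ ^ 2 + X * (u * v) ^ 2) =
      e (∑ j, ph s₁ (u * v) (t j) + ∑ j, ph s₂ (u * v) (t j)) := by
  have : Nontrivial A := L.ρ.domain_nontrivial
  have h2K : (2 : K) = 0 := by exact_mod_cast CharP.cast_eq_zero K 2
  have h2F : (2 : F[X]) = 0 := by exact_mod_cast CharP.cast_eq_zero F[X] 2
  obtain ⟨V, hV, hVv, hVd⟩ := L.lift_monic hv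
  have hvd : v.natDegree = d := by
    rw [← hv.natDegree_map (algebraMap F K), hvt,
      natDegree_prod_of_monic _ _ (fun i _ => monic_X_sub_C _)]
    simp
  obtain ⟨τ, σ, hτ, -, hσ⟩ := L.lift_roots_of hV (hVv ▸ hsep) (hVd.trans hvd) t ht (hVv ▸ hvt)
  obtain rfl : t = fun j => L.π (τ j) := funext fun j => (hτ j).symm
  obtain ⟨m₁, n₁⟩ := odd_monic (hu.mul hv) hd₁
  obtain ⟨m₂, n₂⟩ := odd_monic (hu.mul hv) hd₂
  obtain ⟨G₂, hG₂, hG₂s, hG₂d⟩ := L.lift_monic m₂
  obtain ⟨U, Z, hU, hUu, -, hZ⟩ := hensel_factor L.ρ L.ρ_surj (fun x => (L.ker_ρ x).1)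
    (CharP.cast_eq_zero F 2) (W := derivative G₂) (b := v ^ 2) (hu.pow 2) huv.pow
    (by rw [← derivative_map, hG₂s, derivative_odd, mul_pow]) 2
  obtain ⟨g, hg⟩ := hdvd
  obtain ⟨H, hH, hHd⟩ := exists_degree_eq_of_mem_lifts
    (Polynomial.map_surjective L.ρ L.ρ_surj (g ^ 2))
  have hG₁ : (G₂ + H * U ^ 2).Monic := by
    refine hG₂.add_of_left ?_
    rw [(hU.pow 2).degree_mul, hHd, ← (hU.pow 2).degree_map L.ρ, Polynomial.map_pow, hUu,
      ← ((hu.pow 2).pow 2).degree_mul, ← mul_pow, mul_comm g, ← hg,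
      degree_eq_natDegree hG₂.ne_zero, hG₂d, n₂]
    refine degree_le_natDegree.trans_lt ?_
    have := natDegree_sub_le s₁ s₂
    rw [natDegree_pow]
    exact_mod_cast (by omega)
  have hG₁s : (G₂ + H * U ^ 2).map L.ρ = s₁ ^ 2 + X * (u * v) ^ 2 := by
    rw [Polynomial.map_add, Polynomial.map_mul, Polynomial.map_pow, hG₂s, hH, hUu]
    have : s₁ = s₂ + u ^ 2 * g := by linear_combination hg
    rw [this]
    linear_combination (-(s₂ * u ^ 2 * g)) * h2F
  obtain ⟨ν, hνμ, hν, hμ⟩ := L.quot_data (κ := 3) (by norm_num)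
  set μ := Ideal.Quotient.mk (Ideal.span {((2 : ℕ) : O) ^ 3}) with hμdef
  have h8 : (8 : O ⧸ Ideal.span {((2 : ℕ) : O) ^ 3}) = 0 := by exact_mod_cast hμ
  have h2 : ∀ x : O ⧸ Ideal.span {((2 : ℕ) : O) ^ 3}, 2 * x = 0 → ν x = 0 := by
    intro x hx
    obtain ⟨x, rfl⟩ := Ideal.Quotient.mk_surjective x
    rw [← map_ofNat μ 2, ← map_mul, Ideal.Quotient.eq_zero_iff_mem,
      Ideal.mem_span_singleton] at hx
    obtain ⟨c, hc⟩ := hx
    rw [hνμ, L.ker_π]
    refine ⟨2 * c, mul_left_cancel₀ L.p_ne ?_⟩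
    push_cast at hc ⊢
    linear_combination hc
  obtain ⟨n, hn⟩ : ∃ n, n = 2 * (u * v).natDegree + 1 := ⟨_, rfl⟩
  obtain ⟨α₁, δ₁, x₁, y₁, g₁, u₁, f₁, π₁, φ₁, hy₁, k₁⟩ := L.side μ ν hνμ hν h8 h2 hu hv hsep huv
    hd₁ hc₁ τ σ hσ ht hvt hG₁ hG₁s hU hUu
    (Z := Z + (derivative H * U + 2 * H * derivative U)) (by
      convert hZ using 1
      simp only [derivative_add, derivative_mul, derivative_sq, map_ofNat]
      ring) hn
  obtain ⟨α₂, δ₂, x₂, y₂, g₂, u₂, f₂, π₂, φ₂, hy₂, k₂⟩ := L.side μ ν hνμ hν h8 h2 hu hv hsep huv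
    hd₂ hc₂ τ σ hσ ht hvt hG₂ hG₂s hU hUu hZ hn
  have hUU := prod_eval_eq_of_dvd (fun i => μ (α₁ i)) (fun i => μ (α₂ i)) (U.map (μ.comp L.ι))
    (hU.map _) (by
      have a₁ := congrArg (Polynomial.map μ) g₁
      have a₂ := congrArg (Polynomial.map μ) g₂
      simp only [Polynomial.map_prod, Polynomial.map_sub, map_X, map_C,
        Polynomial.map_map] at a₁ a₂
      rw [← a₁, ← a₂, Polynomial.map_add, add_sub_cancel_left, Polynomial.map_mul,
        Polynomial.map_pow]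
      exact (dvd_pow_self _ two_ne_zero).mul_left _)
  rw [hUU] at k₁
  have hs : (sgn n : O ⧸ Ideal.span {((2 : ℕ) : O) ^ 3}) * sgn n = 1 := by
    rw [← Int.cast_mul, sgn_sq, Int.cast_one]
  have h' : μ δ₁ ^ 2 * (μ x₂ ^ 2 * (1 + 4 * μ y₂)) = μ δ₂ ^ 2 * (μ x₁ ^ 2 * (1 + 4 * μ y₁)) := by
    linear_combination (sgn n * (μ x₂ ^ 2 * (1 + 4 * μ y₂))) * k₁ -
      (sgn n * (μ x₁ ^ 2 * (1 + 4 * μ y₁))) * k₂ -
      (μ δ₁ ^ 2 * (μ x₂ ^ 2 * (1 + 4 * μ y₂)) - μ δ₂ ^ 2 * (μ x₁ ^ 2 * (1 + 4 * μ y₁))) * hs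
  rw [← hy₁, ← hy₂]
  obtain ⟨z, hz⟩ : ∃ z : K, z ^ 2 + z = L.π y₁ + L.π y₂ := by
    obtain ⟨z, hz⟩ := IsAlgClosed.exists_root (X ^ 2 + X - C (L.π y₁ + L.π y₂)) (by
      have : (X ^ 2 + X - C (L.π y₁ + L.π y₂)).degree = 2 := by compute_degree!
      rw [this]; decide)
    exact ⟨z, by simpa [sub_eq_zero] using hz⟩
  have hfix : ∀ s : F[X], FiniteField.frobeniusAlgHom F K (∑ j, ph s (u * v) (L.π (τ j))) =
      ∑ j, ph s (u * v) (L.π (τ j)) := by
    intro s
    rw [map_sum, ← Equiv.sum_comp σ (fun j => ph s (u * v) (L.π (τ j)))]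
    refine Finset.sum_congr rfl fun j _ => ?_
    rw [map_ph, ← hσ, L.πφ]
    rfl
  have hzq : ∃ η : ℤ, (η = 1 ∨ η = -1) ∧ e (z ^ 2 + z) = η ∧
      ∀ Z' : O, L.π Z' = z → (4 : O) ∣ (1 + 2 * L.φ Z') - η * (1 + 2 * Z') := by
    have h1 : (z ^ Fintype.card F) ^ 2 + z ^ Fintype.card F = z ^ 2 + z := by
      have := congrArg (FiniteField.frobeniusAlgHom F K) hz
      rw [map_add, map_pow, map_add, hy₁, hy₂, hfix, hfix, ← hy₁, ← hy₂, ← hz] at this
      exact this
    have h3 : (z ^ Fintype.card F - z) * (z ^ Fintype.card F - (z + 1)) = 0 := by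
      linear_combination h1 + (z ^ 2 + z - z * z ^ Fintype.card F - z ^ Fintype.card F) * h2K
    rcases mul_eq_zero.1 h3 with h | h
    · refine ⟨1, Or.inl rfl, by rw [he.pos z (sub_eq_zero.1 h)]; simp, fun Z' hZ' => ?_⟩
      obtain ⟨r, hr⟩ := (L.ker_π (L.φ Z' - Z')).1 (by rw [map_sub, L.πφ, hZ', h])
      refine ⟨r, ?_⟩
      push_cast at hr ⊢
      linear_combination 2 * hr
    · refine ⟨-1, Or.inr rfl, by rw [he.neg z (sub_eq_zero.1 h)]; simp, fun Z' hZ' => ?_⟩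
      obtain ⟨r, hr⟩ := (L.ker_π (1 + L.φ Z' + Z')).1 (by
        rw [map_add, map_add, map_one, L.πφ, hZ']
        linear_combination h + (1 + z) * h2K)
      refine ⟨r, ?_⟩
      push_cast at hr ⊢
      linear_combination 2 * hr
  obtain ⟨η, hη, hηe, hη'⟩ := hzq
  obtain ⟨Z', hZ'⟩ := L.π_surj z
  obtain ⟨r', hr'⟩ := hη' Z' hZ'
  obtain ⟨r, hr⟩ : ((2 : ℕ) : O) ∣ Z' ^ 2 + Z' - (y₁ + y₂) := by
    rw [← L.ker_π]
    simp only [map_sub, map_add, map_pow, hZ', hz, sub_self]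
  obtain ⟨c₁, hc₁'⟩ := φ₁
  obtain ⟨c₂, hc₂'⟩ := φ₂
  have := L.sign_detect (κ := 3) (by norm_num) (fun _ => rfl) (δ₁ * x₂) (δ₂ * x₁ * (1 + 2 * Z'))
    (by rw [map_mul]; exact mul_ne_zero u₁ π₂)
    (by
      rw [← Ideal.mem_span_singleton, ← Ideal.Quotient.eq_zero_iff_mem, ← hμdef]
      have hr2 := congrArg μ hr
      simp only [map_sub, map_add, map_mul, map_pow, map_ofNat, map_one, Nat.cast_ofNat] at hr2 ⊢
      generalize μ y₁ = T₁ at *
      generalize μ y₂ = T₂ at *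
      linear_combination (1 + 4 * T₂) * h' - 4 * (μ δ₂ * μ x₁) ^ 2 * hr2 +
        (-(μ δ₁ * μ x₂) ^ 2 * (T₂ + 2 * T₂ ^ 2) + (μ δ₂ * μ x₁) ^ 2 * (2 * T₁ * T₂ - μ r)) * h8)
    (eps_cases n (s₁ ^ 2 + X * (u * v) ^ 2))
    (ε₂ := η * ((-1) ^ n * liou (s₂ ^ 2 + X * (u * v) ^ 2)))
    (by
      rcases eps_cases n (s₂ ^ 2 + X * (u * v) ^ 2) with h | h <;> rcases hη with h' | h' <;>
        rw [h, h'] <;> simp)
    (by
      refine ⟨L.φ δ₁ * c₂, ?_⟩
      rw [map_mul, ← mul_assoc, ← f₁]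
      push_cast
      linear_combination L.φ δ₁ * hc₂')
    (by
      refine ⟨L.φ δ₂ * (c₁ * (1 + 2 * L.φ Z') + x₁ * r'), ?_⟩
      rw [map_mul, map_mul, map_add, map_one, map_mul, map_ofNat, Int.cast_mul]
      push_cast at f₂ ⊢
      linear_combination (L.φ δ₂ * (1 + 2 * L.φ Z')) * hc₁' + (L.φ δ₂ * x₁) * hr' +
        (η * x₁ * (1 + 2 * Z')) * f₂)
  have h5 : liou (s₁ ^ 2 + X * (u * v) ^ 2) = η * liou (s₂ ^ 2 + X * (u * v) ^ 2) := by
    apply mul_left_cancel₀ (pow_ne_zero n (by norm_num : (-1 : ℤ) ≠ 0))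
    linear_combination this
  rw [← hz, hηe, h5]
  rcases liou_cases (s₂ ^ 2 + X * (u * v) ^ 2) with h | h <;> simp [h]

end Pool.Agent.MP_4fffd4_nt
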