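import Mathlib
import Pool.Agent.MP_4fffd4_nt.Swan
import Pool.Agent.MP_4fffd4_nt.Vdc

/- Cancellation in the short variable. -/

set_option autoImplicit false

namespace Pool.Agent.MP_4fffd4_nt

open Polynomial Finset
open scoped BigOperators

noncomputable instance fintypeDegreeLT {F : Type*} [Field F] [Fintype F] (n : ℕ) :
    Fintype (degreeLT F n) := Fintype.ofEquiv _ (degreeLTEquiv F n).toEquiv.symm

theorem card_degreeLT {F : Type*} [Field F] [Fintype F] (n : ℕ) :
    Fintype.card (degreeLT F n) = Fintype.card F ^ n := by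
  rw [Fintype.card_congr (degreeLTEquiv F n).toEquiv, Fintype.card_fun, Fintype.card_fin]

theorem abs_expect_le_of_good {V : Type*} [Fintype V] [Nonempty V] (Λ Φ : V → ℝ) (bad : V → Prop)
    (hΛ : ∀ x, Λ x = 1 ∨ Λ x = -1) (hΦ : ∀ x, Φ x = 1 ∨ Φ x = -1)
    (h : ∀ x y, ¬ bad x → ¬ bad y → Λ x * Λ y = Φ x * Φ y) :
    |𝔼 x, Λ x| ≤ 2 * 𝔼 x, ind (bad x) + |𝔼 x, Φ x| := by
  by_cases hg : ∃ y, ¬ bad y
  · obtain ⟨y, hy⟩ := hg
    have h1 : 𝔼 x, Λ x = 𝔼 x, (Λ x - Λ y * Φ y * Φ x) + Λ y * Φ y * 𝔼 x, Φ x := by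
      rw [Finset.expect_sub_distrib, Finset.mul_expect]; ring
    have h2 : |Λ y * Φ y| = 1 := by
      rcases hΛ y with a | a <;> rcases hΦ y with b | b <;> simp [a, b]
    rw [h1]
    refine (abs_add_le _ _).trans (add_le_add ?_ (by rw [abs_mul, h2, one_mul]))
    rw [Finset.mul_expect]
    refine (Finset.abs_expect_le _ _).trans (Finset.expect_le_expect fun x _ => ?_)
    by_cases hx : bad x
    · rw [ind_pos hx]
      rcases hΛ y with a | a <;> rcases hΦ y with b | b <;> rcases hΛ x with c | c <;>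
        rcases hΦ x with d | d <;> rw [a, b, c, d] <;> norm_num
    · have := h x y hx hy
      rw [ind_neg hx, mul_zero, abs_nonpos_iff]
      rcases hΛ y with a | a <;> rw [a] at this ⊢ <;> linarith
  · push Not at hg
    simp only [ind_pos (hg _), Fintype.expect_const]
    refine le_trans ?_ (le_add_of_nonneg_right (abs_nonneg _))
    refine (Finset.abs_expect_le _ _).trans (Finset.expect_le univ_nonempty fun x _ => ?_)
    rcases hΛ x with a | a <;> rw [a] <;> norm_num

theorem cube_three {V K ι : Type*} [AddCommGroup V] [Field K] [CharP K 2] [DecidableEq ι]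
    (Θ Θ' : V →+ K) (h : ι → V) {i j l : ι} (hij : i ≠ j) (hil : i ≠ l) (hjl : j ≠ l)
    (hi : Θ (h i) = 0) (hj : Θ (h j) = 0) (hl : Θ (h l) = 0) (g D : K → K) (a : K) (x : V) :
    cube {i, j, l} h (fun x => (g (Θ x) + a ^ 2 * Θ' x ^ 2) ^ 3 / D (Θ x)) x = 0 := by
  have h2 : (2 : K) = 0 := by exact_mod_cast CharP.cast_eq_zero K 2
  rw [cube_insert (by simp [hij, hil]), cube_insert (by simp [hjl]), cube_insert (by simp [hjl]),
    ← insert_empty_eq]
  simp only [cube_insert (notMem_empty _), cube_empty, map_add, hi, hj, hl, add_zero,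
    CharTwo.add_sq, mul_add, ← add_assoc, ← add_div]
  generalize g (Θ x) + a ^ 2 * Θ' x ^ 2 = A
  generalize a ^ 2 * Θ' (h i) ^ 2 = p
  generalize a ^ 2 * Θ' (h j) ^ 2 = q
  generalize a ^ 2 * Θ' (h l) ^ 2 = r
  rw [div_eq_zero_iff]
  left
  linear_combination (4 * A ^ 3 + 6 * A ^ 2 * (p + q + r) +
    6 * A * (p ^ 2 + q ^ 2 + r ^ 2 + p * q + p * r + q * r) + 2 * (p ^ 3 + q ^ 3 + r ^ 3) +
    3 * (p ^ 2 * q + p ^ 2 * r + q ^ 2 * p + q ^ 2 * r + r ^ 2 * p + r ^ 2 * q) +
    3 * p * q * r) * h2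

variable {F : Type*} [Field F]

theorem ph_eq {K : Type*} [Field K] [Algebra F K] [CharP K 2] (α σ w x : F[X]) (t : K) :
    ph (α * x + σ) w t = (((aeval t (derivative α) * aeval t x + aeval t (derivative σ)) ^ 2 +
      t * aeval t (derivative w) ^ 2) + aeval t α ^ 2 * aeval t (derivative x) ^ 2) ^ 3 /
      (aeval t (derivative w) ^ 4 * (aeval t α * aeval t x + aeval t σ) ^ 2) := by
  simp only [ph, derivative_add, derivative_mul, map_add, map_mul, CharTwo.add_sq, mul_pow]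
  congr 2
  ring

/-- Value at `t`. -/
noncomputable def evLT {K : Type*} [Field K] [Algebra F K] (n : ℕ) (t : K) : degreeLT F n →+ K :=
  (aeval t : F[X] →ₐ[F] K).toLinearMap.toAddMonoidHom.comp (degreeLT F n).subtype.toAddMonoidHom

/-- Value of the derivative at `t`. -/
noncomputable def dvLT {K : Type*} [Field K] [Algebra F K] (n : ℕ) (t : K) : degreeLT F n →+ K :=
  ((aeval t : F[X] →ₐ[F] K).toLinearMap.comp derivative).toAddMonoidHom.comp
    (degreeLT F n).subtype.toAddMonoidHom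

theorem mul_mem_degreeLT {Q : F[X]} {ρ n : ℕ} (h : Q.natDegree + ρ ≤ n) (y : degreeLT F ρ) :
    Q * y ∈ degreeLT F n := by
  rw [mem_degreeLT]
  by_cases hy : (y : F[X]) = 0
  · rw [hy, mul_zero, degree_zero]; exact WithBot.bot_lt_coe _
  have h1 := (natDegree_lt_iff_degree_lt hy).2 (mem_degreeLT.1 y.2)
  refine degree_le_natDegree.trans_lt ?_
  have := natDegree_mul_le (p := Q) (q := y)
  exact_mod_cast (by omega)

/-- Multiplication by `Q`. -/
noncomputable def mulLT (Q : F[X]) {ρ n : ℕ} (h : Q.natDegree + ρ ≤ n) :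
    degreeLT F ρ →+ degreeLT F n where
  toFun y := ⟨Q * y, mul_mem_degreeLT h y⟩
  map_zero' := Subtype.ext (by simp)
  map_add' a b := Subtype.ext (by simp [mul_add])

theorem evLT_apply {K : Type*} [Field K] [Algebra F K] (n : ℕ) (t : K) (x : degreeLT F n) :
    evLT n t x = aeval t (x : F[X]) := rfl

theorem dvLT_apply {K : Type*} [Field K] [Algebra F K] (n : ℕ) (t : K) (x : degreeLT F n) :
    dvLT n t x = aeval t (derivative (x : F[X])) := rfl

theorem mulLT_apply (Q : F[X]) {ρ n : ℕ} (h : Q.natDegree + ρ ≤ n) (y : degreeLT F ρ) :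
    (mulLT Q h y : F[X]) = Q * y := rfl

theorem exists_rep {P : F[X]} [Fact (Irreducible P)] (hP : P.Monic) {ρ : ℕ}
    (h : P.natDegree ≤ ρ) {c : AdjoinRoot P} (hc : c ≠ 0) (z : AdjoinRoot P) :
    ∃ y : degreeLT F ρ, c * aeval (AdjoinRoot.root P) (y : F[X]) = z := by
  obtain ⟨y, hy⟩ := AdjoinRoot.mk_surjective (z / c)
  refine ⟨⟨y %ₘ P, mem_degreeLT.2 ((degree_modByMonic_lt _ hP).trans_le
    (degree_le_natDegree.trans (by exact_mod_cast h)))⟩, ?_⟩
  rw [AdjoinRoot.aeval_eq, ← mul_div_cancel₀ z hc, ← hy]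
  congr 1
  exact AdjoinRoot.mk_eq_mk.2 ⟨-(y /ₘ P), by linear_combination modByMonic_add_div y P⟩

open Classical in
/-- The set of roots. -/
noncomputable def rts (K : Type*) [Field K] [Algebra F K] (v : F[X]) : Finset K :=
  (v.aroots K).toFinset

open Classical in
theorem mem_rts {K : Type*} [Field K] [Algebra F K] {v : F[X]} (hv : v ≠ 0) {t : K} :
    t ∈ rts K v ↔ aeval t v = 0 := by
  unfold rts
  rw [Multiset.mem_toFinset, mem_aroots]
  exact and_iff_right hv

theorem sum_rts {K M : Type*} [Field K] [Algebra F K] [AddCommMonoid M] {v : F[X]} (hv : v ≠ 0)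
    {d : ℕ} (t : Fin d → K) (ht : Function.Injective t)
    (hvt : v.map (algebraMap F K) = ∏ j, (X - C (t j))) (g : K → M) :
    ∑ j, g (t j) = ∑ z ∈ rts K v, g z := by
  have : ∀ z, z ∈ rts K v ↔ ∃ j, t j = z := by
    intro z
    rw [mem_rts hv, ← eval_map_algebraMap, hvt, eval_prod, Finset.prod_eq_zero_iff]
    simp [sub_eq_zero, eq_comm]
  exact Finset.sum_bij (fun j _ => t j) (fun j _ => (this _).2 ⟨j, rfl⟩) (fun _ _ _ _ h => ht h)
    (fun z hz => by obtain ⟨j, hj⟩ := (this z).1 hz; exact ⟨j, mem_univ _, hj⟩) fun _ _ => rfl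

variable [Fintype F] [CharP F 2] {K : Type*} [Field K] [Algebra F K] [CharP K 2] [IsAlgClosed K]
  {e : K → ℝ} (he : IsChar F e)

omit [CharP F 2] [CharP K 2] in
theorem sum_rts_eq_trace {P : F[X]} [Fact (Irreducible P)] (s w : F[X]) :
    ∑ z ∈ rts K P, ph s w z =
      algebraMap F K (Algebra.trace F (AdjoinRoot P) (ph s w (AdjoinRoot.root P))) := by
  have hP : Irreducible P := Fact.out
  have : FiniteDimensional F (AdjoinRoot P) := (AdjoinRoot.powerBasis hP.ne_zero).finite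
  rw [trace_eq_sum_embeddings K]
  symm
  refine Finset.sum_bij (fun σ _ => σ (AdjoinRoot.root P)) (fun σ _ => ?_)
    (fun _ _ _ _ h => AdjoinRoot.algHom_ext h) (fun z hz => ?_) fun σ _ => map_ph σ _ _ _
  · rw [mem_rts hP.ne_zero, aeval_algHom_apply, AdjoinRoot.aeval_eq, AdjoinRoot.mk_self, map_zero]
  · exact ⟨AdjoinRoot.liftAlgHom P (Algebra.ofId F K) z ((mem_rts hP.ne_zero).1 hz), mem_univ _,
      AdjoinRoot.liftAlgHom_root _ _ _ _⟩

omit [Field F] [CharP F 2] [Algebra F K] [CharP K 2] [IsAlgClosed K] in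
include he in
theorem IsChar.sum {I : Type*} (s : Finset I) (g : I → K) :
    e (∑ i ∈ s, g i) = ∏ i ∈ s, e (g i) := by
  classical
  induction s using Finset.induction with
  | empty => simpa using he.zero
  | insert a s ha IH => rw [Finset.sum_insert ha, Finset.prod_insert ha, he.add, IH]

omit [CharP F 2] [CharP K 2] [IsAlgClosed K] in
include he in
theorem IsChar.sq_algebraMap (a : F) : e (algebraMap F K (a ^ 2)) = e (algebraMap F K a) := by
  have h1 := he.pos (algebraMap F K a) (by rw [← map_pow, FiniteField.pow_card])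
  rw [he.add, ← map_pow] at h1
  have h2 := he.mul_self (algebraMap F K a)
  linear_combination e (algebraMap F K a) * h1 - e (algebraMap F K (a ^ 2)) * h2

include he in
theorem IsChar.exists_neg : ∃ ν : F, e (algebraMap F K ν) = -1 := by
  have h2K : (2 : K) = 0 := by exact_mod_cast CharP.cast_eq_zero K 2
  have h2F : (2 : F) = 0 := by exact_mod_cast CharP.cast_eq_zero F 2
  obtain ⟨ν, hν⟩ : ∃ ν : F, ∀ a : F, a ^ 2 + a ≠ ν := by
    by_contra h
    push Not at h
    have hs : Function.Surjective fun a : F => a ^ 2 + a := h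
    have := Finite.injective_iff_surjective.2 hs (a₁ := 0) (a₂ := 1) (by
      linear_combination -h2F)
    exact zero_ne_one this
  obtain ⟨z, hz⟩ : ∃ z : K, z ^ 2 + z = algebraMap F K ν := by
    obtain ⟨z, hz⟩ := IsAlgClosed.exists_root (X ^ 2 + X - C (algebraMap F K ν)) (by
      have : (X ^ 2 + X - C (algebraMap F K ν)).degree = 2 := by compute_degree!
      rw [this]; decide)
    exact ⟨z, by simpa [sub_eq_zero] using hz⟩
  refine ⟨ν, hz ▸ he.neg z ?_⟩
  have h1 : (z ^ Fintype.card F) ^ 2 + z ^ Fintype.card F = z ^ 2 + z := by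
    have := congrArg (FiniteField.frobeniusAlgHom F K) hz
    rw [map_add, map_pow, AlgHom.commutes, ← hz] at this
    exact this
  have h3 : (z ^ Fintype.card F - z) * (z ^ Fintype.card F - (z + 1)) = 0 := by
    linear_combination h1 + (z ^ 2 + z - z * z ^ Fintype.card F - z ^ Fintype.card F) * h2K
  rcases mul_eq_zero.1 h3 with h | h
  · obtain ⟨a, rfl⟩ := mem_range_of_pow_card (sub_eq_zero.1 h)
    rw [← map_pow, ← map_add] at hz
    exact absurd ((algebraMap F K).injective hz) (hν a)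
  · exact sub_eq_zero.1 h

omit [Fintype F] [CharP F 2] in
theorem liou_sq_mul {δ g : F[X]} (hδ : δ ≠ 0) (hg : g ≠ 0) : liou (δ ^ 2 * g) = liou g := by
  rw [liou_mul (pow_ne_zero _ hδ) hg, sq, liou_mul hδ hδ]
  rcases liou_cases δ with h | h <;> simp [h]

include he in
theorem cmp_three {α σ u v : F[X]} (hu : u.Monic) (hv : v.Monic) (hsep : v.Separable)
    (huv : IsCoprime u v) (hα : u ^ 2 ∣ α) :
    ∃ δ α' σ' u' : F[X], α = δ * α' ∧ σ = δ * σ' ∧ u = δ * u' ∧ ∀ x y : F[X],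
      (α * x + σ).natDegree ≤ (u * v).natDegree → (α * y + σ).natDegree ≤ (u * v).natDegree →
      IsCoprime (α * x + σ) v → IsCoprime (α * y + σ) v →
      (liou ((α * x + σ) ^ 2 + X * (u * v) ^ 2) : ℝ) * liou ((α * y + σ) ^ 2 + X * (u * v) ^ 2) =
        e (∑ z ∈ rts K v, ph (α' * x + σ') (u' * v) z) *
          e (∑ z ∈ rts K v, ph (α' * y + σ') (u' * v) z) := by
  classical
  obtain ⟨L⟩ := nonempty_liftData 2 F K
  obtain ⟨σ', u', hσ, hu', hc⟩ := extract_gcd σ u
  have hδ : (gcd σ u).Monic := (normalize_eq_self_iff_monic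
    (fun h => hu.ne_zero ((gcd_eq_zero_iff _ _).1 h).2)).1 (normalize_gcd _ _)
  rw [gcd_isUnit_iff] at hc
  generalize gcd σ u = δ at hσ hu' hδ
  obtain ⟨g, rfl⟩ := hα
  subst hσ hu'
  have hu'' : u'.Monic := hδ.of_mul_monic_left hu
  obtain ⟨t, ht, hvt⟩ := exists_roots (K := K) hv hsep rfl
  refine ⟨δ, δ * u' ^ 2 * g, σ', u', by ring, rfl, rfl, fun x y hx hy cx cy => ?_⟩
  have key : ∀ x : F[X], ((δ * u') ^ 2 * g * x + δ * σ').natDegree ≤ (δ * u' * v).natDegree →
      IsCoprime ((δ * u') ^ 2 * g * x + δ * σ') v →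
      (δ * u' ^ 2 * g * x + σ').natDegree ≤ (u' * v).natDegree ∧
      IsCoprime (δ * u' ^ 2 * g * x + σ') (u' * v) ∧
      liou (((δ * u') ^ 2 * g * x + δ * σ') ^ 2 + X * (δ * u' * v) ^ 2) =
        liou ((δ * u' ^ 2 * g * x + σ') ^ 2 + X * (u' * v) ^ 2) := by
    intro x hx cx
    have e1 : (δ * u') ^ 2 * g * x + δ * σ' = δ * (δ * u' ^ 2 * g * x + σ') := by ring
    rw [e1] at hx cx ⊢
    have h1 : (δ * u' ^ 2 * g * x + σ').natDegree ≤ (u' * v).natDegree := by
      by_cases h0 : δ * u' ^ 2 * g * x + σ' = 0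
      · rw [h0, natDegree_zero]; exact Nat.zero_le _
      rw [hδ.natDegree_mul' h0, mul_assoc δ u' v, hδ.natDegree_mul (hu''.mul hv)] at hx
      omega
    refine ⟨h1, IsCoprime.mul_right ?_ cx.of_mul_left_right, ?_⟩
    · rw [show δ * u' ^ 2 * g * x + σ' = σ' + u' * (δ * u' * g * x) by ring]
      exact hc.add_mul_left_left _
    · rw [← liou_sq_mul hδ.ne_zero (odd_monic (hu''.mul hv) h1).1.ne_zero]
      congr 1
      ring
  obtain ⟨a₁, b₁, c₁⟩ := key x hx cx
  obtain ⟨a₂, b₂, c₂⟩ := key y hy cy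
  rw [c₁, c₂, L.cmp_two he hu'' hv hsep huv.of_mul_left_right a₁ a₂ b₁ b₂
    ⟨δ * g * (x - y), by ring⟩ t ht hvt, he.add, sum_rts hv.ne_zero t ht hvt,
    sum_rts hv.ne_zero t ht hvt]

include he in
theorem phase_bound {I J : Type*} [Fintype I] [Fintype J] (α σ w v : I → F[X])
    (hv : ∀ i, v i ≠ 0) {P : F[X]} (hP : P.Monic) (hPi : Irreducible P) {i₀ : I}
    (hi₀ : P ∣ v i₀) (hw : ¬ P ∣ derivative (w i₀)) (hα : ∀ i, ¬ P ∣ α i)
    (hασ : ∀ i, i ≠ i₀ → P ∣ v i → ¬ P ∣ α i * σ i₀ - α i₀ * σ i) (Q : J → F[X])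
    (hQ : ∀ j, ¬ P ∣ Q j) {ρ n : ℕ} (hQn : ∀ j, (Q j).natDegree + ρ ≤ n)
    (hρ : P.natDegree ≤ ρ) (hn : P.natDegree + ρ ≤ n)
    (hcov : ∀ i, ∀ t : K, aeval t (v i) = 0 → aeval t P ≠ 0 → ∃ j, aeval t (Q j) = 0)
    {L : ℕ} (hL : L ≤ P.natDegree) {η : ℝ} (hη : 0 ≤ η) (hη' : 4 / 2 ^ L ≤ η ^ 2) :
    |𝔼 x : degreeLT F n, e (∑ i, ∑ z ∈ rts K (v i), ph (α i * x.1 + σ i) (w i) z)| ^
        2 ^ (Fintype.card J * 3) ≤
      4 * (2 ^ (Fintype.card J * 3) * Fintype.card I) / 2 ^ L + η := by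
  classical
  have : Fact (Irreducible P) := ⟨hPi⟩
  have : FiniteDimensional F (AdjoinRoot P) := (AdjoinRoot.powerBasis hP.ne_zero).finite
  have : Finite (AdjoinRoot P) := Module.finite_of_finite F
  letI : Fintype (AdjoinRoot P) := Fintype.ofFinite _
  have : CharP (AdjoinRoot P) 2 :=
    charP_of_injective_algebraMap (algebraMap F (AdjoinRoot P)).injective 2
  have hcard : (2 : ℝ) ^ L ≤ Fintype.card (AdjoinRoot P) := by
    rw [Module.card_eq_pow_finrank (K := F), (AdjoinRoot.powerBasis hP.ne_zero).finrank,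
      AdjoinRoot.powerBasis_dim]
    exact_mod_cast (Nat.pow_le_pow_right two_pos hL).trans
      (Nat.pow_le_pow_left Fintype.one_lt_card _)
  set τ := AdjoinRoot.root P with hτ
  have hev : ∀ g : F[X], aeval τ g = 0 ↔ P ∣ g := fun g => by
    rw [hτ, AdjoinRoot.aeval_eq, AdjoinRoot.mk_eq_zero]
  set θ : J × Fin 3 → degreeLT F ρ →+ degreeLT F n := fun j => mulLT (Q j.1) (hQn j.1) with hθ
  set T : Finset I := univ.filter fun i => P ∣ v i with hT
  set ψ : AdjoinRoot P → ℝ := fun z => e (algebraMap F K (Algebra.trace F (AdjoinRoot P) z))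
    with hψ
  have h1 := vdc e he.add θ
    (fun x : degreeLT F n => ∑ i, ∑ z ∈ rts K (v i), ph (α i * x.1 + σ i) (w i) z) univ
  rw [card_univ, Fintype.card_prod, Fintype.card_fin] at h1
  have hα₀ : aeval τ (α i₀) ≠ 0 := fun h => hα i₀ ((hev _).1 h)
  have h2 := local_bound (ψ := ψ) (fun a b => by simp only [hψ, map_add, he.add])
    (fun a => he.abs_le _)
    (fun a => by
      simp only [hψ]
      rw [← he.sq_algebraMap (Algebra.trace F _ a), map_pow (algebraMap F K),
        trace_eq_sum_embeddings K, trace_eq_sum_embeddings K, CharTwo.sum_sq]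
      simp only [map_pow])
    (by
      obtain ⟨ν, hν⟩ := he.exists_neg
      obtain ⟨z, rfl⟩ := Algebra.trace_surjective F (AdjoinRoot P) ν
      exact ⟨z, hν⟩)
    (evLT n τ) (dvLT n τ)
    (fun z => by
      obtain ⟨y, hy⟩ := exists_rep hP (ρ := n) (by omega) one_ne_zero z
      exact ⟨y, by rw [evLT_apply, ← hy, one_mul]⟩)
    θ (fun j z => by
      obtain ⟨y, hy⟩ := exists_rep hP hρ (c := aeval τ (Q j.1)) (fun h => hQ _ ((hev _).1 h)) z
      exact ⟨y, by rw [AddMonoidHom.comp_apply, evLT_apply, hθ, mulLT_apply, map_mul, hy]⟩)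
    (mulLT P hn) (fun r => by rw [evLT_apply, mulLT_apply, hev]; exact dvd_mul_right _ _)
    (fun z => by
      obtain ⟨y, hy⟩ := exists_rep hP hρ (c := aeval τ (derivative P)) (fun h => hPi.not_isUnit
        (IsCoprime.isUnit_of_dvd (PerfectField.separable_of_irreducible hPi) ((hev _).1 h))) z
      refine ⟨y, ?_⟩
      rw [AddMonoidHom.comp_apply, dvLT_apply, mulLT_apply, derivative_mul, map_add, map_mul,
        map_mul, (hev P).2 dvd_rfl, zero_mul, add_zero, hy])
    T (fun i z => (aeval τ (derivative (α i)) * z + aeval τ (derivative (σ i))) ^ 2 +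
      τ * aeval τ (derivative (w i)) ^ 2) (fun i => aeval τ (α i))
    (fun i => aeval τ (derivative (w i)) ^ 4) (fun i => aeval τ (σ i))
    (fun i _ h => hα i ((hev _).1 h)) (i₀ := i₀) (by simpa [hT] using hi₀)
    (pow_ne_zero _ fun h => hw ((hev _).1 h)) (z₀ := -aeval τ (σ i₀) / aeval τ (α i₀))
    (by field_simp; ring)
    (fun i hi hne h => hασ i hne (by simpa [hT] using hi) (by
      rw [← hev, map_sub, map_mul, map_mul]
      field_simp at h
      linear_combination -h))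
    hη (le_trans (by gcongr) hη')
  refine h1.trans (le_trans (le_of_eq ?_) (h2.trans ?_))
  · refine Finset.expect_congr rfl fun y _ => ?_
    congr 1
    refine Finset.expect_congr rfl fun x _ => ?_
    simp only [hψ]
    congr 1
    have e1 : ∀ (s : Finset (J × Fin 3)) (φ : I → K → degreeLT F n → K),
        cube s (fun j => θ j (y j)) (fun x => ∑ i, ∑ z ∈ rts K (v i), φ i z x) x =
        ∑ i, ∑ z ∈ rts K (v i), cube s (fun j => θ j (y j)) (φ i z) x := by
      intro s φ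
      unfold cube
      rw [Finset.sum_comm]
      exact Finset.sum_congr rfl fun i _ => Finset.sum_comm
    rw [e1 univ fun i z x => ph (α i * x.1 + σ i) (w i) z]
    have e2 : ∀ i, ∑ z ∈ rts K (v i), cube univ (fun j => θ j (y j))
        (fun x : degreeLT F n => ph (α i * x.1 + σ i) (w i) z) x =
        if P ∣ v i then ∑ z ∈ rts K P, cube univ (fun j => θ j (y j))
          (fun x : degreeLT F n => ph (α i * x.1 + σ i) (w i) z) x else 0 := by
      intro i
      have kill : ∀ z ∈ rts K (v i), aeval z P ≠ 0 → cube univ (fun j => θ j (y j))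
          (fun x : degreeLT F n => ph (α i * x.1 + σ i) (w i) z) x = 0 := by
        intro z hz hzP
        obtain ⟨j, hj⟩ := hcov i z ((mem_rts (hv i)).1 hz) hzP
        refine cube_eq_zero (subset_univ {(j, 0), (j, 1), (j, 2)}) _ _ (fun x => ?_) x
        have hz0 : ∀ l, evLT n z (θ (j, l) (y (j, l))) = 0 := fun l => by
          rw [evLT_apply, hθ, mulLT_apply, map_mul, hj, zero_mul]
        simp only [ph_eq]
        exact cube_three (evLT n z) (dvLT n z) (fun j => θ j (y j)) (i := (j, 0)) (j := (j, 1))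
          (l := (j, 2)) (by simp) (by simp) (by simp) (hz0 0) (hz0 1)
          (hz0 2) (fun a => (aeval z (derivative (α i)) * a + aeval z (derivative (σ i))) ^ 2 +
            z * aeval z (derivative (w i)) ^ 2)
          (fun a => aeval z (derivative (w i)) ^ 4 * (aeval z (α i) * a + aeval z (σ i)) ^ 2) _ x
      split_ifs with h
      · symm
        refine Finset.sum_subset (fun z hz => ?_) fun z hz hz' =>
          kill z hz fun h0 => hz' ((mem_rts hP.ne_zero).2 h0)
        obtain ⟨c, hc⟩ := h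
        rw [mem_rts (hv i), hc, map_mul, (mem_rts hP.ne_zero).1 hz, zero_mul]
      · exact Finset.sum_eq_zero fun z hz => kill z hz fun h0 =>
          aeval_ne_zero_of_not_dvd hPi h0 h ((mem_rts (hv i)).1 hz)
    simp only [e2]
    rw [← Finset.sum_filter, ← hT]
    unfold cube
    simp only [map_sum]
    rw [Finset.sum_comm (s := powerset univ)]
    refine Finset.sum_congr rfl fun i _ => ?_
    rw [Finset.sum_comm]
    refine Finset.sum_congr rfl fun ω _ => ?_
    rw [sum_rts_eq_trace, ph_eq]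
    rfl
  · rw [Fintype.card_prod, Fintype.card_fin]
    have : (T.card : ℝ) ≤ Fintype.card I := by exact_mod_cast card_le_univ T
    gcongr

theorem key {I J : Type*} [Fintype I] [Fintype J] (α σ u v : I → F[X]) (hu : ∀ i, (u i).Monic)
    (hv : ∀ i, (v i).Monic) (hsep : ∀ i, (v i).Separable) (huv : ∀ i, IsCoprime (u i) (v i))
    (huα : ∀ i, u i ^ 2 ∣ α i) {P : F[X]} (hP : P.Monic) (hPi : Irreducible P) {i₀ : I}
    (hi₀ : P ∣ v i₀) (hα : ∀ i, ¬ P ∣ α i)
    (hασ : ∀ i, i ≠ i₀ → P ∣ v i → ¬ P ∣ α i * σ i₀ - α i₀ * σ i) (Q : J → F[X])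
    (hQ : ∀ j, ¬ P ∣ Q j) {ρ n : ℕ} (hQn : ∀ j, (Q j).natDegree + ρ ≤ n)
    (hρ : P.natDegree ≤ ρ) (hn : P.natDegree + ρ ≤ n)
    (hcov : ∀ i, ∀ R, Irreducible R → R ∣ v i → R ∣ P ∨ ∃ j, R ∣ Q j)
    (hd : ∀ i, ∀ x : degreeLT F n, (α i * x.1 + σ i).natDegree ≤ (u i * v i).natDegree)
    {L : ℕ} (hL : L ≤ P.natDegree) {η B : ℝ} (hη : 0 ≤ η) (hη' : 4 / 2 ^ L ≤ η ^ 2) (hB : 0 ≤ B)
    (hB' : 4 * (2 ^ (Fintype.card J * 3) * Fintype.card I) / 2 ^ L + η ≤
      B ^ 2 ^ (Fintype.card J * 3)) :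
    |𝔼 x : degreeLT F n, ∏ i, (liou ((α i * x.1 + σ i) ^ 2 + X * (u i * v i) ^ 2) : ℝ)| ≤
      2 * 𝔼 x : degreeLT F n, ind (∃ i, ¬ IsCoprime (α i * x.1 + σ i) (v i)) + B := by
  obtain ⟨e, he⟩ := exists_isChar F (AlgebraicClosure F)
  choose δ α' σ' u' h₁ h₂ h₃ h₄ using fun i =>
    cmp_three he (σ := σ i) (hu i) (hv i) (hsep i) (huv i) (huα i)
  have h5 := phase_bound he α' σ' (fun i => u' i * v i) v (fun i => (hv i).ne_zero) hP hPi hi₀
    (fun h => by
      rw [derivative_mul, dvd_add_right (hi₀.mul_left _)] at h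
      rcases hPi.prime.dvd_or_dvd h with h | h
      · exact hPi.not_isUnit ((huv i₀).isUnit_of_dvd' (h₃ i₀ ▸ h.mul_left _) hi₀)
      · exact hPi.not_isUnit (IsCoprime.isUnit_of_dvd' (hsep i₀) hi₀ h))
    (fun i h => hα i (h₁ i ▸ h.mul_left _))
    (fun i hi hvi h => hασ i hi hvi (by
      rw [h₁ i, h₁ i₀, h₂ i, h₂ i₀]
      convert h.mul_left (δ i * δ i₀) using 1
      ring))
    Q hQ hQn hρ hn
    (fun i t ht htP => by
      have hint : IsIntegral F t := ⟨v i, hv i, ht⟩
      rcases hcov i _ (minpoly.irreducible hint) (minpoly.dvd F t ht) with h | ⟨j, h⟩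
      · exact absurd (minpoly.dvd_iff.1 h) htP
      · exact ⟨j, minpoly.dvd_iff.1 h⟩)
    hL hη hη'
  refine (abs_expect_le_of_good _ (fun x : degreeLT F n => e (∑ i, ∑ z ∈ rts _ (v i),
    ph (α' i * x.1 + σ' i) (u' i * v i) z)) _ (fun x => ?_) (fun x => he.sign _)
    (fun x y hx hy => ?_)).trans (add_le_add le_rfl ?_)
  · refine Finset.prod_induction _ (fun a : ℝ => a = 1 ∨ a = -1) ?_ (Or.inl rfl) fun i _ => ?_
    · rintro a b (rfl | rfl) (rfl | rfl) <;> simp
    · exact_mod_cast liou_cases _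
  · push Not at hx hy
    rw [he.sum, he.sum, ← Finset.prod_mul_distrib, ← Finset.prod_mul_distrib]
    refine Finset.prod_congr rfl fun i _ => ?_
    exact h₄ i x y (hd i x) (hd i y) (hx i) (hy i)
  · exact (pow_le_pow_iff_left₀ (abs_nonneg _) hB (by positivity)).1 (h5.trans hB')

end Pool.Agent.MP_4fffd4_nt
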