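import Mathlib
import Pool.Agent.MP_4fffd4_nt.Key

/- Counting polynomials with exceptional factorisations. -/

set_option autoImplicit false

namespace Pool.Agent.MP_4fffd4_nt

open Polynomial Finset
open scoped BigOperators

variable {F : Type*} [Field F] [Fintype F]

variable (F) in
/-- Polynomials of degree less than `n`. -/
noncomputable def ltF (n : ℕ) : Finset F[X] :=
  univ.map ⟨fun y : degreeLT F n => y.1, Subtype.val_injective⟩

variable (F) in
/-- Monic polynomials of degree `n`. -/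
noncomputable def monF (n : ℕ) : Finset F[X] :=
  univ.map ⟨fun y : degreeLT F n => X ^ n + y.1, fun _ _ h => Subtype.ext (add_left_cancel h)⟩

theorem card_ltF (n : ℕ) : (ltF F n).card = Fintype.card F ^ n := by
  rw [ltF, card_map, card_univ, card_degreeLT]

theorem card_monF (n : ℕ) : (monF F n).card = Fintype.card F ^ n := by
  rw [monF, card_map, card_univ, card_degreeLT]

theorem mem_ltF {n : ℕ} {g : F[X]} : g ∈ ltF F n ↔ g.degree < n := by
  simp only [ltF, mem_map, mem_univ, true_and, Function.Embedding.coeFn_mk]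
  exact ⟨fun ⟨y, hy⟩ => hy ▸ mem_degreeLT.1 y.2, fun h => ⟨⟨g, mem_degreeLT.2 h⟩, rfl⟩⟩

omit [Fintype F] in
theorem monic_add_LT {n : ℕ} (y : degreeLT F n) :
    (X ^ n + y.1).Monic ∧ (X ^ n + y.1).natDegree = n := by
  have hd := mem_degreeLT.1 y.2
  exact ⟨monic_X_pow_add hd, by
    rw [natDegree_add_eq_left_of_degree_lt (by rwa [degree_X_pow]), natDegree_X_pow]⟩

theorem mem_monF {n : ℕ} {g : F[X]} : g ∈ monF F n ↔ g.Monic ∧ g.natDegree = n := by
  simp only [monF, mem_map, mem_univ, true_and, Function.Embedding.coeFn_mk]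
  refine ⟨fun ⟨y, hy⟩ => hy ▸ monic_add_LT y, fun ⟨h1, h2⟩ => ⟨⟨g - X ^ n, mem_degreeLT.2 ?_⟩, by
    simp⟩⟩
  have h3 : g.degree = n := by rw [degree_eq_natDegree h1.ne_zero, h2]
  rw [← h3]
  exact degree_sub_lt (by rw [h3, degree_X_pow]) h1.ne_zero (by simp [h1])

theorem sum_monF {M : Type*} [AddCommMonoid M] (n : ℕ) (G : F[X] → M) :
    ∑ g ∈ monF F n, G g = ∑ y : degreeLT F n, G (X ^ n + y.1) := Finset.sum_map _ _ _

theorem two_le_card : (2 : ℝ) ≤ Fintype.card F := by exact_mod_cast Fintype.one_lt_card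

theorem card_pos' : (0 : ℝ) < Fintype.card F := two_pos.trans_le two_le_card

theorem geom_tail (L M : ℕ) : ∑ d ∈ Ico (L + 1) M, (1 / (Fintype.card F : ℝ) ^ d) ≤ 1 / 2 ^ L := by
  refine (Finset.sum_le_sum (g := fun d => (1 / 2 : ℝ) ^ d) fun d _ => ?_).trans
    ((geom_sum_Ico_le_of_lt_one (by norm_num) (by norm_num)).trans_eq ?_)
  · rw [one_div_pow]
    have := two_le_card (F := F)
    gcongr
  · rw [one_div_pow, pow_succ]
    field_simp
    norm_num

variable {α : Type*} [Fintype α]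

theorem sum_dvd_monic (W : α → F[X]) (hinj : Function.Injective W) {m : ℕ}
    (hW : ∀ x, (W x).Monic ∧ (W x).natDegree = m) {δ : F[X]} (hδ : δ.Monic) :
    ∑ x, ind (δ ∣ W x) ≤ (Fintype.card F : ℝ) ^ m / Fintype.card F ^ δ.natDegree := by
  have hq := card_pos' (F := F)
  by_cases h : δ.natDegree ≤ m
  · refine (sum_ind_le (monF F (m - δ.natDegree)) (fun x => W x /ₘ δ) ?_ ?_).trans_eq ?_
    · rintro x y ⟨g, hg⟩ ⟨g', hg'⟩ e
      apply hinj
      rw [hg, hg', mul_divByMonic_cancel_left _ hδ, mul_divByMonic_cancel_left _ hδ] at e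
      rw [hg, hg', e]
    · rintro x ⟨g, hg⟩
      rw [mem_monF, hg, mul_divByMonic_cancel_left _ hδ]
      have hg' := hδ.of_mul_monic_left (hg ▸ (hW x).1)
      exact ⟨hg', by rw [← (hW x).2, hg, hδ.natDegree_mul hg']; omega⟩
    · rw [card_monF, Nat.cast_pow, pow_sub₀ _ hq.ne' h, div_eq_mul_inv]
  · rw [Finset.sum_eq_zero fun x _ => ind_neg fun hx =>
      h ((hW x).2 ▸ natDegree_le_of_dvd hx (hW x).1.ne_zero)]
    positivity

theorem sum_dvd_lt (S : α → F[X]) (hinj : Function.Injective S) {n : ℕ}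
    (hS : ∀ x, (S x).degree < n) {δ : F[X]} (hδ : δ.Monic) (h : δ.natDegree ≤ n) :
    ∑ x, ind (δ ∣ S x) ≤ (Fintype.card F : ℝ) ^ n / Fintype.card F ^ δ.natDegree := by
  have hq := card_pos' (F := F)
  refine (sum_ind_le (ltF F (n - δ.natDegree)) (fun x => S x /ₘ δ) ?_ ?_).trans_eq ?_
  · rintro x y ⟨g, hg⟩ ⟨g', hg'⟩ e
    apply hinj
    rw [hg, hg', mul_divByMonic_cancel_left _ hδ, mul_divByMonic_cancel_left _ hδ] at e
    rw [hg, hg', e]
  · rintro x ⟨g, hg⟩
    rw [mem_ltF, hg, mul_divByMonic_cancel_left _ hδ]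
    by_cases h0 : g = 0
    · rw [h0, degree_zero]; exact WithBot.bot_lt_coe _
    have := (natDegree_lt_iff_degree_lt (mul_ne_zero hδ.ne_zero h0)).2 (hg ▸ hS x)
    rw [hδ.natDegree_mul' h0] at this
    exact (natDegree_lt_iff_degree_lt h0).1 (by omega)
  · rw [card_ltF, Nat.cast_pow, pow_sub₀ _ hq.ne' h, div_eq_mul_inv]

theorem sum_sq_dvd (W : α → F[X]) (hinj : Function.Injective W) {m : ℕ}
    (hW : ∀ x, (W x).Monic ∧ (W x).natDegree = m) (L : ℕ) :
    ∑ x, ind (∃ δ : F[X], δ.Monic ∧ L < δ.natDegree ∧ δ ^ 2 ∣ W x) ≤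
      (Fintype.card F : ℝ) ^ m / 2 ^ L := by
  have hq := card_pos' (F := F)
  calc _ ≤ ∑ x, ∑ d ∈ Ico (L + 1) (m + 1), ∑ δ ∈ monF F d, ind (δ ^ 2 ∣ W x) := by
        refine Finset.sum_le_sum fun x _ => ?_
        rw [Finset.sum_sigma']
        refine ind_le_sum ?_
        rintro ⟨δ, h1, h2, h3⟩
        have := natDegree_le_of_dvd h3 (hW x).1.ne_zero
        rw [h1.natDegree_pow, (hW x).2] at this
        exact ⟨⟨δ.natDegree, δ⟩, by simp [mem_monF, h1]; omega, h3⟩
    _ ≤ ∑ d ∈ Ico (L + 1) (m + 1), (Fintype.card F : ℝ) ^ m * (1 / Fintype.card F ^ d) := by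
        rw [Finset.sum_comm]
        refine Finset.sum_le_sum fun d _ => ?_
        rw [Finset.sum_comm]
        refine (Finset.sum_le_card_nsmul _ _ ((Fintype.card F : ℝ) ^ m / Fintype.card F ^ (2 * d))
          fun δ hδ => ?_).trans_eq ?_
        · obtain ⟨h1, h2⟩ := mem_monF.1 hδ
          have := sum_dvd_monic W hinj hW (h1.pow 2)
          rwa [h1.natDegree_pow, h2] at this
        · rw [card_monF, nsmul_eq_mul]
          push_cast
          field_simp
          ring
    _ ≤ _ := by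
        rw [← Finset.mul_sum, div_eq_mul_one_div]
        exact mul_le_mul_of_nonneg_left (geom_tail _ _) (by positivity)

theorem sum_common_dvd {β : Type*} [Fintype β] (W : α → F[X]) (hinj : Function.Injective W) {m : ℕ}
    (hW : ∀ x, (W x).Monic ∧ (W x).natDegree = m) (S : β → F[X]) (hinj' : Function.Injective S)
    (hS : ∀ y, (S y).degree < (m + 1 : ℕ)) (L : ℕ) :
    ∑ x, ∑ y, ind (∃ δ : F[X], δ.Monic ∧ L < δ.natDegree ∧ δ ∣ W x ∧ δ ∣ S y) ≤
      (Fintype.card F : ℝ) ^ m * Fintype.card F ^ (m + 1) / 2 ^ L := by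
  have hq := card_pos' (F := F)
  calc _ ≤ ∑ x, ∑ y, ∑ d ∈ Ico (L + 1) (m + 1), ∑ δ ∈ monF F d,
          ind (δ ∣ W x) * ind (δ ∣ S y) := by
        refine Finset.sum_le_sum fun x _ => Finset.sum_le_sum fun y _ => ?_
        rw [Finset.sum_sigma']
        refine (ind_le_sum (s := (Ico (L + 1) (m + 1)).sigma (monF F))
          (Q := fun δ => δ.2 ∣ W x ∧ δ.2 ∣ S y) ?_).trans (Finset.sum_le_sum fun δ _ => ?_)
        · rintro ⟨δ, h1, h2, h3, h4⟩
          have := natDegree_le_of_dvd h3 (hW x).1.ne_zero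
          rw [(hW x).2] at this
          exact ⟨⟨δ.natDegree, δ⟩, by simp [mem_monF, h1]; omega, h3, h4⟩
        · by_cases h : δ.2 ∣ W x ∧ δ.2 ∣ S y
          · rw [ind_pos h, ind_pos h.1, ind_pos h.2, one_mul]
          · rw [ind_neg h]; exact mul_nonneg (ind_nonneg _) (ind_nonneg _)
    _ = ∑ d ∈ Ico (L + 1) (m + 1), ∑ δ ∈ monF F d,
          (∑ x, ind (δ ∣ W x)) * ∑ y, ind (δ ∣ S y) := by
        simp only [Finset.sum_mul_sum]
        rw [Finset.sum_congr rfl fun x _ => Finset.sum_comm, Finset.sum_comm]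
        refine Finset.sum_congr rfl fun d _ => ?_
        rw [Finset.sum_congr rfl fun x _ => Finset.sum_comm, Finset.sum_comm]
    _ ≤ ∑ d ∈ Ico (L + 1) (m + 1), (Fintype.card F : ℝ) ^ m * Fintype.card F ^ (m + 1) *
          (1 / Fintype.card F ^ d) := by
        refine Finset.sum_le_sum fun d hd => ?_
        refine (Finset.sum_le_card_nsmul _ _ ((Fintype.card F : ℝ) ^ m / Fintype.card F ^ d *
          ((Fintype.card F : ℝ) ^ (m + 1) / Fintype.card F ^ d)) fun δ hδ => ?_).trans_eq ?_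
        · obtain ⟨h1, rfl⟩ := mem_monF.1 hδ
          exact mul_le_mul (sum_dvd_monic W hinj hW h1)
            (sum_dvd_lt S hinj' hS h1 (mem_Ico.1 hd).2.le)
            (Finset.sum_nonneg fun _ _ => ind_nonneg _) (by positivity)
        · rw [card_monF, nsmul_eq_mul]
          push_cast
          field_simp
    _ ≤ _ := by
        rw [← Finset.mul_sum, div_eq_mul_one_div]
        exact mul_le_mul_of_nonneg_left (geom_tail _ _) (by positivity)

/-- All irreducible factors have degree larger than `L`. -/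
def Rough (L : ℕ) (v : F[X]) : Prop :=
  ∀ P : F[X], P.Monic → Irreducible P → P ∣ v → L < P.natDegree

variable (F) in
/-- The product of the monic polynomials of degree at most `L`. -/
noncomputable def smallProd (L : ℕ) : F[X] := ∏ d ∈ range (L + 1), ∏ g ∈ monF F d, g

theorem monic_smallProd (L : ℕ) : (smallProd F L).Monic :=
  monic_prod_of_monic _ _ fun _ _ => monic_prod_of_monic _ _ fun _ hg => (mem_monF.1 hg).1

theorem dvd_smallProd {L : ℕ} {g : F[X]} (hg : g.Monic) (h : g.natDegree ≤ L) :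
    g ∣ smallProd F L :=
  (Finset.dvd_prod_of_mem (fun g => g) (mem_monF.2 ⟨hg, rfl⟩)).trans
    (Finset.dvd_prod_of_mem (fun d => ∏ g ∈ monF F d, g) (mem_range.2 (by omega)))

theorem le_of_dvd_smallProd {L : ℕ} {P : F[X]} (hP : Irreducible P) (h : P ∣ smallProd F L) :
    P.natDegree ≤ L := by
  obtain ⟨d, hd, h⟩ := (hP.prime.dvd_finset_prod_iff _).1 h
  obtain ⟨g, hg, h⟩ := (hP.prime.dvd_finset_prod_iff _).1 h
  obtain ⟨h1, h2⟩ := mem_monF.1 hg
  have := natDegree_le_of_dvd h h1.ne_zero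
  have := mem_range.1 hd
  omega

omit [Fintype F] in
theorem isCoprime_of_monic {a b : F[X]} (hb : b ≠ 0)
    (h : ∀ P : F[X], P.Monic → Irreducible P → P ∣ a → ¬ P ∣ b) : IsCoprime a b := by
  refine isCoprime_of_irreducible_dvd (fun h => hb h.2) fun z hz ha hb => ?_
  obtain ⟨P, h1, h2, h3⟩ := exists_monic_irreducible_factor z hz.not_isUnit
  exact h P h1 h2 (h3.trans ha) (h3.trans hb)

theorem rough_count (L : ℕ) : ∃ j₀ : ℕ, ∀ j, j₀ ≤ j →
    ∑ v ∈ monF F j, ind (Rough L v) ≤ (Fintype.card F : ℝ) ^ j / (L + 1) := by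
  classical
  have hq := card_pos' (F := F)
  set M := smallProd F L with hM
  have hMm : M.Monic := monic_smallProd L
  have := hMm.finite_adjoinRoot
  have : Finite (AdjoinRoot M) := Module.finite_of_finite F
  letI : Fintype (AdjoinRoot M) := Fintype.ofFinite _
  set r : ℝ := 𝔼 z : AdjoinRoot M, ind (∃ v, AdjoinRoot.mk M v = z ∧ Rough L v) with hr
  have h1 : ∀ j, M.natDegree ≤ j → ∑ v ∈ monF F j, ind (Rough L v) = Fintype.card F ^ j * r := by
    intro j hj
    rw [sum_monF, ← Fintype.card_mul_expect, card_degreeLT, Nat.cast_pow, hr,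
      ← expect_shift _ (AdjoinRoot.mk M (X ^ j)),
      ← expect_surj ((AdjoinRoot.mk M).toAddMonoidHom.comp (degreeLT F j).subtype.toAddMonoidHom)]
    · congr 1
      refine Finset.expect_congr rfl fun y _ => congrArg ind (propext ⟨fun h => ⟨_, ?_, h⟩, ?_⟩)
      · rw [map_add, add_comm]; rfl
      · rintro ⟨v, hv, h⟩ P hP hPi hd
        by_contra hL
        refine hL (h P hP hPi ?_)
        have h2 : M ∣ v - (X ^ j + y.1) := AdjoinRoot.mk_eq_mk.1 (by
          rw [hv, map_add, add_comm]; rfl)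
        simpa using dvd_add ((dvd_smallProd hP (not_lt.1 hL)).trans h2) hd
    · intro z
      obtain ⟨y, rfl⟩ := AdjoinRoot.mk_surjective z
      exact ⟨⟨y %ₘ M, mem_degreeLT.2 ((degree_modByMonic_lt _ hMm).trans_le
        (degree_le_natDegree.trans (by exact_mod_cast hj)))⟩,
        AdjoinRoot.mk_eq_mk.2 (show M ∣ y %ₘ M - y from
          ⟨-(y /ₘ M), by linear_combination modByMonic_add_div y M⟩)⟩
  refine ⟨M.natDegree, fun j hj => ?_⟩
  rw [h1 j hj, div_eq_mul_one_div]
  refine mul_le_mul_of_nonneg_left ?_ (by positivity)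
  set n := M.natDegree + L with hn
  have h2 : ((range (L + 1)).sigma fun d => monF F d ×ˢ (monF F (n - d)).filter (Rough L)).card ≤
      (monF F n).card := by
    refine Finset.card_le_card_of_injOn (fun x => x.2.1 * x.2.2) ?_ ?_
    · rintro ⟨d, g, v⟩ hx
      simp only [coe_sigma, Set.mem_sigma_iff, mem_coe, mem_range, mem_product, mem_filter,
        mem_monF] at hx ⊢
      obtain ⟨a, ⟨b, c⟩, ⟨e, f⟩, -⟩ := hx
      exact ⟨b.mul e, by rw [b.natDegree_mul e]; omega⟩
    · rintro ⟨d, g, v⟩ hx ⟨d', g', v'⟩ hx' e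
      simp only [coe_sigma, Set.mem_sigma_iff, mem_coe, mem_range, mem_product, mem_filter,
        mem_monF] at hx hx' e
      obtain ⟨a, ⟨b, c⟩, ⟨e₁, -⟩, f⟩ := hx
      obtain ⟨a', ⟨b', c'⟩, ⟨e₁', -⟩, f'⟩ := hx'
      have k : ∀ g v : F[X], g.Monic → g.natDegree < L + 1 → v.Monic → Rough L v →
          IsCoprime g v := fun g v hg hgd hv hr => isCoprime_of_monic hv.ne_zero
        fun P hP hPi h1 h2 => by
          have := natDegree_le_of_dvd h1 hg.ne_zero
          have := hr P hP hPi h2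
          omega
      have hgg : g = g' := eq_of_monic_of_associated b b' (associated_of_dvd_dvd
        ((k g v' b (c ▸ a) e₁' f').dvd_of_dvd_mul_right (e ▸ dvd_mul_right _ _))
        ((k g' v b' (c' ▸ a') e₁ f).dvd_of_dvd_mul_right (e ▸ dvd_mul_right _ _)))
      subst hgg c c'
      rw [mul_left_cancel₀ b.ne_zero e]
  rw [card_sigma, card_monF, ← Nat.cast_le (α := ℝ), Nat.cast_sum, Nat.cast_pow,
    Finset.sum_congr rfl (g := fun _ => (Fintype.card F : ℝ) ^ n * r)] at h2
  · rw [Finset.sum_const, card_range, nsmul_eq_mul] at h2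
    push_cast at h2
    rw [le_div_iff₀ (by positivity)]
    refine le_of_mul_le_mul_left (a := (Fintype.card F : ℝ) ^ n) ?_ (by positivity)
    linarith
  · intro d hd
    have := mem_range.1 hd
    have h3 := h1 (n - d) (by omega)
    have h4 : (((monF F (n - d)).filter (Rough L)).card : ℝ) =
        ∑ v ∈ monF F (n - d), ind (Rough L v) := by
      rw [Finset.card_filter]
      push_cast
      exact Finset.sum_congr rfl fun x _ => by unfold ind; congr
    rw [card_product, card_monF, Nat.cast_mul, h4, h3, Nat.cast_pow, ← mul_assoc, ← pow_add]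
    congr 2
    omega

theorem sum_almost_rough (L D : ℕ) : ∃ j₀ : ℕ, ∀ m, j₀ ≤ m → ∀ {α : Type*} [Fintype α]
    (W : α → F[X]), Function.Injective W → (∀ x, (W x).Monic ∧ (W x).natDegree = m) →
    ∑ x, ind (∃ g v : F[X], g.Monic ∧ g.natDegree ≤ D ∧ W x = g * v ∧ Rough L v) ≤
      (Fintype.card F : ℝ) ^ m * ((D + 1) / (L + 1)) := by
  classical
  have hq := card_pos' (F := F)
  obtain ⟨j₀, hj₀⟩ := rough_count (F := F) L
  refine ⟨j₀ + D, fun m hm α _ W hinj hW => ?_⟩
  calc _ ≤ ∑ x, ∑ d ∈ range (D + 1), ∑ g ∈ monF F d, ind (∃ v, W x = g * v ∧ Rough L v) := by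
        refine Finset.sum_le_sum fun x _ => ?_
        rw [Finset.sum_sigma']
        refine ind_le_sum ?_
        rintro ⟨g, v, h1, h2, h3⟩
        exact ⟨⟨g.natDegree, g⟩, by simp [mem_monF, h1]; omega, v, h3⟩
    _ ≤ ∑ d ∈ range (D + 1), (Fintype.card F : ℝ) ^ m / (L + 1) := by
        rw [Finset.sum_comm]
        refine Finset.sum_le_sum fun d hd => ?_
        have hd' := mem_range.1 hd
        rw [Finset.sum_comm]
        refine (Finset.sum_le_card_nsmul _ _ ((Fintype.card F : ℝ) ^ (m - d) / (L + 1))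
          fun g hg => ?_).trans_eq ?_
        · obtain ⟨h1, h2⟩ := mem_monF.1 hg
          refine (sum_ind_le ((monF F (m - d)).filter (Rough L)) (fun x => W x /ₘ g) ?_ ?_).trans
            (le_trans (le_of_eq ?_) (hj₀ (m - d) (by omega)))
          · rintro x y ⟨v, hv, -⟩ ⟨v', hv', -⟩ e
            apply hinj
            rw [hv, hv', mul_divByMonic_cancel_left _ h1, mul_divByMonic_cancel_left _ h1] at e
            rw [hv, hv', e]
          · rintro x ⟨v, hv, hr⟩
            rw [mem_filter, mem_monF, hv, mul_divByMonic_cancel_left _ h1]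
            have hv' := h1.of_mul_monic_left (hv ▸ (hW x).1)
            exact ⟨⟨hv', by rw [← (hW x).2, hv, h1.natDegree_mul hv']; omega⟩, hr⟩
          · rw [Finset.card_filter]
            push_cast
            exact Finset.sum_congr rfl fun x _ => by unfold ind; congr
        · rw [card_monF, nsmul_eq_mul, Nat.cast_pow, ← mul_div_assoc, ← pow_add]
          congr 2
          omega
    _ = _ := by
        rw [Finset.sum_const, card_range, nsmul_eq_mul]
        push_cast
        ring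

end Pool.Agent.MP_4fffd4_nt
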