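import Mathlib
import Pool.Agent.MP_4fffd4_nt.Count

/- Cancellation for a modulus with a typical factorisation. -/

set_option autoImplicit false

namespace Pool.Agent.MP_4fffd4_nt

open Polynomial Finset
open scoped BigOperators

variable {F : Type*} [Field F]

theorem split_three {v P : F[X]} (hv : v ≠ 0) (hP : Irreducible P) (hsq : ¬ P * P ∣ v) {D : ℕ}
    (h1 : ∀ R : F[X], R.Monic → Irreducible R → R ∣ v → R.natDegree ≤ D)
    (h2 : v.natDegree ≤ 2 * D) :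
    ∃ Q : Fin 3 → F[X], (∀ l, ¬ P ∣ Q l) ∧ (∀ l, (Q l).natDegree ≤ D) ∧
      ∀ R, Irreducible R → R ∣ v → R ∣ P ∨ ∃ l, R ∣ Q l := by
  classical
  obtain ⟨v', hv', hP', hcov⟩ : ∃ v' : F[X], v' ∣ v ∧ ¬ P ∣ v' ∧ v ∣ P * v' := by
    by_cases h : P ∣ v
    · obtain ⟨c, rfl⟩ := h
      exact ⟨c, dvd_mul_left _ _, fun h => hsq (mul_dvd_mul_left _ h), dvd_rfl⟩
    · exact ⟨v, dvd_rfl, h, dvd_mul_left _ _⟩
  have hv'0 : v' ≠ 0 := ne_zero_of_dvd_ne_zero hv hv'
  have hd' := natDegree_le_of_dvd hv' hv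
  suffices ∃ a b c : F[X], v' = a * b * c ∧ a.natDegree ≤ D ∧ b.natDegree ≤ D ∧
      c.natDegree ≤ D by
    obtain ⟨a, b, c, rfl, ha, hb, hc⟩ := this
    refine ⟨![a, b, c], fun l h => hP' ?_, fun l => ?_, fun R hR hRv => ?_⟩
    · fin_cases l
      · exact (Dvd.dvd.mul_right h _).mul_right _
      · exact (Dvd.dvd.mul_left h _).mul_right _
      · exact Dvd.dvd.mul_left h _
    · fin_cases l
      exacts [ha, hb, hc]
    · rcases hR.prime.dvd_or_dvd (hRv.trans hcov) with h | h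
      · exact Or.inl h
      rcases hR.prime.dvd_or_dvd h with h | h
      · rcases hR.prime.dvd_or_dvd h with h | h
        · exact Or.inr ⟨0, h⟩
        · exact Or.inr ⟨1, h⟩
      · exact Or.inr ⟨2, h⟩
  obtain ⟨g, ⟨h, hgh⟩, hg⟩ := Nat.findGreatest_spec (P := fun d => ∃ g : F[X], g ∣ v' ∧
    g.natDegree = d) (Nat.zero_le D) ⟨1, one_dvd _, natDegree_one⟩
  have hgD : g.natDegree ≤ D := hg ▸ Nat.findGreatest_le D
  by_cases hu : IsUnit h
  · exact ⟨g, h, 1, by rw [mul_one, hgh], hgD, by rw [natDegree_eq_zero_of_isUnit hu]; omega,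
      by simp⟩
  obtain ⟨R, hRm, hR, h', rfl⟩ := exists_monic_irreducible_factor h hu
  have hg0 : g ≠ 0 := left_ne_zero_of_mul (hgh ▸ hv'0)
  have hh0 : h' ≠ 0 := right_ne_zero_of_mul (right_ne_zero_of_mul (hgh ▸ hv'0))
  have e1 : (g * R).natDegree = g.natDegree + R.natDegree := natDegree_mul hg0 hR.ne_zero
  have e2 : v'.natDegree = (g * R).natDegree + h'.natDegree := by
    rw [hgh, ← mul_assoc, natDegree_mul (mul_ne_zero hg0 hR.ne_zero) hh0]
  have e3 := hR.natDegree_pos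
  have e4 : D < (g * R).natDegree := by
    by_contra h
    exact Nat.findGreatest_is_greatest (P := fun d => ∃ g : F[X], g ∣ v' ∧ g.natDegree = d)
      (k := (g * R).natDegree) (by omega) (not_lt.1 h) ⟨g * R, ⟨h', by rw [hgh, mul_assoc]⟩, rfl⟩
  exact ⟨g, R, h', by rw [hgh, mul_assoc], hgD,
    h1 R hRm hR (Dvd.dvd.trans ⟨g * h', by rw [hgh]; ring⟩ hv'), by omega⟩

variable [Fintype F]

theorem exists_split {W : F[X]} (hW : W.Monic) {L : ℕ}
    (g1 : ¬ ∃ δ : F[X], δ.Monic ∧ L < δ.natDegree ∧ δ ^ 2 ∣ W) :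
    ∃ u v : F[X], u.Monic ∧ v.Monic ∧ W = u * v ∧ u ∣ smallProd F L ^ (2 * L + 2) ∧ Rough L v ∧
      Squarefree v := by
  classical
  obtain ⟨v, m, hv, hm, hc⟩ := extract_gcd W (smallProd F L ^ (2 * L + 2))
  have hu : (gcd W (smallProd F L ^ (2 * L + 2))).Monic := (normalize_eq_self_iff_monic
    (fun h => hW.ne_zero ((gcd_eq_zero_iff _ _).1 h).1)).1 (normalize_gcd _ _)
  rw [gcd_isUnit_iff] at hc
  generalize gcd W (smallProd F L ^ (2 * L + 2)) = u at hv hm hu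
  have hvm : v.Monic := hu.of_mul_monic_left (hv ▸ hW)
  have hr : Rough L v := by
    intro P hP hPi hd
    by_contra hL
    have h1 : P ^ (2 * L + 2) ∣ u * m := hm ▸ pow_dvd_pow_of_dvd (dvd_smallProd hP (not_lt.1 hL)) _
    have h2 : P ^ (2 * L + 2) ∣ u :=
      (hc.of_isCoprime_of_dvd_left hd).pow_left.dvd_of_dvd_mul_right h1
    refine g1 ⟨P ^ (L + 1), hP.pow _, ?_, ?_⟩
    · have := hPi.natDegree_pos
      rw [hP.natDegree_pow]
      nlinarith
    · rw [← pow_mul, hv, show (L + 1) * 2 = 2 * L + 2 by ring]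
      exact h2.mul_right _
  refine ⟨u, v, hu, hvm, hv, ⟨m, hm⟩, hr,
    (squarefree_iff_irreducible_sq_not_dvd_of_ne_zero hvm.ne_zero).2 fun z hz h => ?_⟩
  obtain ⟨P, h1, h2, h3⟩ := exists_monic_irreducible_factor z hz.not_isUnit
  refine g1 ⟨P, h1, hr P h1 h2 (h3.trans ((dvd_mul_right _ _).trans h)), ?_⟩
  rw [sq, hv]
  exact ((mul_dvd_mul h3 h3).trans h).mul_left _

variable [CharP F 2]

theorem good_bound {I : Type*} [Fintype I] (α σ W : I → F[X]) (hW : ∀ i, (W i).Monic) (i₀ : I)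
    {L L' L'' D D₁ D₂ n₀ : ℕ} (hα0 : ∀ i, α i ≠ 0) (hαL : ∀ i, (α i).natDegree ≤ L)
    (hcross : ∀ i, i ≠ i₀ → ∀ P, Irreducible P → L < P.natDegree → P ∣ W i → P ∣ W i₀ →
      ¬ P ∣ α i * σ i₀ - α i₀ * σ i)
    (hD₁ : (smallProd F L ^ (2 * L + 2)).natDegree = D₁)
    (g1 : ∀ i, ¬ ∃ δ : F[X], δ.Monic ∧ L < δ.natDegree ∧ δ ^ 2 ∣ W i)
    (g2 : ¬ ∃ g v : F[X], g.Monic ∧ g.natDegree ≤ D₁ ∧ W i₀ = g * v ∧ Rough L' v)
    (g3 : ∀ i, ¬ ∃ g v : F[X], g.Monic ∧ g.natDegree ≤ D₂ ∧ W i = g * v ∧ Rough L'' v)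
    (hn : 2 * D₁ + (D + L') ≤ n₀) (h1 : L'' ≤ D) (h2 : ∀ i, (W i).natDegree ≤ D + D₂)
    (h3 : ∀ i, (W i).natDegree ≤ 2 * D) (h4 : L' ≤ D)
    (hd : ∀ i, ∀ x : degreeLT F n₀, (α i * x.1 + σ i).natDegree ≤ (W i).natDegree)
    {η B : ℝ} (hη : 0 ≤ η) (hη' : 4 / 2 ^ L ≤ η ^ 2) (hB : 0 ≤ B)
    (hB' : 4 * (2 ^ (Fintype.card I * 3 * 3) * Fintype.card I) / 2 ^ L + η ≤
      B ^ 2 ^ (Fintype.card I * 3 * 3)) :
    |𝔼 x : degreeLT F n₀, ∏ i, (liou ((α i * x.1 + σ i) ^ 2 + X * W i ^ 2) : ℝ)| ≤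
      2 * 𝔼 x : degreeLT F n₀, ind (∃ i, ∃ δ : F[X], δ.Monic ∧ L < δ.natDegree ∧ δ ∣ W i ∧
        δ ∣ α i * x.1 + σ i) + B := by
  choose u v hu hv huv hud hr hsq using fun i => exists_split (hW i) (g1 i)
  set M := smallProd F L ^ (2 * L + 2) with hM
  have hMm : M.Monic := (monic_smallProd L).pow _
  have hPM : ∀ P, Irreducible P → P ∣ M → P.natDegree ≤ L := fun P hP h =>
    le_of_dvd_smallProd hP (hP.prime.dvd_of_dvd_pow h)
  obtain ⟨P, hP, hPi, hPv, hPL'⟩ : ∃ P : F[X], P.Monic ∧ Irreducible P ∧ P ∣ v i₀ ∧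
      P.natDegree ≤ L' := by
    by_contra h
    refine g2 ⟨u i₀, v i₀, hu i₀, hD₁ ▸ natDegree_le_of_dvd (hud i₀) hMm.ne_zero, huv i₀,
      fun P a b c => ?_⟩
    by_contra h'
    exact h ⟨P, a, b, c, not_lt.1 h'⟩
  have hPL : L < P.natDegree := hr i₀ P hP hPi hPv
  have hvW : ∀ i, v i ∣ W i := fun i => huv i ▸ dvd_mul_left _ _
  have hex := fun i => split_three (D := D) (hv i).ne_zero hPi
    (fun h => hPi.not_isUnit (hsq i P h)) (fun R hR hRi hd => by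
      obtain ⟨g, hg⟩ := hd.trans (hvW i)
      have hgm : g.Monic := hR.of_mul_monic_left (hg ▸ hW i)
      by_contra hD
      have e := h2 i
      rw [hg, hR.natDegree_mul hgm] at e
      refine g3 i ⟨g, R, hgm, by omega, by rw [hg, mul_comm], fun P' a b c => ?_⟩
      rw [eq_of_monic_of_associated a hR (b.associated_of_dvd hRi c)]
      omega) ((natDegree_le_of_dvd (hvW i) (hW i).ne_zero).trans (h3 i))
  choose Q hQ₁ hQ₂ hQ₃ using hex
  have hN : (M ^ 2).natDegree + (D + L') ≤ n₀ := by rw [hMm.natDegree_pow, hD₁]; exact hn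
  have hPN : ¬ P ∣ M ^ 2 := fun h => by
    have := hPM P hPi (hPi.prime.dvd_of_dvd_pow h)
    omega
  rw [expect_avg _ (mulLT (M ^ 2) hN), expect_avg (fun x : degreeLT F n₀ => ind _)
    (mulLT (M ^ 2) hN), Finset.mul_expect, ← Fintype.expect_const (ι := degreeLT F n₀) B,
    ← Finset.expect_add_distrib]
  refine (Finset.abs_expect_le _ _).trans (Finset.expect_le_expect fun r _ => ?_)
  have e : ∀ i (x : degreeLT F (D + L')), α i * (r + mulLT (M ^ 2) hN x).1 + σ i =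
      α i * M ^ 2 * x.1 + (α i * r.1 + σ i) := by
    intro i x
    rw [Submodule.coe_add, mulLT_apply]
    ring
  have := key (J := I × Fin 3) (fun i => α i * M ^ 2) (fun i => α i * r.1 + σ i) u v hu hv
    (fun i => PerfectField.separable_iff_squarefree.2 (hsq i))
    (fun i => isCoprime_of_monic (hv i).ne_zero fun R hR hRi a b => by
      have := hPM R hRi (a.trans (hud i))
      have := hr i R hR hRi b
      omega)
    (fun i => (pow_dvd_pow_of_dvd (hud i) 2).mul_left _) hP hPi hPv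
    (fun i h => by
      rcases hPi.prime.dvd_or_dvd h with h | h
      · have := natDegree_le_of_dvd h (hα0 i)
        have := hαL i
        omega
      · exact hPN h)
    (fun i hi hvi h => by
      rw [show α i * M ^ 2 * (α i₀ * r.1 + σ i₀) - α i₀ * M ^ 2 * (α i * r.1 + σ i) =
        M ^ 2 * (α i * σ i₀ - α i₀ * σ i) by ring] at h
      rcases hPi.prime.dvd_or_dvd h with h | h
      · exact hPN h
      · exact hcross i hi P hPi hPL (hvi.trans (hvW i)) (hPv.trans (hvW i₀)) h)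
    (fun j => Q j.1 j.2) (fun j => hQ₁ _ _) (ρ := L') (n := D + L')
    (fun j => by have := hQ₂ j.1 j.2; omega) hPL' (by omega)
    (fun i R hR hd => (hQ₃ i R hR hd).imp_right fun ⟨l, hl⟩ => ⟨(i, l), hl⟩)
    (fun i x => by rw [← e, ← huv]; exact hd i _) hPL.le hη hη' hB
    (by rwa [Fintype.card_prod, Fintype.card_fin])
  simp only [e, ← huv] at this ⊢
  refine this.trans (add_le_add (mul_le_mul_of_nonneg_left
    (Finset.expect_le_expect fun x _ => ind_mono ?_) two_pos.le) le_rfl)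
  rintro ⟨i, hi⟩
  by_contra h
  exact hi (isCoprime_of_monic (hv i).ne_zero fun R hR hRi a b =>
    h ⟨i, R, hR, hr i R hR hRi b, b.trans (hvW i), a⟩)

end Pool.Agent.MP_4fffd4_nt
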