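import Mathlib
import Pool.Agent.MP_4fffd4_nt.Good

/- Cancellation on average over both variables. -/

set_option autoImplicit false

namespace Pool.Agent.MP_4fffd4_nt

open Polynomial Finset Filter Topology
open scoped BigOperators

theorem eventually_div_two_pow (c : ℝ) {ε : ℝ} (hε : 0 < ε) : ∀ᶠ L : ℕ in atTop, c / 2 ^ L ≤ ε :=
  ((tendsto_pow_atTop_atTop_of_one_lt one_lt_two).const_div_atTop c).eventually
    (eventually_le_nhds hε)

theorem exists_div_succ (c : ℝ) {ε : ℝ} (hε : 0 < ε) : ∃ L : ℕ, c / (L + 1) ≤ ε :=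
  (((tendsto_natCast_atTop_atTop (R := ℝ)).atTop_add tendsto_const_nhds).const_div_atTop
    c).eventually (eventually_le_nhds hε) |>.exists

variable {F : Type*} [Field F] [Fintype F]

theorem expect_le_of_sum {m m' A : ℕ} (h : m' ≤ m + A) {G : degreeLT F m → ℝ} {c : ℝ}
    (hc : 0 ≤ c) (hG : ∑ y, G y ≤ (Fintype.card F : ℝ) ^ m' * c) :
    𝔼 y, G y ≤ (Fintype.card F : ℝ) ^ A * c := by
  have hq := card_pos' (F := F)
  have hq1 : (1 : ℝ) ≤ Fintype.card F := one_le_two.trans two_le_card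
  rw [Fintype.expect_eq_sum_div_card, card_degreeLT, Nat.cast_pow, div_le_iff₀ (by positivity)]
  refine hG.trans ?_
  rw [mul_right_comm, ← pow_add, add_comm]
  gcongr

omit [Fintype F] in
theorem abs_prod_liou_le {I : Type*} (s : Finset I) (g : I → F[X]) :
    |∏ i ∈ s, (liou (g i) : ℝ)| ≤ 1 := by
  rw [Finset.abs_prod]
  refine Finset.prod_le_one (fun _ _ => abs_nonneg _) fun i _ => ?_
  rcases liou_cases (g i) with h | h <;> simp [h]

variable [CharP F 2]

theorem avg_bound {I : Type*} [Fintype I] (i₀ : I) (a α σ η : I → F[X]) (ha : ∀ i, (a i).Monic)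
    (b : ℕ) (hα0 : ∀ i, α i ≠ 0) (hαd : ∀ i, (α i).natDegree = (a i).natDegree + b)
    (hnd : ∀ i, i ≠ i₀ → α i * σ i₀ - α i₀ * σ i ≠ 0 ∨ a i * η i₀ - a i₀ * η i ≠ 0)
    {ε : ℝ} (hε : 0 < ε) : ∃ m₀ : ℕ, ∀ m n₀ : ℕ, m₀ ≤ m → n₀ + b = m + 1 →
      |𝔼 y : degreeLT F m, 𝔼 x : degreeLT F n₀,
        ∏ i, (liou ((α i * x.1 + σ i) ^ 2 + X * (a i * (X ^ m + y.1) + η i) ^ 2) : ℝ)| ≤ 5 * ε := by
  have hq := card_pos' (F := F)
  obtain ⟨A, hA⟩ : ∃ A, ∀ i, (α i).natDegree ≤ A ∧ (σ i).natDegree ≤ A ∧ (η i).natDegree ≤ A ∧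
      (α i * σ i₀ - α i₀ * σ i).natDegree ≤ A ∧ (a i * η i₀ - a i₀ * η i).natDegree ≤ A := by
    obtain ⟨A, hA⟩ := (Set.finite_range fun i => (α i).natDegree + (σ i).natDegree +
      (η i).natDegree + (α i * σ i₀ - α i₀ * σ i).natDegree +
      (a i * η i₀ - a i₀ * η i).natDegree).bddAbove
    refine ⟨A, fun i => ?_⟩
    have := hA ⟨i, rfl⟩
    simp only at this
    omega
  set q : ℝ := (Fintype.card F : ℝ) with hqdef
  set k : ℝ := (Fintype.card I : ℝ) with hk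
  have hθ : 0 < ε ^ 2 ^ (Fintype.card I * 3 * 3) / 2 := by positivity
  obtain ⟨L, hL₀, hL₁, hL₂, hL₃, hL₄⟩ := ((eventually_ge_atTop A).and
    ((eventually_div_two_pow (k * q ^ A) hε).and
    ((eventually_div_two_pow (2 * (k * (q ^ A * q ^ A))) hε).and
    ((eventually_div_two_pow 4 (pow_pos hθ 2)).and
    (eventually_div_two_pow (4 * (2 ^ (Fintype.card I * 3 * 3) * k)) hθ))))).exists
  obtain ⟨D₁, hD₁⟩ : ∃ D₁, (smallProd F L ^ (2 * L + 2)).natDegree = D₁ := ⟨_, rfl⟩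
  obtain ⟨L', hL'⟩ := exists_div_succ (q ^ A * (D₁ + 1)) hε
  obtain ⟨D₂, hD₂⟩ : ∃ D₂, D₂ = A + 2 * D₁ + L' := ⟨_, rfl⟩
  obtain ⟨L'', hL''⟩ := exists_div_succ (k * (q ^ A * (D₂ + 1))) hε
  obtain ⟨j₁, hj₁⟩ := sum_almost_rough (F := F) L' D₁
  obtain ⟨j₂, hj₂⟩ := sum_almost_rough (F := F) L'' D₂
  refine ⟨j₁ + j₂ + A + 1 + (b + 2 * D₁ + L' + L'' + D₂ + L'), fun m n₀ hm hn => ?_⟩
  set W : I → degreeLT F m → F[X] := fun i y => a i * (X ^ m + y.1) + η i with hWdef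
  have hW : ∀ i y, (W i y).Monic ∧ (W i y).natDegree = m + (a i).natDegree := by
    intro i y
    obtain ⟨h1, h2⟩ := monic_add_LT y
    have h3 : (a i * (X ^ m + y.1)).natDegree = m + (a i).natDegree := by
      rw [(ha i).natDegree_mul h1, h2, add_comm]
    have h4 : (η i).natDegree < (a i * (X ^ m + y.1)).natDegree := by
      have := hA i
      omega
    exact ⟨((ha i).mul h1).add_of_left (degree_lt_degree h4),
      by rw [hWdef, natDegree_add_eq_left_of_natDegree_lt h4, h3]⟩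
  have hWi : ∀ i, Function.Injective (W i) := fun i y y' h =>
    Subtype.ext (add_left_cancel (mul_left_cancel₀ (ha i).ne_zero (add_right_cancel h)))
  have hS : ∀ i (x : degreeLT F n₀),
      (α i * x.1 + σ i).degree < (m + (a i).natDegree + 1 : ℕ) := by
    intro i x
    have h1 := hA i
    have h2 := hαd i
    rw [← mem_degreeLT]
    refine add_mem (mul_mem_degreeLT (by omega) x) (mem_degreeLT.2 ?_)
    exact degree_le_natDegree.trans_lt (by exact_mod_cast (by omega))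
  have hSi : ∀ i, Function.Injective fun x : degreeLT F n₀ => α i * x.1 + σ i := fun i y y' h =>
    Subtype.ext (mul_left_cancel₀ (hα0 i) (add_right_cancel h))
  have hmA : ∀ i, m + (a i).natDegree ≤ m + A := fun i => by
    have h1 := hA i
    have h2 := hαd i
    omega
  have main : ∀ y, |𝔼 x : degreeLT F n₀,
      ∏ i, (liou ((α i * x.1 + σ i) ^ 2 + X * W i y ^ 2) : ℝ)| ≤
      ∑ i, ind (∃ δ : F[X], δ.Monic ∧ L < δ.natDegree ∧ δ ^ 2 ∣ W i y) +
      ind (∃ g v : F[X], g.Monic ∧ g.natDegree ≤ D₁ ∧ W i₀ y = g * v ∧ Rough L' v) +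
      ∑ i, ind (∃ g v : F[X], g.Monic ∧ g.natDegree ≤ D₂ ∧ W i y = g * v ∧ Rough L'' v) +
      (2 * ∑ i, 𝔼 x : degreeLT F n₀, ind (∃ δ : F[X], δ.Monic ∧ L < δ.natDegree ∧ δ ∣ W i y ∧
        δ ∣ α i * x.1 + σ i) + ε) := by
    intro y
    have p1 : 0 ≤ ∑ i, ind (∃ δ : F[X], δ.Monic ∧ L < δ.natDegree ∧ δ ^ 2 ∣ W i y) :=
      Finset.sum_nonneg fun _ _ => ind_nonneg _
    have p2 := ind_nonneg
      (∃ g v : F[X], g.Monic ∧ g.natDegree ≤ D₁ ∧ W i₀ y = g * v ∧ Rough L' v)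
    have p3 : 0 ≤ ∑ i,
        ind (∃ g v : F[X], g.Monic ∧ g.natDegree ≤ D₂ ∧ W i y = g * v ∧ Rough L'' v) :=
      Finset.sum_nonneg fun _ _ => ind_nonneg _
    have p4 : 0 ≤ ∑ i, 𝔼 x : degreeLT F n₀, ind (∃ δ : F[X], δ.Monic ∧ L < δ.natDegree ∧
        δ ∣ W i y ∧ δ ∣ α i * x.1 + σ i) :=
      Finset.sum_nonneg fun _ _ => Finset.expect_nonneg fun _ _ => ind_nonneg _
    have p0 : |𝔼 x : degreeLT F n₀,
        ∏ i, (liou ((α i * x.1 + σ i) ^ 2 + X * W i y ^ 2) : ℝ)| ≤ 1 :=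
      (Finset.abs_expect_le _ _).trans
        (Finset.expect_le univ_nonempty fun _ _ => abs_prod_liou_le _ _)
    by_cases g1 : ∃ i ∈ (univ : Finset I),
        ∃ δ : F[X], δ.Monic ∧ L < δ.natDegree ∧ δ ^ 2 ∣ W i y
    · have := (ind_pos trivial).symm.le.trans (ind_le_sum fun _ => g1)
      linarith
    by_cases g2 : ∃ g v : F[X], g.Monic ∧ g.natDegree ≤ D₁ ∧ W i₀ y = g * v ∧ Rough L' v
    · have := ind_pos g2
      linarith
    by_cases g3 : ∃ i ∈ (univ : Finset I),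
        ∃ g v : F[X], g.Monic ∧ g.natDegree ≤ D₂ ∧ W i y = g * v ∧ Rough L'' v
    · have := (ind_pos trivial).symm.le.trans (ind_le_sum fun _ => g3)
      linarith
    have := good_bound α σ (fun i => W i y) (fun i => (hW i y).1) i₀ (L := L) (L' := L')
      (L'' := L'') (D := n₀ - 2 * D₁ - L') (D₂ := D₂) (n₀ := n₀) hα0
      (fun i => (hA i).1.trans hL₀)
      (fun i hi P hP hPL h1 h2 h3 => by
        have h4 := hA i
        rcases hnd i hi with h | h
        · have := natDegree_le_of_dvd h3 h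
          omega
        · have h5 : P ∣ a i * η i₀ - a i₀ * η i := by
            convert dvd_sub (h2.mul_left (a i)) (h1.mul_left (a i₀)) using 1
            simp only [hWdef]
            ring
          have := natDegree_le_of_dvd h5 h
          omega)
      hD₁ (fun i h => g1 ⟨i, mem_univ i, h⟩) g2 (fun i h => g3 ⟨i, mem_univ i, h⟩)
      (by omega) (by omega)
      (fun i => by have := hA i; have := hαd i; rw [(hW i y).2]; omega)
      (fun i => by have := hA i; have := hαd i; rw [(hW i y).2]; omega) (by omega)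
      (fun i x => by
        rw [(hW i y).2]
        exact natDegree_le_of_degree_le (Order.le_of_lt_succ (hS i x)))
      hθ.le hL₃ hε.le (by linarith)
    have h6 : 𝔼 x : degreeLT F n₀, ind (∃ i, ∃ δ : F[X], δ.Monic ∧ L < δ.natDegree ∧ δ ∣ W i y ∧
        δ ∣ α i * x.1 + σ i) ≤ ∑ i, 𝔼 x : degreeLT F n₀, ind (∃ δ : F[X], δ.Monic ∧
        L < δ.natDegree ∧ δ ∣ W i y ∧ δ ∣ α i * x.1 + σ i) := by
      rw [← Finset.expect_sum_comm]
      exact Finset.expect_le_expect fun x _ => ind_le_sum fun ⟨i, h⟩ => ⟨i, mem_univ i, h⟩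
    linarith
  refine (Finset.abs_expect_le _ _).trans ((Finset.expect_le_expect fun y _ => main y).trans ?_)
  simp only [Finset.expect_add_distrib, Fintype.expect_const, ← Finset.mul_expect,
    Finset.expect_sum_comm]
  have b1 : ∑ i, 𝔼 y, ind (∃ δ : F[X], δ.Monic ∧ L < δ.natDegree ∧ δ ^ 2 ∣ W i y) ≤ ε := by
    refine (Finset.sum_le_card_nsmul _ _ (q ^ A * (1 / 2 ^ L)) fun i _ => ?_).trans ?_
    · exact expect_le_of_sum (hmA i) (by positivity)
        ((sum_sq_dvd (W i) (hWi i) (hW i) L).trans_eq (div_eq_mul_one_div _ _))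
    · rw [nsmul_eq_mul, card_univ]
      exact le_trans (le_of_eq (by ring)) hL₁
  have b2 : 𝔼 y, ind (∃ g v : F[X], g.Monic ∧ g.natDegree ≤ D₁ ∧ W i₀ y = g * v ∧ Rough L' v) ≤
      ε := (expect_le_of_sum (hmA i₀) (by positivity)
        (hj₁ _ (by omega) (W i₀) (hWi i₀) (hW i₀))).trans (le_trans (le_of_eq (by ring)) hL')
  have b3 : ∑ i, 𝔼 y,
      ind (∃ g v : F[X], g.Monic ∧ g.natDegree ≤ D₂ ∧ W i y = g * v ∧ Rough L'' v) ≤ ε := by
    refine (Finset.sum_le_card_nsmul _ _ (q ^ A * ((D₂ + 1) / (L'' + 1))) fun i _ => ?_).trans ?_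
    · exact expect_le_of_sum (hmA i) (by positivity) (hj₂ _ (by omega) (W i) (hWi i) (hW i))
    · rw [nsmul_eq_mul, card_univ]
      exact le_trans (le_of_eq (by ring)) hL''
  have b4 : 2 * ∑ i, 𝔼 y, 𝔼 x : degreeLT F n₀, ind (∃ δ : F[X], δ.Monic ∧ L < δ.natDegree ∧
      δ ∣ W i y ∧ δ ∣ α i * x.1 + σ i) ≤ ε := by
    refine (mul_le_mul_of_nonneg_left (Finset.sum_le_card_nsmul _ _ (q ^ A * (q ^ A * (1 / 2 ^ L)))
      fun i _ => ?_) two_pos.le).trans ?_
    · refine expect_le_of_sum (hmA i) (by positivity) ?_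
      rw [← Finset.expect_sum_comm, mul_left_comm]
      refine expect_le_of_sum (m' := m + (a i).natDegree + 1)
        (by have := hA i; have := hαd i; omega) (by positivity) ?_
      rw [Finset.sum_comm]
      exact (sum_common_dvd (W i) (hWi i) (hW i) _ (hSi i) (hS i) L).trans_eq (by ring)
    · rw [nsmul_eq_mul, card_univ]
      exact le_trans (le_of_eq (by ring)) hL₂
  linarith

end Pool.Agent.MP_4fffd4_nt
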