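import Mathlib
import Pool.Agent.MP_4fffd4_nt.Avg

/- The Chowla conjecture for the Liouville function of `F[X]` in characteristic two. -/

set_option autoImplicit false

namespace Pool.Agent.MP_4fffd4_nt

open Polynomial Finset Filter Topology
open scoped BigOperators

variable {F : Type*} [Field F] [Fintype F]

omit [Fintype F] in
theorem liou_C_mul {c : F} (hc : c ≠ 0) (g : F[X]) : liou (C c * g) = liou g := by
  by_cases hg : g = 0
  · rw [hg, mul_zero]
  rw [liou_mul (C_ne_zero.2 hc) hg, liou,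
    UniqueFactorizationMonoid.factors_of_isUnit (isUnit_C.2 (IsUnit.mk0 _ hc))]
  simp

omit [Fintype F] in
theorem lin_ne_zero {a h f : F[X]} (ha : a ≠ 0) (hf : f.Monic) (hd : h.natDegree < f.natDegree) :
    a * f + h ≠ 0 := by
  intro e
  have := congrArg natDegree (eq_neg_of_add_eq_zero_left e)
  rw [natDegree_neg, natDegree_mul ha hf.ne_zero] at this
  omega

variable [CharP F 2]

theorem exists_sq_add (h : F[X]) : ∃ σ η : F[X], h = σ ^ 2 + X * η ^ 2 := by
  induction h using Polynomial.induction_on' with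
  | add p q hp hq =>
    obtain ⟨σ, η, rfl⟩ := hp
    obtain ⟨σ', η', rfl⟩ := hq
    exact ⟨σ + σ', η + η', by rw [CharTwo.add_sq, CharTwo.add_sq]; ring⟩
  | monomial n a =>
    obtain ⟨c, rfl⟩ := (bijective_frobenius F 2).2 a
    rw [frobenius_def, ← C_mul_X_pow_eq_monomial, map_pow]
    obtain ⟨j, rfl | rfl⟩ := Nat.even_or_odd' n
    · exact ⟨C c * X ^ j, 0, by ring⟩
    · exact ⟨0, C c * X ^ j, by ring⟩

theorem sum_monF_eq {m n₀ b c : ℕ} (hbc : b + c = 1) (hn : n₀ + b = m + 1) (G : F[X] → ℝ) :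
    ∑ f ∈ monF F (m + n₀), G f = ∑ y : degreeLT F m, ∑ x : degreeLT F n₀,
      G (X ^ b * x.1 ^ 2 + X ^ c * (X ^ m + y.1) ^ 2) := by
  classical
  have h2 : (2 : F[X]) = 0 := by exact_mod_cast CharP.cast_eq_zero F[X] 2
  have hX : (X : F[X]) ^ b * X ^ c = X := by rw [← pow_add, hbc, pow_one]
  have hb : (X : F[X]) ^ b ≠ 0 := pow_ne_zero _ X_ne_zero
  set Φ : degreeLT F m × degreeLT F n₀ → F[X] :=
    fun z => X ^ b * z.2.1 ^ 2 + X ^ c * (X ^ m + z.1.1) ^ 2 with hΦ
  have e : ∀ z, X ^ b * Φ z = (X ^ b * z.2.1) ^ 2 + X * (X ^ m + z.1.1) ^ 2 := fun z => by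
    simp only [hΦ]
    linear_combination (X ^ m + z.1.1) ^ 2 * hX
  have sq_inj : ∀ s t : F[X], s ^ 2 = t ^ 2 → s = t := fun s t h =>
    frobenius_inj F[X] 2 h
  have hinj : Function.Injective Φ := by
    intro z z' h
    have h1 := e z
    rw [h, e z'] at h1
    have h3 := congrArg derivative h1
    rw [derivative_odd, derivative_odd] at h3
    rw [h3] at h1
    exact Prod.ext (Subtype.ext (add_left_cancel (sq_inj _ _ h3)).symm)
      (Subtype.ext (mul_left_cancel₀ hb (sq_inj _ _ (add_right_cancel h1))).symm)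
  have him : univ.image Φ = monF F (m + n₀) := by
    refine Finset.eq_of_subset_of_card_le (fun f hf => ?_) ?_
    · obtain ⟨z, -, rfl⟩ := mem_image.1 hf
      obtain ⟨h1, h3⟩ := monic_add_LT z.1
      obtain ⟨h4, h5⟩ := odd_monic (s := X ^ b * z.2.1) h1 (by
        rw [h3]
        exact natDegree_le_of_degree_le (Order.le_of_lt_succ (mem_degreeLT.1
          (mul_mem_degreeLT (n := m + 1) (by rw [natDegree_X_pow]; omega) z.2))))
      rw [← e] at h4 h5
      have h6 := (monic_X_pow b).of_mul_monic_left h4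
      rw [(monic_X_pow b).natDegree_mul h6, natDegree_X_pow, h3] at h5
      exact mem_monF.2 ⟨h6, by omega⟩
    · rw [card_image_of_injective _ hinj, card_univ, Fintype.card_prod, card_degreeLT,
        card_degreeLT, card_monF, pow_add]
  rw [← him, Finset.sum_image fun _ _ _ _ h => hinj h, Fintype.sum_prod_type]

theorem chowla_monic {I : Type*} [Fintype I] (i₀ : I) (a h : I → F[X]) (ha : ∀ i, (a i).Monic)
    (hind : ∀ i, i ≠ i₀ → a i * h i₀ ≠ a i₀ * h i) {b c : ℕ} (hbc : b + c = 1) {ε : ℝ}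
    (hε : 0 < ε) : ∃ m₀ : ℕ, ∀ m n₀ : ℕ, m₀ ≤ m → n₀ + b = m + 1 →
      |(∑ f ∈ monF F (m + n₀), ∏ i, (liou (a i * f + h i) : ℝ)) / Fintype.card F ^ (m + n₀)| ≤
        5 * ε := by
  have h2 : (2 : F[X]) = 0 := by exact_mod_cast CharP.cast_eq_zero F[X] 2
  have hX : (X : F[X]) ^ b * X ^ c = X := by rw [← pow_add, hbc, pow_one]
  have hb : (X : F[X]) ^ b ≠ 0 := pow_ne_zero _ X_ne_zero
  have hα0 : ∀ i, a i * X ^ b ≠ 0 := fun i => mul_ne_zero (ha i).ne_zero hb
  choose σ η hση using fun i => exists_sq_add (a i * X ^ b * h i)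
  obtain ⟨m₀, hm₀⟩ := avg_bound i₀ a (fun i => a i * X ^ b) σ η ha b hα0
    (fun i => natDegree_mul_X_pow _ (ha i).ne_zero)
    (fun i hi => by
      by_contra hc
      push Not at hc
      obtain ⟨h3, h4⟩ := hc
      have h5 : a i * σ i₀ - a i₀ * σ i = 0 := by
        apply mul_left_cancel₀ hb
        linear_combination h3
      apply hind i hi
      apply mul_left_cancel₀ (mul_ne_zero (hα0 i) (ha i₀).ne_zero)
      linear_combination a i ^ 2 * hση i₀ - a i₀ ^ 2 * hση i +
        (a i * σ i₀ + a i₀ * σ i) * h5 + X * (a i * η i₀ + a i₀ * η i) * h4) hε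
  refine ⟨m₀ + ∑ i, (h i).natDegree + 1, fun m n₀ hm hn => ?_⟩
  refine le_trans (le_of_eq ?_) (hm₀ m n₀ (by omega) hn)
  have hγ : |∏ i, (liou (a i * X ^ b) : ℝ)| = 1 := by
    rw [Finset.abs_prod]
    refine Finset.prod_eq_one fun i _ => ?_
    rcases liou_cases (a i * X ^ b) with h | h <;> simp [h]
  rw [← one_mul |_ / _|, ← hγ, ← abs_mul, ← mul_div_assoc, Finset.mul_sum]
  congr 1
  rw [Finset.sum_congr rfl (g := fun f => ∏ i, (liou (a i * X ^ b * (a i * f + h i)) : ℝ)),
    sum_monF_eq hbc hn]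
  · simp only [Fintype.expect_eq_sum_div_card, card_degreeLT, ← Finset.sum_div, div_div]
    push_cast
    rw [← pow_add, add_comm n₀]
    congr 1
    refine Finset.sum_congr rfl fun y _ => Finset.sum_congr rfl fun x _ =>
      Finset.prod_congr rfl fun i _ => ?_
    congr 2
    linear_combination hση i + (a i ^ 2 * (X ^ m + y.1) ^ 2) * hX -
      (a i * X ^ b * x.1 * σ i + X * a i * (X ^ m + y.1) * η i) * h2
  · intro f hf
    obtain ⟨h3, h4⟩ := mem_monF.1 hf
    rw [← Finset.prod_mul_distrib]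
    refine Finset.prod_congr rfl fun i _ => ?_
    have := Finset.single_le_sum (f := fun i => (h i).natDegree) (fun _ _ => Nat.zero_le _)
      (mem_univ i)
    rw [liou_mul (hα0 i) (lin_ne_zero (ha i).ne_zero h3 (by omega)), Int.cast_mul]

set_option maxHeartbeats 400000 in
theorem chowla {I : Type*} [Fintype I] (i₀ : I) (a h : I → F[X]) (ha : ∀ i, a i ≠ 0)
    (hind : ∀ i, i ≠ i₀ → a i * h i₀ ≠ a i₀ * h i) :
    Tendsto (fun n : ℕ => (∑ f ∈ monF F n, ∏ i, (liou (a i * f + h i) : ℝ)) / Fintype.card F ^ n)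
      atTop (𝓝 0) := by
  have hc : ∀ i, (a i).leadingCoeff⁻¹ ≠ 0 := fun i => inv_ne_zero (leadingCoeff_ne_zero.2 (ha i))
  have hm : ∀ i, (C (a i).leadingCoeff⁻¹ * a i).Monic := fun i => by
    rw [mul_comm]; exact monic_mul_leadingCoeff_inv (ha i)
  have hind' : ∀ i, i ≠ i₀ → C (a i).leadingCoeff⁻¹ * a i * (C (a i₀).leadingCoeff⁻¹ * h i₀) ≠
      C (a i₀).leadingCoeff⁻¹ * a i₀ * (C (a i).leadingCoeff⁻¹ * h i) := by
    intro i hi e
    apply hind i hi
    apply mul_left_cancel₀ (mul_ne_zero (C_ne_zero.2 (hc i)) (C_ne_zero.2 (hc i₀)))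
    linear_combination e
  rw [Metric.tendsto_atTop]
  intro ε hε
  obtain ⟨m₀, hm₀⟩ := chowla_monic i₀ (fun i => C (a i).leadingCoeff⁻¹ * a i)
    (fun i => C (a i).leadingCoeff⁻¹ * h i) hm hind' (b := 0) (c := 1) rfl (ε := ε / 6)
    (by positivity)
  obtain ⟨m₁, hm₁⟩ := chowla_monic i₀ (fun i => C (a i).leadingCoeff⁻¹ * a i)
    (fun i => C (a i).leadingCoeff⁻¹ * h i) hm hind' (b := 1) (c := 0) rfl (ε := ε / 6)
    (by positivity)
  have e : ∀ i f, liou (C (a i).leadingCoeff⁻¹ * a i * f + C (a i).leadingCoeff⁻¹ * h i) =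
      liou (a i * f + h i) := fun i f => by rw [mul_assoc, ← mul_add, liou_C_mul (hc i)]
  simp only [e] at hm₀ hm₁
  refine ⟨2 * (m₀ + m₁), fun n hn => ?_⟩
  rw [Real.dist_eq, sub_zero]
  obtain ⟨j, rfl | rfl⟩ := Nat.even_or_odd' n
  · have := hm₁ j j (by omega) rfl
    rw [← two_mul] at this
    linarith
  · have := hm₀ j (j + 1) (by omega) rfl
    rw [← add_assoc, ← two_mul] at this
    linarith

theorem pattern_density {I : Type*} [Fintype I] (a h : I → F[X]) (ha : ∀ i, a i ≠ 0)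
    (hind : ∀ i j, i ≠ j → a i * h j ≠ a j * h i) (ε : I → ℤ) (hε : ∀ i, ε i = 1 ∨ ε i = -1) :
    Tendsto (fun n : ℕ => (Set.ncard {f : F[X] | f.Monic ∧ f.natDegree = n ∧
      ∀ i, a i * f + h i ≠ 0 ∧ liou (a i * f + h i) = ε i} : ℝ) / Fintype.card F ^ n)
      atTop (𝓝 (1 / 2 ^ Fintype.card I)) := by
  classical
  have hq := card_pos' (F := F)
  have h1 : Tendsto (fun n : ℕ => 1 / 2 ^ Fintype.card I * ∑ S ∈ (univ : Finset I).powerset,
      (∏ i ∈ S, (ε i : ℝ)) *
        ((∑ f ∈ monF F n, ∏ i ∈ S, (liou (a i * f + h i) : ℝ)) / Fintype.card F ^ n)) atTop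
      (𝓝 (1 / 2 ^ Fintype.card I * ∑ S ∈ (univ : Finset I).powerset,
        if S = ∅ then 1 else 0)) := by
    refine (tendsto_finset_sum _ fun S _ => ?_).const_mul _
    split_ifs with hS
    · subst hS
      refine tendsto_const_nhds.congr fun n => ?_
      simp only [Finset.prod_empty, Finset.sum_const, card_monF, nsmul_eq_mul]
      push_cast
      field_simp
    · obtain ⟨i₀, hi₀⟩ := Finset.nonempty_iff_ne_empty.2 hS
      have := (chowla (I := S) ⟨i₀, hi₀⟩ (fun i => a i) (fun i => h i) (fun i => ha i)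
        (fun i hi => hind _ _ fun e => hi (Subtype.ext e))).const_mul (∏ i ∈ S, (ε i : ℝ))
      rw [mul_zero] at this
      refine this.congr fun n => ?_
      congr 2
      exact Finset.sum_congr rfl fun f _ =>
        Finset.prod_coe_sort S fun i => (liou (a i * f + h i) : ℝ)
  rw [Finset.sum_ite_eq', if_pos (empty_mem_powerset _), mul_one] at h1
  refine h1.congr' ?_
  filter_upwards [eventually_gt_atTop (∑ i, (h i).natDegree)] with n hn
  have h2 : {f : F[X] | f.Monic ∧ f.natDegree = n ∧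
      ∀ i, a i * f + h i ≠ 0 ∧ liou (a i * f + h i) = ε i} =
      ((monF F n).filter fun f => ∀ i, liou (a i * f + h i) = ε i : Finset F[X]) := by
    ext f
    simp only [Set.mem_setOf_eq, coe_filter, mem_monF]
    refine ⟨fun ⟨x, y, z⟩ => ⟨⟨x, y⟩, fun i => (z i).2⟩, fun ⟨⟨x, y⟩, z⟩ =>
      ⟨x, y, fun i => ⟨lin_ne_zero (ha i) x ?_, z i⟩⟩⟩
    have := Finset.single_le_sum (f := fun i => (h i).natDegree) (fun _ _ => Nat.zero_le _)
      (mem_univ i)
    omega
  rw [h2, Set.ncard_coe_finset, Finset.card_filter]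
  simp only [← mul_div_assoc, ← Finset.sum_div, Finset.mul_sum, ← Finset.prod_mul_distrib]
  congr 1
  rw [Finset.sum_comm]
  push_cast
  refine Finset.sum_congr rfl fun f _ => ?_
  rw [← Finset.mul_sum, ← Finset.prod_one_add]
  split_ifs with hf
  · rw [Finset.prod_congr rfl (g := fun _ => 2), Finset.prod_const, card_univ]
    · field_simp
    · intro i _
      rw [hf i]
      rcases hε i with e | e <;> rw [e] <;> norm_num
  · push Not at hf
    obtain ⟨i, hi⟩ := hf
    rw [Finset.prod_eq_zero (mem_univ i), mul_zero]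
    rcases hε i with e | e <;> rcases liou_cases (a i * f + h i) with e' | e' <;>
      rw [e, e'] at hi ⊢ <;> simp at hi ⊢

end Pool.Agent.MP_4fffd4_nt
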