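import Mathlib
import Pool.Agent.MP_4fffd4_nt.FlipTwo

/- Simultaneous prescription of the signs along `1 + β i * (c + s ^ N)`. -/

set_option autoImplicit false

namespace Pool.Agent.MP_4fffd4_nt

open Polynomial Finset

theorem crt_two {R : Type*} [CommRing R] {a b : R} (h : IsCoprime a b) (x y : R) :
    ∃ r, a ∣ r - x ∧ b ∣ r - y := by
  obtain ⟨u, v, huv⟩ := h
  exact ⟨x * (v * b) + y * (u * a), ⟨u * (y - x), by linear_combination x * huv⟩,
    ⟨v * (x - y), by linear_combination y * huv⟩⟩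

theorem crt_finset {R ι : Type*} [CommRing R] (m x : ι → R)
    (h : ∀ i j, i ≠ j → IsCoprime (m i) (m j)) (s : Finset ι) : ∃ r, ∀ i ∈ s, m i ∣ r - x i := by
  classical
  induction s using Finset.induction with
  | empty => exact ⟨0, by simp⟩
  | insert a s has IH =>
    obtain ⟨r, hr⟩ := IH
    obtain ⟨r', h1, h2⟩ := crt_two (a := m a) (b := ∏ i ∈ s, m i)
      (IsCoprime.prod_right fun i hi => h a i (fun e => has (e ▸ hi))) (x a) r
    refine ⟨r', fun i hi => ?_⟩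
    rcases mem_insert.1 hi with rfl | hi
    · exact h1
    · have := dvd_add ((Finset.dvd_prod_of_mem m hi).trans h2) (hr i hi)
      rwa [sub_add_sub_cancel] at this

theorem fam_coprime {R : Type*} [CommRing R] {β c s s' G : R} {N : ℕ} (h : G ∣ s - s')
    (hc : IsCoprime (1 + β * (c + s' ^ N)) G) : IsCoprime (1 + β * (c + s ^ N)) G := by
  obtain ⟨w, hw⟩ := h.trans (sub_dvd_pow_sub_pow s s' N)
  have : 1 + β * (c + s ^ N) = 1 + β * (c + s' ^ N) + G * (β * w) := by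
    linear_combination β * hw
  rw [this]
  exact hc.add_mul_left_left _

section Field

variable {F : Type*} [Field F]

theorem exists_prime_not_dvd {Z : F[X]} (hZ : Z ≠ 0) :
    ∃ P : F[X], P.Monic ∧ Irreducible P ∧ ¬ P ∣ Z := by
  have hd : 0 < (X * Z + 1).natDegree := by
    rw [← C_1, natDegree_add_C, natDegree_X_mul hZ]; omega
  obtain ⟨P, h1, h2, h3⟩ := exists_monic_irreducible_factor (X * Z + 1)
    (fun h => hd.ne' (natDegree_eq_zero_of_isUnit h))
  exact ⟨P, h1, h2, fun h => h2.not_dvd_one ((dvd_add_right (h.mul_left X)).1 h3)⟩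

theorem exists_primes (k : ℕ) {Z : F[X]} (hZ : Z ≠ 0) :
    ∃ P : Fin k → F[X], (∀ i, (P i).Monic ∧ Irreducible (P i) ∧ ¬ P i ∣ Z) ∧
      ∀ i j, i ≠ j → IsCoprime (P i) (P j) := by
  induction k with
  | zero => exact ⟨Fin.elim0, fun i => i.elim0, fun i => i.elim0⟩
  | succ k IH =>
    obtain ⟨P, h1, h2⟩ := IH
    obtain ⟨Q, q1, q2, q3⟩ := exists_prime_not_dvd (Z := Z * ∏ i, P i)
      (mul_ne_zero hZ (Finset.prod_ne_zero_iff.2 fun i _ => (h1 i).1.ne_zero))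
    have hQ : ∀ i, IsCoprime Q (P i) := fun i => q2.coprime_iff_not_dvd.2 fun h =>
      q3 ((h.trans (Finset.dvd_prod_of_mem P (mem_univ i))).mul_left Z)
    refine ⟨Fin.cons Q P, fun i => ?_, fun i j hij => ?_⟩
    · refine Fin.cases ?_ (fun i => ?_) i
      · exact ⟨q1, q2, fun h => q3 (h.mul_right _)⟩
      · exact h1 i
    · revert hij
      refine Fin.cases ?_ (fun i => ?_) i <;> refine Fin.cases ?_ (fun j => ?_) j <;> intro hij
      · exact absurd rfl hij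
      · exact hQ j
      · exact (hQ i).symm
      · exact h2 i j fun e => hij (congrArg _ e)

theorem exists_monic_rep {E : F[X]} (hE : E.Monic) (r g : F[X]) (hg : g.Monic) :
    (r %ₘ E + E * g).Monic ∧ (r %ₘ E + E * g).natDegree = E.natDegree + g.natDegree ∧
      E ∣ (r %ₘ E + E * g) - r := by
  have h1 : (r %ₘ E).degree < (E * g).degree := by
    refine (degree_modByMonic_lt r hE).trans_le ?_
    exact degree_le_of_dvd (dvd_mul_right _ _) (hE.mul hg).ne_zero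
  refine ⟨(hE.mul hg).add_of_right h1, ?_, ⟨g - r /ₘ E, ?_⟩⟩
  · rw [natDegree_add_eq_right_of_degree_lt h1, hE.natDegree_mul hg]
  · linear_combination modByMonic_add_div r E

variable {p : ℕ} [Fact p.Prime] [CharP F p]

theorem exists_coprime {k κ : ℕ} (β : Fin k → F[X]) (c : F[X])
    (hR : ∀ Q : F[X], Irreducible Q → (∀ i, Q ∣ β i) ∨
      ∀ a b : Fin (k + 1), a ≠ b → ¬ Q ∣ X ^ (a : ℕ) - X ^ (b : ℕ))
    (E : F[X]) (hE : E ≠ 0) : ∃ s : F[X], ∀ i, IsCoprime (1 + β i * (c + s ^ p ^ κ)) E := by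
  induction E using UniqueFactorizationMonoid.induction_on_prime with
  | h₁ => exact absurd rfl hE
  | h₂ x hx =>
    obtain ⟨w, hw⟩ := hx.exists_left_inv
    exact ⟨0, fun i => ⟨0, w, by rw [zero_mul, zero_add, hw]⟩⟩
  | h₃ E Q hE0 hQ IH =>
    obtain ⟨s, hs⟩ := IH hE0
    by_cases hQE : Q ∣ E
    · exact ⟨s, fun i => ((hs i).of_isCoprime_of_dvd_right hQE).mul_right (hs i)⟩
    have hQi := hQ.irreducible
    obtain ⟨x, hx⟩ : ∃ x : F[X], ∀ i, ¬ Q ∣ 1 + β i * (c + x ^ p ^ κ) := by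
      rcases hR Q hQi with h | h
      · exact ⟨0, fun i h' => hQi.not_dvd_one ((dvd_add_left ((h i).mul_right _)).1 h')⟩
      by_contra hcon
      push Not at hcon
      choose f hf using fun a : Fin (k + 1) => hcon (X ^ (a : ℕ))
      have hinj : Function.Injective f := by
        intro a b hab
        by_contra hne
        have h1 := hf a
        have h2 := hf b
        rw [← hab] at h2
        have h3 := dvd_sub h1 h2
        have e : 1 + β (f a) * (c + (X ^ (a : ℕ)) ^ p ^ κ) - (1 + β (f a) * (c + (X ^ (b : ℕ)) ^ p ^ κ))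
            = β (f a) * (X ^ (a : ℕ) - X ^ (b : ℕ)) ^ p ^ κ := by
          rw [sub_pow_char_pow]; ring
        rw [e] at h3
        rcases hQ.dvd_or_dvd h3 with h4 | h4
        · exact hQi.not_dvd_one ((dvd_add_left (h4.mul_right _)).1 h1)
        · exact h a b hne (hQ.dvd_of_dvd_pow h4)
      have := Fintype.card_le_of_injective f hinj
      simp at this
    obtain ⟨r, h1, h2⟩ := crt_two (hQi.coprime_iff_not_dvd.2 hQE) x s
    exact ⟨r, fun i => (fam_coprime h1 (hQi.coprime_iff_not_dvd.2 (hx i)).symm).mul_right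
      (fam_coprime h2 (hs i))⟩

variable [Fintype F]

theorem local_data {κ : ℕ} (hκ : 1 ≤ κ) (h2 : p = 2 → κ = 3) {β c P : F[X]}
    (hβ : β.Monic) (hc : c.Monic) (hP : P.Monic) (hPi : Irreducible P) (hPβ : ¬ P ∣ β)
    (hX : ¬ P ∣ X) (hX1 : ¬ P ∣ X - 1)
    (hcong : P ^ 4 ∣ 1 + β * c - β * (P ^ 2 + P ^ 3)) (hdegP : 4 * P.natDegree < c.natDegree)
    (hmod : c.natDegree % p ^ κ = 1) :
    ∃ v y₁ y₂ : F[X], P ∣ β ^ 2 * derivative c - derivative β ∧
      v ∣ β ^ 2 * derivative c - derivative β ∧ β ^ 2 * derivative c - derivative β ∣ P ^ 2 * v ∧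
      ¬ P ∣ v ∧ ¬ P ∣ y₁ ∧ ¬ P ∣ y₂ ∧ ∀ s₁ s₂ : F[X], s₁.Monic → s₂.Monic →
      s₁.natDegree = s₂.natDegree → c.natDegree < p ^ κ * s₁.natDegree →
      IsCoprime (1 + β * (c + s₁ ^ p ^ κ)) (β ^ 2 * derivative c - derivative β) →
      IsCoprime (1 + β * (c + s₂ ^ p ^ κ)) (β ^ 2 * derivative c - derivative β) →
      (β ^ 2 * derivative c - derivative β ∣ s₁ - s₂ →
        liou (1 + β * (c + s₁ ^ p ^ κ)) = liou (1 + β * (c + s₂ ^ p ^ κ))) ∧
      (v ∣ s₁ - s₂ → P ∣ s₁ - y₁ → P ∣ s₂ - y₂ →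
        liou (1 + β * (c + s₁ ^ p ^ κ)) = -liou (1 + β * (c + s₂ ^ p ^ κ))) := by
  have : CharP (AlgebraicClosure F) p :=
    charP_of_injective_algebraMap (algebraMap F (AlgebraicClosure F)).injective p
  obtain ⟨L⟩ := nonempty_liftData p F (AlgebraicClosure F)
  by_cases hp : p = 2
  · obtain rfl := h2 hp
    subst hp
    obtain ⟨v, y₁, y₂, hW, hv, hy₁, hy₂, H⟩ :=
      L.flip_even hβ hc hP hPi hPβ hX hX1 hcong hdegP hmod
    refine ⟨v, y₁, y₂, ?_, ?_, ?_, hv, hy₁, hy₂, fun s₁ s₂ a₁ a₂ a₃ a₄ a₅ a₆ =>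
      ⟨L.periodic hκ h2 hβ hc hmod a₁ a₂ a₃ a₄ a₅ a₆, H s₁ s₂ a₁ a₂ a₃ a₄ a₅ a₆⟩⟩
    · rw [hW]; exact (dvd_pow_self P two_ne_zero).mul_right _
    · rw [hW]; exact dvd_mul_left _ _
    · rw [hW]
  · obtain ⟨v, y₁, y₂, hW, hv, hy₁, hy₂, H⟩ :=
      L.flip_odd hκ hp hβ hc hP hPi hPβ hcong hdegP hmod
    refine ⟨v, y₁, y₂, ?_, ?_, ?_, hv, hy₁, hy₂, fun s₁ s₂ a₁ a₂ a₃ a₄ a₅ a₆ =>
      ⟨L.periodic hκ h2 hβ hc hmod a₁ a₂ a₃ a₄ a₅ a₆, H s₁ s₂ a₁ a₂ a₃ a₄ a₅ a₆⟩⟩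
    · rw [hW]; exact dvd_mul_right _ _
    · rw [hW]; exact dvd_mul_left _ _
    · rw [hW]; exact mul_dvd_mul_right (dvd_pow_self P two_ne_zero) _

theorem core {κ : ℕ} (hκ : 1 ≤ κ) (h2 : p = 2 → κ = 3) {k : ℕ} (β : Fin k → F[X])
    (hβ : ∀ i, (β i).Monic)
    (hR : ∀ Q : F[X], Irreducible Q → (∀ i, Q ∣ β i) ∨
      ∀ a b : Fin (k + 1), a ≠ b → ¬ Q ∣ X ^ (a : ℕ) - X ^ (b : ℕ))
    (hD : ∀ i j, i ≠ j → derivative (β i) * β j ^ 2 - derivative (β j) * β i ^ 2 ≠ 0) :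
    ∃ c E : F[X], E.Monic ∧ ∀ d : ℕ, c.natDegree < p ^ κ * d → E.natDegree ≤ d →
      ∀ ε : Fin k → ℤ, (∀ i, ε i = 1 ∨ ε i = -1) → ∃ r : F[X], ∀ s : F[X], s.Monic →
        s.natDegree = d → E ∣ s - r → ∀ i, liou (1 + β i * (c + s ^ p ^ κ)) = ε i := by
  classical
  have hX1 : (X - 1 : F[X]) ≠ 0 := by simpa using X_sub_C_ne_zero (1 : F)
  obtain ⟨P, hP, hPP⟩ := exists_primes k (Z := X * (X - 1) * (∏ i, β i) *
      ∏ i, ∏ j ∈ univ.erase i, (derivative (β i) * β j ^ 2 - derivative (β j) * β i ^ 2)) (by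
    refine mul_ne_zero (mul_ne_zero (mul_ne_zero X_ne_zero hX1) ?_) ?_
    · exact Finset.prod_ne_zero_iff.2 fun i _ => (hβ i).ne_zero
    · exact Finset.prod_ne_zero_iff.2 fun i _ => Finset.prod_ne_zero_iff.2 fun j hj =>
        hD i j (ne_of_mem_erase hj).symm)
  have hPX : ∀ i, ¬ P i ∣ X := fun i h =>
    (hP i).2.2 (((h.mul_right _).mul_right _).mul_right _)
  have hPX1 : ∀ i, ¬ P i ∣ X - 1 := fun i h =>
    (hP i).2.2 (((h.mul_left _).mul_right _).mul_right _)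
  have hPβ : ∀ i j, ¬ P i ∣ β j := fun i j h =>
    (hP i).2.2 (((h.trans (Finset.dvd_prod_of_mem β (mem_univ j))).mul_left _).mul_right _)
  have hPD : ∀ i j, i ≠ j →
      ¬ P i ∣ derivative (β i) * β j ^ 2 - derivative (β j) * β i ^ 2 := by
    intro i j hij h
    refine (hP i).2.2 (Dvd.dvd.mul_left ?_ _)
    refine Dvd.dvd.trans ?_ (Finset.dvd_prod_of_mem _ (mem_univ i))
    exact h.trans (Finset.dvd_prod_of_mem
      (fun j => derivative (β i) * β j ^ 2 - derivative (β j) * β i ^ 2)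
      (mem_erase.2 ⟨hij.symm, mem_univ _⟩))
  have hinv : ∀ i, ∃ u : F[X], P i ^ 4 ∣ 1 - β i * u := by
    intro i
    obtain ⟨a, b, hab⟩ := (((hP i).2.1.coprime_iff_not_dvd.2 (hPβ i i)).pow_left (m := 4))
    exact ⟨b, a, by linear_combination -hab⟩
  choose u hu using hinv
  obtain ⟨c₀, hc₀⟩ := crt_finset (fun i => P i ^ 4) (fun i => P i ^ 2 + P i ^ 3 - u i)
    (fun i j hij => (hPP i j hij).pow) univ
  set M := ∏ i, P i ^ 4 with hM
  have hMm : M.Monic := monic_prod_of_monic _ _ fun i _ => (hP i).1.pow 4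
  have hN : 2 ≤ p ^ κ := (Fact.out : p.Prime).two_le.trans (Nat.le_self_pow (by omega) p)
  obtain ⟨hc, hcd, hcc⟩ := exists_monic_rep hMm c₀ (X ^ (1 + (p ^ κ - 1) * M.natDegree))
    (monic_X_pow _)
  set c := c₀ %ₘ M + M * X ^ (1 + (p ^ κ - 1) * M.natDegree) with hcdef
  have hcd' : c.natDegree = 1 + p ^ κ * M.natDegree := by
    rw [hcd, natDegree_X_pow]
    obtain ⟨N', hN'⟩ : ∃ N', p ^ κ = N' + 1 := ⟨p ^ κ - 1, by omega⟩
    rw [hN', Nat.add_sub_cancel]; ring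
  have hmod : c.natDegree % p ^ κ = 1 := by
    rw [hcd', Nat.add_mul_mod_self_left, Nat.mod_eq_of_lt (by omega)]
  have hcong : ∀ i, P i ^ 4 ∣ 1 + β i * c - β i * (P i ^ 2 + P i ^ 3) := by
    intro i
    have h1 : P i ^ 4 ∣ c - c₀ := (Finset.dvd_prod_of_mem (fun i => P i ^ 4) (mem_univ i)).trans hcc
    have e : 1 + β i * c - β i * (P i ^ 2 + P i ^ 3) = (1 - β i * u i) + β i * (c - c₀) +
        β i * (c₀ - (P i ^ 2 + P i ^ 3 - u i)) := by ring
    rw [e]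
    exact dvd_add (dvd_add (hu i) (h1.mul_left _)) ((hc₀ i (mem_univ i)).mul_left _)
  have hdegP : ∀ i, 4 * (P i).natDegree < c.natDegree := by
    intro i
    have h1 : (P i ^ 4).natDegree ≤ M.natDegree :=
      natDegree_le_of_dvd (Finset.dvd_prod_of_mem (fun i => P i ^ 4) (mem_univ i)) hMm.ne_zero
    rw [natDegree_pow] at h1
    rw [hcd']
    nlinarith
  choose v y₁ y₂ hPW hvW hWv hPv hy₁ hy₂ H using fun i =>
    local_data hκ h2 (hβ i) hc (hP i).1 (hP i).2.1 (hPβ i i) (hPX i) (hPX1 i) (hcong i)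
      (hdegP i) hmod
  have hW0 : ∀ i, β i ^ 2 * derivative c - derivative (β i) ≠ 0 := by
    intro i
    refine (monic_W (hβ i) hc ?_).ne_zero
    rw [hcd', Nat.cast_add, Nat.cast_mul, Nat.cast_pow, CharP.cast_eq_zero F p,
      zero_pow (by omega)]
    simp
  have hv0 : ∀ i, v i ≠ 0 := fun i h => hW0 i (by simpa [h] using hvW i)
  have hV0 : (∏ i, v i) ≠ 0 := Finset.prod_ne_zero_iff.2 fun i _ => hv0 i
  have hPV : ∀ i j, IsCoprime (P i) (v j) := by
    intro i j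
    refine (hP i).2.1.coprime_iff_not_dvd.2 fun h => ?_
    by_cases hij : i = j
    · subst hij; exact hPv i h
    · apply hPD i j hij
      have e : derivative (β i) * β j ^ 2 - derivative (β j) * β i ^ 2 =
          β i ^ 2 * (β j ^ 2 * derivative c - derivative (β j)) -
            β j ^ 2 * (β i ^ 2 * derivative c - derivative (β i)) := by ring
      rw [e]
      exact dvd_sub ((h.trans (hvW j)).mul_left _) ((hPW i).mul_left _)
  obtain ⟨s₀, hs₀⟩ := exists_coprime (κ := κ) β c hR _ hV0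
  have hr : ∀ η : Fin k → Bool, ∃ r : F[X], (∏ i, v i) ∣ r - s₀ ∧
      ∀ i, P i ^ 2 ∣ r - (if η i then y₁ i else y₂ i) := by
    intro η
    obtain ⟨r₁, hr₁⟩ := crt_finset (fun i => P i ^ 2) (fun i => if η i then y₁ i else y₂ i)
      (fun i j hij => (hPP i j hij).pow) univ
    obtain ⟨r, h1, h2⟩ := crt_two (a := ∏ i, v i) (b := ∏ i, P i ^ 2)
      (IsCoprime.prod_left fun i _ => IsCoprime.prod_right fun j _ => (hPV j i).symm.pow_right)
      s₀ r₁
    refine ⟨r, h1, fun i => ?_⟩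
    have := dvd_add ((Finset.dvd_prod_of_mem (fun i => P i ^ 2) (mem_univ i)).trans h2)
      (hr₁ i (mem_univ i))
    rwa [sub_add_sub_cancel] at this
  choose r hr₁ hr₂ using hr
  have hE0 : (∏ i, v i) * ∏ i, P i ^ 2 ≠ 0 :=
    mul_ne_zero hV0 (Finset.prod_ne_zero_iff.2 fun i _ => pow_ne_zero _ (hP i).1.ne_zero)
  set E := ((∏ i, v i) * ∏ i, P i ^ 2) * C (((∏ i, v i) * ∏ i, P i ^ 2).leadingCoeff)⁻¹ with hE
  have hEm : E.Monic := monic_mul_leadingCoeff_inv hE0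
  have key : ∀ (η : Fin k → Bool) (s : F[X]), E ∣ s - r η → ∀ i, v i ∣ s - s₀ ∧
      P i ^ 2 ∣ s - (if η i then y₁ i else y₂ i) ∧
      IsCoprime (1 + β i * (c + s ^ p ^ κ)) (β i ^ 2 * derivative c - derivative (β i)) := by
    intro η s hs i
    have hs' : (∏ i, v i) * ∏ i, P i ^ 2 ∣ s - r η := (dvd_mul_right _ _).trans hs
    have hvV : v i ∣ ∏ i, v i := Finset.dvd_prod_of_mem v (mem_univ i)
    have a₁ : v i ∣ s - s₀ := by
      have := dvd_add ((dvd_mul_right _ _).trans hs') (hr₁ η)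
      rw [sub_add_sub_cancel] at this
      exact hvV.trans this
    have a₂ : P i ^ 2 ∣ s - (if η i then y₁ i else y₂ i) := by
      have := dvd_add ((Finset.dvd_prod_of_mem (fun i => P i ^ 2) (mem_univ i)).trans
        ((dvd_mul_left _ _).trans hs')) (hr₂ η i)
      rwa [sub_add_sub_cancel] at this
    refine ⟨a₁, a₂, IsCoprime.of_isCoprime_of_dvd_right ?_ (hWv i)⟩
    refine IsCoprime.mul_right (IsCoprime.pow_right ?_)
      (fam_coprime a₁ ((hs₀ i).of_isCoprime_of_dvd_right hvV))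
    refine fam_coprime ((dvd_pow_self _ two_ne_zero).trans a₂) ?_
    generalize hy : (if η i then y₁ i else y₂ i) = y
    have hy' : ¬ P i ∣ y := by rw [← hy]; split_ifs; exacts [hy₁ i, hy₂ i]
    refine ((hP i).2.1.coprime_iff_not_dvd.2 fun h => ?_).symm
    have e : 1 + β i * (c + y ^ p ^ κ) = β i * y ^ p ^ κ +
        ((1 + β i * c - β i * (P i ^ 2 + P i ^ 3)) + P i * (β i * (P i + P i ^ 2))) := by ring
    rw [e, dvd_add_left (dvd_add ((dvd_pow_self _ (by norm_num)).trans (hcong i))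
      (dvd_mul_right _ _))] at h
    rcases (hP i).2.1.prime.dvd_or_dvd h with h | h
    · exact hPβ i i h
    · exact hy' ((hP i).2.1.prime.dvd_of_dvd_pow h)
  refine ⟨c, E, hEm, fun d hd hEd ε hε => ?_⟩
  obtain ⟨b₁, b₂, b₃⟩ := exists_monic_rep hEm (r fun _ => true) (X ^ (d - E.natDegree))
    (monic_X_pow _)
  set b := r (fun _ => true) %ₘ E + E * X ^ (d - E.natDegree) with hb
  have b₂' : b.natDegree = d := by rw [b₂, natDegree_X_pow]; omega
  refine ⟨r fun i => decide (liou (1 + β i * (c + b ^ p ^ κ)) = ε i), fun s hs hsd hsr i => ?_⟩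
  obtain ⟨k₁, k₂, k₃⟩ := key _ s hsr i
  obtain ⟨l₁, l₂, l₃⟩ := key _ b b₃ i
  obtain ⟨H₁, H₂⟩ := H i b s b₁ hs (by rw [b₂', hsd]) (by rw [b₂']; exact hd) l₃ k₃
  have hvbs : v i ∣ b - s := by
    have := dvd_sub l₁ k₁
    rwa [sub_sub_sub_cancel_right] at this
  simp only [if_true] at l₂
  by_cases hΛ : liou (1 + β i * (c + b ^ p ^ κ)) = ε i
  · simp only [hΛ, decide_true, if_true] at k₂
    rw [← H₁, hΛ]
    refine (hWv i).trans ((hPV i i).pow_left.mul_dvd ?_ hvbs)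
    have := dvd_sub l₂ k₂
    rwa [sub_sub_sub_cancel_right] at this
  · simp only [hΛ, decide_false, Bool.false_eq_true, if_false] at k₂
    have := H₂ hvbs ((dvd_pow_self _ two_ne_zero).trans l₂) ((dvd_pow_self _ two_ne_zero).trans k₂)
    rcases liou_cases (1 + β i * (c + s ^ p ^ κ)) with h | h <;> rcases hε i with h' | h' <;>
      rw [h] at this <;> rw [this, h'] at hΛ <;> simp_all

end Field

end Pool.Agent.MP_4fffd4_nt
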