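import Mathlib
import Pool.Agent.MP_4fffd4_nt.Odd.Fin2

set_option autoImplicit false

namespace Pool.Agent.MP_4fffd4_nt.KeptChowlaTwoPoint

open Polynomial

/-- The two-point Chowla conjecture for the Liouville function of `F[X]`, for every finite field
`F` and with natural density: each sign pattern along two independent linear forms has
density `1 / 4`. -/
theorem result (F : Type) [Field F] [Fintype F] (a h : Fin 2 → F[X])
    (ha : ∀ i, a i ≠ 0) (hind : a 0 * h 1 ≠ a 1 * h 0) (ε : Fin 2 → Bool) :
    Filter.Tendsto
      (fun n : ℕ => (Set.ncard {f : F[X] | f.Monic ∧ f.natDegree = n ∧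
          ∀ i, a i * f + h i ≠ 0 ∧
            (-1 : ℤ) ^ Multiset.card (UniqueFactorizationMonoid.factors (a i * f + h i)) =
              if ε i then 1 else -1} : ℝ) / (Fintype.card F : ℝ) ^ n)
      Filter.atTop (nhds (1 / 4)) := by
  have := Pool.Agent.MP_4fffd4_nt.Odd.pattern_two (by simp) a h ha
    (fun i j hij => by
      fin_cases i <;> fin_cases j
      exacts [absurd rfl hij, hind, hind.symm, absurd rfl hij])
    (fun i => if ε i then 1 else -1) (fun i => by cases ε i <;> simp)
  rw [Fintype.card_fin, show (2 : ℝ) ^ 2 = 4 by norm_num] at this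
  exact this

end Pool.Agent.MP_4fffd4_nt.KeptChowlaTwoPoint
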