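import Mathlib
import Pool.Agent.MP_4fffd4_nt.Core

/- All sign patterns of the Liouville function of `F[X]` along independent linear forms. -/

set_option autoImplicit false

namespace Pool.Agent.MP_4fffd4_nt

open Polynomial Finset

variable {F : Type*} [Field F] [Fintype F]

theorem finite_natDegree_eq (n : ℕ) : {f : F[X] | f.natDegree = n}.Finite := by
  have : Finite (degreeLT F (n + 1)) := Finite.of_equiv _ (degreeLTEquiv F (n + 1)).toEquiv.symm
  refine (Set.toFinite (degreeLT F (n + 1) : Set F[X])).subset fun f hf => ?_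
  rw [SetLike.mem_coe, mem_degreeLT]
  exact degree_le_natDegree.trans_lt (by rw [hf]; exact_mod_cast Nat.lt_succ_self n)

theorem pow_le_ncard {e : ℕ} {S : Set F[X]} (hS : S.Finite) (Φ : F[X] → F[X])
    (hΦ : Function.Injective Φ) (h : ∀ g : F[X], g.Monic → g.natDegree = e → Φ g ∈ S) :
    Fintype.card F ^ e ≤ S.ncard := by
  let ψ : (Fin e → F) → F[X] := fun w => Φ (X ^ e + ((degreeLTEquiv F e).symm w : F[X]))
  have hψ : Function.Injective ψ := fun w w' hw =>
    (degreeLTEquiv F e).symm.injective (Subtype.ext (add_left_cancel (hΦ hw)))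
  have h1 : Set.range ψ ⊆ S := by
    rintro _ ⟨w, rfl⟩
    have hd : ((degreeLTEquiv F e).symm w : F[X]).degree < e :=
      mem_degreeLT.1 ((degreeLTEquiv F e).symm w).2
    refine h _ (monic_X_pow_add hd) ?_
    rw [natDegree_add_eq_left_of_degree_lt (by rwa [degree_X_pow]), natDegree_X_pow]
  have := Set.ncard_le_ncard h1 hS
  rwa [Set.ncard_range_of_injective hψ, Nat.card_fun, Nat.card_eq_fintype_card,
    Nat.card_eq_fintype_card, Fintype.card_fin] at this

variable {p : ℕ} [Fact p.Prime] [CharP F p]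

theorem main_aux {κ : ℕ} (hκ : 1 ≤ κ) (h2 : p = 2 → κ = 3) {k : ℕ} (a h : Fin k → F[X])
    (ha : ∀ i, a i ≠ 0) (hind : ∀ i j, i ≠ j → a i * h j ≠ a j * h i) :
    ∃ b₀ : ℕ, ∀ j : ℕ, ∃ C : ℕ, ∀ d, C ≤ d → ∀ ε : Fin k → ℤ, (∀ i, ε i = 1 ∨ ε i = -1) →
      Fintype.card F ^ d ≤ Fintype.card F ^ C *
        {f : F[X] | f.Monic ∧ f.natDegree = b₀ + j + p ^ κ * d ∧
          ∀ i, a i * f + h i ≠ 0 ∧ liou (a i * f + h i) = ε i}.ncard := by
  classical
  set m := 1 + ∑ i, (h i).natDegree with hm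
  set g : Fin k → F[X] := fun i => a i * X ^ m + h i with hg
  have hglc : ∀ i, (g i).leadingCoeff = (a i).leadingCoeff := by
    intro i
    have h1 : (h i).natDegree ≤ ∑ i, (h i).natDegree :=
      Finset.single_le_sum (f := fun i => (h i).natDegree) (fun _ _ => Nat.zero_le _) (mem_univ i)
    have h3 : (h i).degree < (a i * X ^ m).degree :=
      degree_lt_degree (by rw [natDegree_mul_X_pow _ (ha i)]; omega)
    simp only [hg]
    rw [leadingCoeff_add_of_degree_lt' h3, leadingCoeff_mul_X_pow]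
  have hg0 : ∀ i, g i ≠ 0 := fun i => by
    rw [← leadingCoeff_ne_zero, hglc, leadingCoeff_ne_zero]; exact ha i
  set R : F[X] := ∏ x : Fin (k + 1), ∏ y ∈ univ.erase x, (X ^ (x : ℕ) - X ^ (y : ℕ)) with hR
  have hR0 : R ≠ 0 := by
    refine Finset.prod_ne_zero_iff.2 fun x _ => Finset.prod_ne_zero_iff.2 fun y hy => ?_
    rw [sub_ne_zero]
    intro e
    have := congrArg natDegree e
    rw [natDegree_X_pow, natDegree_X_pow] at this
    exact ne_of_mem_erase hy (Fin.ext this).symm
  have hRg0 : R * ∏ i, g i ≠ 0 := mul_ne_zero hR0 (Finset.prod_ne_zero_iff.2 fun i _ => hg0 i)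
  set G := (R * ∏ i, g i) * C (R * ∏ i, g i).leadingCoeff⁻¹ with hG
  have hGm : G.Monic := monic_mul_leadingCoeff_inv hRg0
  have hγ : ∀ i, ∃ γ : F[X], R ∣ γ ∧ G * a i = g i * γ := by
    intro i
    obtain ⟨w, hw⟩ := Finset.dvd_prod_of_mem g (mem_univ i)
    refine ⟨R * (w * C (R * ∏ i, g i).leadingCoeff⁻¹ * a i), dvd_mul_right _ _, ?_⟩
    rw [hG]
    generalize C (R * ∏ i, g i).leadingCoeff⁻¹ = u
    rw [hw]; ring
  choose γ hRγ hγ using hγ
  have hγm : ∀ i, (γ i).Monic := by
    intro i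
    have := congrArg leadingCoeff (hγ i)
    rw [leadingCoeff_mul G, leadingCoeff_mul (g i), hGm.leadingCoeff, one_mul, hglc] at this
    exact (mul_right_eq_self₀.1 this.symm).resolve_right (leadingCoeff_ne_zero.2 (ha i))
  obtain ⟨B, hBm, hBi, hB⟩ := exists_prime_not_dvd (Z := X * G * (∏ i, a i) *
      ∏ i, ∏ j ∈ univ.erase i, (a j * h i - a i * h j)) (by
    refine mul_ne_zero (mul_ne_zero (mul_ne_zero X_ne_zero hGm.ne_zero) ?_) ?_
    · exact Finset.prod_ne_zero_iff.2 fun i _ => ha i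
    · exact Finset.prod_ne_zero_iff.2 fun i _ => Finset.prod_ne_zero_iff.2 fun j hj =>
        sub_ne_zero.2 (hind j i (ne_of_mem_erase hj)))
  have hBX : ¬ B ∣ X := fun e => hB (((e.mul_right _).mul_right _).mul_right _)
  have hBG : ¬ B ∣ G := fun e => hB (((e.mul_left _).mul_right _).mul_right _)
  have hBa : ∀ i, ¬ B ∣ a i := fun i e =>
    hB (((e.trans (Finset.dvd_prod_of_mem a (mem_univ i))).mul_left _).mul_right _)
  have hBδ : ∀ i j, i ≠ j → ¬ B ∣ a j * h i - a i * h j := by
    intro i j hij e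
    refine hB (Dvd.dvd.mul_left ?_ _)
    refine Dvd.dvd.trans ?_ (Finset.dvd_prod_of_mem _ (mem_univ i))
    exact e.trans (Finset.dvd_prod_of_mem (fun j => a j * h i - a i * h j)
      (mem_erase.2 ⟨hij.symm, mem_univ _⟩))
  have hBp := hBi.prime
  have hBγ : ∀ i, ¬ B ∣ γ i := by
    intro i e
    have : B ∣ G * a i := hγ i ▸ e.mul_left _
    exact (hBp.dvd_or_dvd this).elim hBG (hBa i)
  refine ⟨B.natDegree + G.natDegree, fun j => ?_⟩
  have hBXj : ¬ B ∣ X ^ j := fun e => hBX (hBp.dvd_of_dvd_pow e)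
  obtain ⟨c, E, hE, H⟩ := core hκ h2 (fun i => B * (X ^ j * γ i))
    (fun i => hBm.mul ((monic_X_pow j).mul (hγm i)))
    (by
      intro Q hQ
      by_cases hQR : Q ∣ R
      · exact Or.inl fun i => ((hQR.trans (hRγ i)).mul_left _).mul_left _
      · refine Or.inr fun x y hxy e => hQR ?_
        refine Dvd.dvd.trans ?_ (Finset.dvd_prod_of_mem _ (mem_univ x))
        exact e.trans (Finset.dvd_prod_of_mem (fun y : Fin (k + 1) => X ^ (x : ℕ) - X ^ (y : ℕ))
          (mem_erase.2 ⟨hxy.symm, mem_univ _⟩)))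
    (by
      intro i l hil h0
      have h1 : B ∣ γ l - γ i → False := by
        intro e
        have e' : (γ l - γ i) * (g i * g l) = G * (a l * h i - a i * h l) := by
          have e1 := hγ i
          have e2 := hγ l
          simp only [hg] at e1 e2 ⊢
          linear_combination (a l * X ^ m + h l) * e1 - (a i * X ^ m + h i) * e2
        have : B ∣ G * (a l * h i - a i * h l) := e' ▸ e.mul_right _
        exact (hBp.dvd_or_dvd this).elim hBG (hBδ i l hil)
      have h3 : ∀ i, ¬ B ∣ X ^ j * γ i := fun i e => (hBp.dvd_or_dvd e).elim hBXj (hBγ i)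
      have h4 : ¬ B ∣ X ^ j * γ l - X ^ j * γ i := by
        rw [← mul_sub]; exact fun e => (hBp.dvd_or_dvd e).elim hBXj h1
      have h5 := h3 i
      have h6 := h3 l
      generalize X ^ j * γ i = u at h0 h4 h5
      generalize X ^ j * γ l = w at h0 h4 h6
      have h7 : B ^ 2 * (derivative B * (u * (w * (w - u))) +
          B * (derivative u * w ^ 2 - derivative w * u ^ 2)) = 0 := by
        rw [derivative_mul, derivative_mul] at h0
        linear_combination h0
      have h8 := (mul_eq_zero.1 h7).resolve_left (pow_ne_zero 2 hBm.ne_zero)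
      have h9 : B ∣ derivative B * (u * (w * (w - u))) :=
        ⟨-(derivative u * w ^ 2 - derivative w * u ^ 2), by linear_combination h8⟩
      rcases hBp.dvd_or_dvd h9 with e | e
      · exact hBi.not_isUnit
          (IsCoprime.isUnit_of_dvd (PerfectField.separable_of_irreducible hBi) e)
      rcases hBp.dvd_or_dvd e with e | e
      · exact h5 e
      · exact (hBp.dvd_or_dvd e).elim h6 h4)
  refine ⟨c.natDegree + E.natDegree + m + 1, fun d hd ε hε => ?_⟩
  have hN : d ≤ p ^ κ * d := Nat.le_mul_of_pos_left d (pow_pos (Fact.out : p.Prime).pos κ)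
  obtain ⟨r, hr⟩ := H d (by omega) (by omega) (fun i => liou (g i) * ε i) (fun i => by
    rcases liou_cases (g i) with e | e <;> rcases hε i with e' | e' <;> simp [e, e'])
  have hbm : (B * X ^ j * G).Monic := (hBm.mul (monic_X_pow j)).mul hGm
  have := pow_le_ncard (e := d - E.natDegree)
    (S := {f : F[X] | f.Monic ∧ f.natDegree = B.natDegree + G.natDegree + j + p ^ κ * d ∧
          ∀ i, a i * f + h i ≠ 0 ∧ liou (a i * f + h i) = ε i})
    ((finite_natDegree_eq _).subset fun f hf => hf.2.1)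
    (fun w => X ^ m + B * X ^ j * G * (c + (r %ₘ E + E * w) ^ p ^ κ))
    (by
      intro w w' e
      have e1 := add_left_cancel (mul_left_cancel₀ hbm.ne_zero (add_left_cancel e))
      rw [← sub_eq_zero, ← sub_pow_char_pow] at e1
      have e2 := sub_eq_zero.1 (pow_eq_zero_iff (pow_pos (Fact.out : p.Prime).pos κ).ne' |>.1 e1)
      exact mul_left_cancel₀ hE.ne_zero (add_left_cancel e2))
    (by
      intro w hw hwd
      obtain ⟨s₁, s₂, s₃⟩ := exists_monic_rep hE r w hw
      generalize r %ₘ E + E * w = s at s₁ s₂ s₃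
      have s₄ : s.natDegree = d := by rw [s₂, hwd]; omega
      have t₁ : (s ^ p ^ κ).natDegree = p ^ κ * d := by rw [natDegree_pow, s₄]
      have t₂ : (c + s ^ p ^ κ).Monic :=
        (s₁.pow _).add_of_right (degree_lt_degree (by omega))
      have t₃ : (c + s ^ p ^ κ).natDegree = p ^ κ * d := by
        rw [natDegree_add_eq_right_of_natDegree_lt (by omega), t₁]
      have t₄ : (B * X ^ j * G * (c + s ^ p ^ κ)).natDegree =
          B.natDegree + G.natDegree + j + p ^ κ * d := by
        rw [hbm.natDegree_mul t₂, t₃, (hBm.mul (monic_X_pow j)).natDegree_mul hGm,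
          hBm.natDegree_mul (monic_X_pow j), natDegree_X_pow]
        ring
      have t₅ : (X ^ m : F[X]).natDegree < (B * X ^ j * G * (c + s ^ p ^ κ)).natDegree := by
        rw [t₄, natDegree_X_pow]; omega
      refine ⟨(hbm.mul t₂).add_of_right (degree_lt_degree t₅), by
        rw [natDegree_add_eq_right_of_natDegree_lt t₅, t₄], fun i => ?_⟩
      have e : a i * (X ^ m + B * X ^ j * G * (c + s ^ p ^ κ)) + h i =
          g i * (1 + B * (X ^ j * γ i) * (c + s ^ p ^ κ)) := by
        have e1 := hγ i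
        simp only [hg] at e1 ⊢
        linear_combination (B * X ^ j * (c + s ^ p ^ κ)) * e1
      have hm0 : 1 + B * (X ^ j * γ i) * (c + s ^ p ^ κ) ≠ 0 :=
        (fam_monic (hBm.mul ((monic_X_pow j).mul (hγm i))) s₁ (by rw [s₄]; omega)).1.ne_zero
      rw [e]
      refine ⟨mul_ne_zero (hg0 i) hm0, ?_⟩
      rw [liou_mul (hg0 i) hm0, hr s s₁ s₄ s₃ i]
      rcases liou_cases (g i) with e | e <;> simp [e])
  refine le_trans ?_ (Nat.mul_le_mul_left _ this)
  rw [← pow_add]
  exact Nat.pow_le_pow_right Fintype.card_pos (by omega)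

theorem main {κ : ℕ} (hκ : 1 ≤ κ) (h2 : p = 2 → κ = 3) {k : ℕ} (a h : Fin k → F[X])
    (ha : ∀ i, a i ≠ 0) (hind : ∀ i j, i ≠ j → a i * h j ≠ a j * h i) :
    ∃ C : ℕ, ∀ n, C ≤ n → ∀ ε : Fin k → ℤ, (∀ i, ε i = 1 ∨ ε i = -1) →
      Fintype.card F ^ (n / p ^ κ) ≤ Fintype.card F ^ C *
        {f : F[X] | f.Monic ∧ f.natDegree = n ∧
          ∀ i, a i * f + h i ≠ 0 ∧ liou (a i * f + h i) = ε i}.ncard := by
  obtain ⟨b₀, H⟩ := main_aux hκ h2 a h ha hind
  choose C hC using H
  have hN : 0 < p ^ κ := pow_pos (Fact.out : p.Prime).pos κ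
  generalize p ^ κ = N at hC hN
  set T := ∑ j ∈ range N, C j with hT
  refine ⟨b₀ + N * T, fun n hn ε hε => ?_⟩
  have h1 : C ((n - b₀) % N) ≤ T :=
    Finset.single_le_sum (f := C) (fun _ _ => Nat.zero_le _) (mem_range.2 (Nat.mod_lt _ hN))
  have h3 : T ≤ (n - b₀) / N := by
    rw [Nat.le_div_iff_mul_le hN, mul_comm]; omega
  have h4 := Nat.mod_add_div (n - b₀) N
  have h5 := hC ((n - b₀) % N) ((n - b₀) / N) (h1.trans h3) ε hε
  rw [show b₀ + (n - b₀) % N + N * ((n - b₀) / N) = n by omega] at h5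
  have h6 : n / N ≤ b₀ + (n - b₀) / N := by
    rw [add_comm, ← Nat.add_mul_div_left _ _ hN]
    have : b₀ ≤ N * b₀ := Nat.le_mul_of_pos_left _ hN
    exact Nat.div_le_div_right (by omega)
  have h7 : T ≤ N * T := Nat.le_mul_of_pos_left _ hN
  calc Fintype.card F ^ (n / N) ≤ Fintype.card F ^ b₀ * Fintype.card F ^ ((n - b₀) / N) := by
        rw [← pow_add]; exact Nat.pow_le_pow_right Fintype.card_pos h6
    _ ≤ _ := by
        refine (Nat.mul_le_mul_left _ h5).trans ?_
        rw [← mul_assoc, ← pow_add]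
        exact Nat.mul_le_mul_right _ (Nat.pow_le_pow_right Fintype.card_pos (by omega))

end Pool.Agent.MP_4fffd4_nt
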