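import Mathlib
import Pool.Agent.MP_4fffd4_nt.Main

set_option autoImplicit false

namespace Pool.Agent.MP_4fffd4_nt.KeptFunctionField

open Polynomial

/-- Function field model of Q1, over every finite field. -/
theorem result (F : Type) [Field F] [Fintype F] (k : ℕ) (a h : Fin k → F[X])
    (ha : ∀ i, a i ≠ 0) (hind : ∀ i j, i ≠ j → a i * h j ≠ a j * h i) :
    ∃ C : ℕ, ∀ n : ℕ, C ≤ n → ∀ ε : Fin k → Bool,
      Fintype.card F ^ (n / (if ringChar F = 2 then 8 else ringChar F)) ≤
        Fintype.card F ^ C * Set.ncard {f : F[X] | f.Monic ∧ f.natDegree = n ∧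
          ∀ i, a i * f + h i ≠ 0 ∧
            (-1 : ℤ) ^ Multiset.card (UniqueFactorizationMonoid.factors (a i * f + h i)) =
              if ε i then 1 else -1} := by
  have : Fact (ringChar F).Prime := ⟨CharP.char_is_prime F _⟩
  obtain ⟨C, hC⟩ := Pool.Agent.MP_4fffd4_nt.main (p := ringChar F)
    (κ := if ringChar F = 2 then 3 else 1) (by split_ifs <;> norm_num) (fun e => if_pos e)
    a h ha hind
  refine ⟨C, fun n hn ε => ?_⟩
  have e : (if ringChar F = 2 then 8 else ringChar F) =
      ringChar F ^ (if ringChar F = 2 then 3 else 1) := by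
    split_ifs with e
    · rw [e]; norm_num
    · rw [pow_one]
  rw [e]
  exact hC n hn (fun i => if ε i then 1 else -1) (fun i => by cases ε i <;> simp)

end Pool.Agent.MP_4fffd4_nt.KeptFunctionField
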