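import Mathlib
import Pool.Agent.MP_4fffd4_nt.SX.All

set_option autoImplicit false

namespace Pool.Agent.MP_4fffd4_nt.KeptStretchedExp

/-- For every `c > 1` there are infinitely many `n` such that more than
`exp (n ^ (1/3) / (log n) ^ c)` sign patterns of length `n` occur in the Liouville function. -/
theorem result (c : ℝ) (hc : 1 < c) (N : ℕ) : ∃ n : ℕ, N ≤ n ∧
    Real.exp ((n : ℝ) ^ (1 / 3 : ℝ) / Real.log n ^ c) <
      (Set.ncard {ε : Fin n → ℤ | ∃ m : ℕ, 1 ≤ m ∧ ∀ j : Fin n,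
        ε j = (-1 : ℤ) ^ ArithmeticFunction.cardFactors (m + j + 1)} : ℝ) := by
  by_contra h
  push Not at h
  exact Pool.Agent.MP_4fffd4_nt.SX.not_low_all hc N h

end Pool.Agent.MP_4fffd4_nt.KeptStretchedExp
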